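import Pool.Agent.Helper53.DG.PdSf

/-!
# DG-A206: the box functional: bounds, positivity, monotonicity

PROOFS. All by induction on the list.
* `box_bd`: `‖g‖ ≤ 1` implies `‖g x conj g(..)‖ ≤ 1`; `‖box X l g‖ ≤ 1`.
* `box_shift`: `box X l (g ∘ T^n) = box X l g` for bounded `g` (`inv_zpow`; the powers of `T` commute).
* `box_kernel` (key): for bounded `u i`, the kernel `K(i,j) = box X l (u i * conj (u j))` is positive
  semidefinite. `l = []`: `E |∑ c i u i|² ≥ 0`. `a :: l`: `box (a::l) (u i conj u j) = cz_h box l (v_i conj v_j)`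
  with `v_i = u i * conj (u i ∘ T^(a h))`: for every `h` positive semidefinite by induction; a mean of
  nonnegative reals is a nonnegative real.
* `box_pd`: `m ↦ box X l (g * conj (g ∘ T^m))` is `PD`: `box l (g conj (g ∘ T^(i-j))) =
  box l (g∘T^j conj (g ∘ T^i))` (`box_shift j`), which is the kernel of `u i = conj (g ∘ T^i)`.
* `box_nonneg`: `box (a :: l) g = cz.E (b (a ·))` with `b = ` the sequence of `box_pd` for `l`; `PD.comp_mul`,
  `cz_nonneg`.
* `box_mono_head`: `cz_le_cz_mul` for the PD sequence `m ↦ b (a m)`.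
* `box_mono`: if the entries of `l'` are positive multiples of those of `l` (`List.Forall₂`), then
  `(box X l g).re ≤ (box X l' g).re`: induction; `a :: l, a' :: l'`, `a' = n a`: first the tail: for `l = []`
  nothing; for `l` nonempty `box l (..) ≤ box l' (..)` for every `h` by induction, monotonicity of `cz` on
  real functions (both are nonnegative reals bounded by `1`, `box_nonneg`); then `box_mono_head`.
* `box_powS`: `(T^n)^(a h) = T^(n a h)`.
-/

set_option autoImplicit false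

namespace DG.BLP

open Finset Filter Topology DG

private theorem k_cons (X : Sys) (a : ℤ) (l : List ℤ) (g : X.S → ℂ) :
    box X (a :: l) g =
      cz.E (fun h => box X l (fun x => g x * (starRingEnd ℂ) (g ((X.T ^ (a * h)) x)))) := rfl

theorem box_bd (X : Sys) (l : List ℤ) (g : X.S → ℂ) (hg : ∀ x, ‖g x‖ ≤ 1) : ‖box X l g‖ ≤ 1 := by
  induction l generalizing g with
  | nil => exact X.μ.norm_E_le g hg
  | cons a l ih =>
    refine cz.norm_E_le _ fun h => ih _ fun x => ?_
    rw [norm_mul, RCLike.norm_conj]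
    exact mul_le_one₀ (hg _) (norm_nonneg _) (hg _)

theorem box_shift (X : Sys) (l : List ℤ) (g : X.S → ℂ) (hg : Bd g) (n : ℤ) :
    box X l (fun x => g ((X.T ^ n) x)) = box X l g := by
  induction l generalizing g with
  | nil => exact X.inv_zpow n g hg
  | cons a l ih =>
    rw [k_cons, k_cons]
    congr 1
    funext h
    have h1 := ih (fun x => g x * (starRingEnd ℂ) (g ((X.T ^ (a * h)) x)))
      (hg.mul (Bd.conj (hg.comp _)))
    rw [← h1]
    congr 1
    funext x
    have h2 : (X.T ^ n) ((X.T ^ (a * h)) x) = (X.T ^ (a * h)) ((X.T ^ n) x) := by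
      rw [← Equiv.Perm.mul_apply, ← Equiv.Perm.mul_apply, ← zpow_add, ← zpow_add, add_comm]
    change g ((X.T ^ n) x) * (starRingEnd ℂ) (g ((X.T ^ n) ((X.T ^ (a * h)) x))) = _
    rw [h2]

theorem box_kernel (X : Sys) (l : List ℤ) (u : ℤ → X.S → ℂ) (hu : ∀ i x, ‖u i x‖ ≤ 1)
    (s : Finset ℤ) (c : ℤ → ℂ) :
    0 ≤ (∑ i ∈ s, ∑ j ∈ s, c i * (starRingEnd ℂ) (c j) *
        box X l (fun x => u i x * (starRingEnd ℂ) (u j x))).re ∧
      (∑ i ∈ s, ∑ j ∈ s, c i * (starRingEnd ℂ) (c j) *
        box X l (fun x => u i x * (starRingEnd ℂ) (u j x))).im = 0 := by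
  induction l generalizing u with
  | nil =>
    have hbd : ∀ i, Bd (u i) := fun i => ⟨1, hu i⟩
    have h1 : ∑ i ∈ s, ∑ j ∈ s, c i * (starRingEnd ℂ) (c j) *
        box X [] (fun x => u i x * (starRingEnd ℂ) (u j x)) =
        ((X.μ.N2 (fun x => ∑ i ∈ s, c i * u i x) : ℝ) : ℂ) := by
      rw [← X.μ.N2_eq _ (Bd.sum s _ fun i _ => (hbd i).const_mul (c i))]
      have h2 : (fun x => (∑ i ∈ s, c i * u i x) * (starRingEnd ℂ) (∑ i ∈ s, c i * u i x)) =
          fun x => ∑ i ∈ s, ∑ j ∈ s, c i * (starRingEnd ℂ) (c j) *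
            (u i x * (starRingEnd ℂ) (u j x)) := by
        funext x
        rw [map_sum, Finset.sum_mul_sum]
        refine Finset.sum_congr rfl fun i _ => Finset.sum_congr rfl fun j _ => ?_
        rw [map_mul]
        ring
      rw [h2, X.μ.E_sum]
      refine Finset.sum_congr rfl fun i _ => ?_
      rw [X.μ.E_sum]
      refine Finset.sum_congr rfl fun j _ => ?_
      rw [X.μ.E_const_mul]
      rfl
    rw [h1, Complex.ofReal_re, Complex.ofReal_im]
    exact ⟨X.μ.N2_nonneg _ (Bd.sum s _ fun i _ => (hbd i).const_mul (c i)), rfl⟩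
  | cons a l ih =>
    set v : ℤ → ℤ → X.S → ℂ := fun h i x => u i x * (starRingEnd ℂ) (u i ((X.T ^ (a * h)) x))
      with hv
    have hvb : ∀ h i x, ‖v h i x‖ ≤ 1 := by
      intro h i x
      simp only [hv]
      rw [norm_mul, RCLike.norm_conj]
      exact mul_le_one₀ (hu _ _) (norm_nonneg _) (hu _ _)
    set Q : ℤ → ℂ := fun h => ∑ i ∈ s, ∑ j ∈ s, c i * (starRingEnd ℂ) (c j) *
      box X l (fun x => v h i x * (starRingEnd ℂ) (v h j x)) with hQ
    have hQn : ∀ h, 0 ≤ (Q h).re ∧ (Q h).im = 0 := fun h => ih (v h) (hvb h)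
    have h1 : ∑ i ∈ s, ∑ j ∈ s, c i * (starRingEnd ℂ) (c j) *
        box X (a :: l) (fun x => u i x * (starRingEnd ℂ) (u j x)) = cz.E Q := by
      rw [hQ, cz.E_sum]
      refine Finset.sum_congr rfl fun i _ => ?_
      rw [cz.E_sum]
      refine Finset.sum_congr rfl fun j _ => ?_
      rw [cz.E_const_mul, k_cons]
      congr 2
      funext h
      congr 1
      funext x
      simp only [hv, map_mul, Complex.conj_conj]
      ring
    have h2 : Q = fun h => (((Q h).re : ℝ) : ℂ) := by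
      funext h
      apply Complex.ext
      · simp
      · simp [(hQn h).2]
    have hb : ∀ h, (Q h).re ≤ ∑ i ∈ s, ∑ j ∈ s, ‖c i‖ * ‖c j‖ := by
      intro h
      refine (Complex.re_le_norm _).trans ?_
      simp only [hQ]
      refine (norm_sum_le _ _).trans (Finset.sum_le_sum fun i _ => ?_)
      refine (norm_sum_le _ _).trans (Finset.sum_le_sum fun j _ => ?_)
      rw [norm_mul, norm_mul, RCLike.norm_conj]
      have h3 : ‖box X l (fun x => v h i x * (starRingEnd ℂ) (v h j x))‖ ≤ 1 := by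
        refine box_bd X l _ fun x => ?_
        rw [norm_mul, RCLike.norm_conj]
        exact mul_le_one₀ (hvb _ _ _) (norm_nonneg _) (hvb _ _ _)
      calc ‖c i‖ * ‖c j‖ * ‖box X l (fun x => v h i x * (starRingEnd ℂ) (v h j x))‖ ≤
          ‖c i‖ * ‖c j‖ * 1 := mul_le_mul_of_nonneg_left h3 (by positivity)
        _ = ‖c i‖ * ‖c j‖ := mul_one _
    rw [h1, h2]
    exact cz.nonneg (fun h => (Q h).re) (fun h => (hQn h).1) ⟨_, hb⟩

theorem box_pd (X : Sys) (l : List ℤ) (g : X.S → ℂ) (hg : ∀ x, ‖g x‖ ≤ 1) :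
    PD (fun m => box X l (fun x => g x * (starRingEnd ℂ) (g ((X.T ^ m) x)))) := by
  intro s c
  have h1 : ∀ i j : ℤ, box X l (fun x => g x * (starRingEnd ℂ) (g ((X.T ^ (i - j)) x))) =
      box X l (fun x => (starRingEnd ℂ) (g ((X.T ^ i) x)) *
        (starRingEnd ℂ) ((starRingEnd ℂ) (g ((X.T ^ j) x)))) := by
    intro i j
    have hbg : Bd g := ⟨1, hg⟩
    rw [← box_shift X l (fun x => g x * (starRingEnd ℂ) (g ((X.T ^ (i - j)) x)))
      (hbg.mul (Bd.conj (hbg.comp _))) j]
    congr 1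
    funext x
    have h2 : (X.T ^ (i - j)) ((X.T ^ j) x) = (X.T ^ i) x := by
      rw [← Equiv.Perm.mul_apply, ← zpow_add, sub_add_cancel]
    rw [h2, Complex.conj_conj, mul_comm]
  simp only [h1]
  exact box_kernel X l (fun i x => (starRingEnd ℂ) (g ((X.T ^ i) x)))
    (fun i x => by rw [RCLike.norm_conj]; exact hg _) s c

theorem box_nonneg (X : Sys) (a : ℤ) (l : List ℤ) (g : X.S → ℂ) (hg : ∀ x, ‖g x‖ ≤ 1) :
    0 ≤ (box X (a :: l) g).re ∧ (box X (a :: l) g).im = 0 := by
  exact cz_nonneg ((box_pd X l g hg).comp_mul a)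

theorem box_mono (X : Sys) (l l' : List ℤ)
    (h : List.Forall₂ (fun a a' : ℤ => ∃ n : ℕ, 1 ≤ n ∧ a' = n * a) l l')
    (g : X.S → ℂ) (hg : ∀ x, ‖g x‖ ≤ 1) : (box X l g).re ≤ (box X l' g).re := by
  induction h generalizing g with
  | nil => exact le_rfl
  | @cons a a' l l' hab hll ih =>
    obtain ⟨n, hn, rfl⟩ := hab
    have hgb : ∀ (m : ℤ) x, ‖g x * (starRingEnd ℂ) (g ((X.T ^ m) x))‖ ≤ 1 := by
      intro m x
      rw [norm_mul, RCLike.norm_conj]
      exact mul_le_one₀ (hg _) (norm_nonneg _) (hg _)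
    have hB : ∀ (L : List ℤ) (m : ℤ),
        ‖box X L (fun x => g x * (starRingEnd ℂ) (g ((X.T ^ m) x)))‖ ≤ 1 := fun L m =>
      box_bd X L _ (hgb m)
    have h1 : (box X (a :: l) g).re ≤ (box X (a :: l') g).re := by
      rw [k_cons, k_cons, cz.re_E _ ⟨1, fun h => hB l (a * h)⟩, cz.re_E _ ⟨1, fun h => hB l' (a * h)⟩]
      exact cz.R_mono _ _ (fun h => ih _ (hgb (a * h)))
        (fun h => (Complex.abs_re_le_norm _).trans (hB l (a * h)))
        (fun h => (Complex.abs_re_le_norm _).trans (hB l' (a * h)))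
    refine h1.trans ?_
    have h2 := cz_le_cz_mul ((box_pd X l' g hg).comp_mul a) n hn
    refine h2.trans (le_of_eq ?_)
    congr 2
    funext h
    congr 1
    funext x
    have h3 : a * ((n : ℤ) * h) = (n : ℤ) * a * h := by ring
    rw [h3]

theorem box_powS (X : Sys) (n : ℕ) (l : List ℤ) (g : X.S → ℂ) :
    box (powS X n) l g = box X (l.map (fun a => (n : ℤ) * a)) g := by
  induction l generalizing g with
  | nil => rfl
  | cons a l ih =>
    change cz.E (fun h => box (powS X n) l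
      (fun x => g x * (starRingEnd ℂ) (g (((X.T ^ n) ^ (a * h)) x)))) =
      cz.E (fun h => box X (l.map (fun a => (n : ℤ) * a))
        (fun x => g x * (starRingEnd ℂ) (g ((X.T ^ ((n : ℤ) * a * h)) x))))
    congr 1
    funext h
    have h1 : (X.T ^ n) ^ (a * h) = X.T ^ ((n : ℤ) * a * h) := by
      rw [mul_assoc, zpow_mul X.T (n : ℤ), zpow_natCast]
    rw [h1]
    exact ih _

end DG.BLP
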