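import Pool.Agent.Helper53.DG.SVle

/-!
# DG-A212: the core estimate for phases with large denominators

PROOF of `core_le`. `R = L.length ≥ 1`, `Pz = P.image (↑)`, `ζ = z⁻¹ = conj z`. Let `δ > 0` be the minimum of
`‖1 - ζ^N‖ = ‖1 - z^N‖`, `1 ≤ N ≤ 2^R (2w)^(2^R)`. Let `K` be given by `SV_le` for `w, Pz, R, δ`. For `n ≥ 1` put
 `V_p x = n⁻² ∑_{i,j<n} z^(i-j) conj (gL X L p (T^((i-j) p) x))` for `p ∈ Pz`, `V_p = 0` otherwise.
* `‖V_p x‖ ≤ 1`; `V_p (T^p x) = ζ V_p x + O(2/n)`: `z V_p(T^p x) = n⁻² ∑ z^(i+1-j) conj gL(T^((i+1-j)p) x)` and for every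
  `j` the sum over `i < n` telescopes against the one without `+1` (two terms of norm `≤ 1`). So
  `Eig X ζ V (1/p) (2w) (2/n)` with `β = p`, `α = 1` (`p ≥ w ≥ 1`, `p ≤ 2w`).
* `(sf n (Gam · z^·)) = (1/|P|) ∑_{p ∈ P} E[gL X L p x V_p x]` (linearity of `E`).
* `elim`: `(|P| δ0)^(2^R) ≤ ‖∑_p E[gL V_p]‖^(2^R) ≤ (2w+1)^(2^R - R - 1) (R (2w+1)^(R-1) |P| + K 2/n)` for `δ0 ≥ 0`
  (if `δ0 < 0` nothing to prove, `tau ≥ 0`). Let `n → ∞`:
  `(|P| δ0)^(2^R) ≤ R (2w+1)^(2^R-2) |P| ≤ R (3w)^(2^R-2) |P|`, and `|P| ≤ w + 1 ≤ 2w`; so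
  `δ0^(2^R) ≤ R 3^(2^R) w^(2^R-2) 2w / |P|^(2^R) = 2 R 3^(2^R) (w/|P|)^(2^R) w⁻¹ ≤ (6 (w/|P|) w^(-1/2^R))^(2^R)`
  since `2 R ≤ 2^(2^R)` (`2R ≤ 2 · 2^(R-1) · ... `: `R ≤ 2^(R-1)`, `2R ≤ 2^R ≤ 2^(2^R)`).
-/

set_option autoImplicit false

namespace DG.BLP

open Finset Filter Topology DG

namespace CoreAux

theorem gL_norm (X : Sys) (L : List ((X.S → ℂ) × ℤ)) (hL : ∀ B ∈ L, ∀ x, ‖B.1 x‖ ≤ 1) (p : ℤ)
    (x : X.S) : ‖gL X L p x‖ ≤ 1 := by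
  unfold gL
  induction L with
  | nil => simp
  | cons B L ih =>
    rw [List.map_cons, List.prod_cons, norm_mul]
    exact mul_le_one₀ (hL B List.mem_cons_self _) (norm_nonneg _)
      (ih fun B' hB' => hL B' (List.mem_cons_of_mem _ hB'))

theorem exists_delta (ζ : ℂ) (M : ℕ) (h : ∀ N : ℕ, 1 ≤ N → N ≤ M → ζ ^ N ≠ 1) :
    ∃ δ : ℝ, 0 < δ ∧ ∀ N : ℕ, 1 ≤ N → N ≤ M → δ ≤ ‖1 - ζ ^ N‖ := by
  induction M with
  | zero => exact ⟨1, one_pos, fun N h1 h2 => by omega⟩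
  | succ M ih =>
    obtain ⟨δ, hδ, hd⟩ := ih (fun N h1 h2 => h N h1 (by omega))
    refine ⟨min δ ‖1 - ζ ^ (M + 1)‖, lt_min hδ (norm_pos_iff.2 (sub_ne_zero.2
      (h (M + 1) (by omega) le_rfl).symm)), fun N h1 h2 => ?_⟩
    rcases Nat.lt_or_ge N (M + 1) with h3 | h3
    · exact (min_le_left _ _).trans (hd N h1 (by omega))
    · have h4 : N = M + 1 := by omega
      subst h4
      exact min_le_right _ _

/-- The average of `z ^ m * conj (g (T ^ (m p) x))` over `m = i - j`, `i, j < n`. -/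
noncomputable def cV (X : Sys) (z : ℂ) (n : ℕ) (g : X.S → ℂ) (p : ℤ) (x : X.S) : ℂ :=
  (∑ i ∈ range n, ∑ j ∈ range n, z ^ ((i : ℤ) - (j : ℤ)) *
    (starRingEnd ℂ) (g ((X.T ^ (((i : ℤ) - (j : ℤ)) * p)) x))) / (n : ℂ) ^ 2

theorem cV_norm (X : Sys) (z : ℂ) (hz : ‖z‖ = 1) (n : ℕ) (hn : 1 ≤ n) (g : X.S → ℂ)
    (hg : ∀ x, ‖g x‖ ≤ 1) (p : ℤ) (x : X.S) : ‖cV X z n g p x‖ ≤ 1 := by
  unfold cV
  have hn0 : (0 : ℝ) < n := by exact_mod_cast hn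
  rw [norm_div, norm_pow, Complex.norm_natCast, div_le_one (by positivity)]
  refine (norm_sum_le _ _).trans ?_
  have h1 : ∀ i ∈ range n, ‖∑ j ∈ range n, z ^ ((i : ℤ) - (j : ℤ)) *
      (starRingEnd ℂ) (g ((X.T ^ (((i : ℤ) - (j : ℤ)) * p)) x))‖ ≤ (n : ℝ) := by
    intro i _
    refine (norm_sum_le _ _).trans ?_
    refine (Finset.sum_le_card_nsmul _ _ 1 ?_).trans (by simp)
    intro j _
    rw [norm_mul, norm_zpow, hz, one_zpow, one_mul, RCLike.norm_conj]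
    exact hg _
  refine (Finset.sum_le_card_nsmul _ _ _ h1).trans ?_
  simp [sq]

theorem cV_eig (X : Sys) (z : ℂ) (hz : ‖z‖ = 1) (n : ℕ) (hn : 1 ≤ n) (g : X.S → ℂ)
    (hg : ∀ x, ‖g x‖ ≤ 1) (p : ℤ) (x : X.S) :
    ‖cV X z n g p ((X.T ^ p) x) - z⁻¹ * cV X z n g p x‖ ≤ 2 / n := by
  have hn0 : (0 : ℝ) < n := by exact_mod_cast hn
  have hz0 : z ≠ 0 := by
    rintro rfl
    simp at hz
  set c : ℤ → ℂ := fun m => z ^ m * (starRingEnd ℂ) (g ((X.T ^ (m * p)) x)) with hc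
  have hcn : ∀ m, ‖c m‖ ≤ 1 := by
    intro m
    simp only [hc]
    rw [norm_mul, norm_zpow, hz, one_zpow, one_mul, RCLike.norm_conj]
    exact hg _
  have h1 : cV X z n g p ((X.T ^ p) x) =
      (∑ j ∈ range n, ∑ i ∈ range n, z⁻¹ * c (((i + 1 : ℕ) : ℤ) - (j : ℤ))) / (n : ℂ) ^ 2 := by
    unfold cV
    rw [Finset.sum_comm]
    congr 1
    refine Finset.sum_congr rfl fun j _ => Finset.sum_congr rfl fun i _ => ?_
    simp only [hc]
    have h2 : (X.T ^ (((i : ℤ) - (j : ℤ)) * p)) ((X.T ^ p) x) =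
        (X.T ^ ((((i + 1 : ℕ) : ℤ) - (j : ℤ)) * p)) x := by
      rw [← Equiv.Perm.mul_apply, ← zpow_add]
      congr 2
      push_cast
      ring
    have h3 : z ^ (((i + 1 : ℕ) : ℤ) - (j : ℤ)) = z * z ^ ((i : ℤ) - (j : ℤ)) := by
      rw [show (((i + 1 : ℕ) : ℤ) - (j : ℤ)) = 1 + ((i : ℤ) - (j : ℤ)) by push_cast; ring,
        zpow_add₀ hz0, zpow_one]
    rw [h2, h3]
    field_simp
  have h2 : z⁻¹ * cV X z n g p x =
      (∑ j ∈ range n, ∑ i ∈ range n, z⁻¹ * c ((i : ℤ) - (j : ℤ))) / (n : ℂ) ^ 2 := by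
    unfold cV
    rw [Finset.sum_comm, ← mul_div_assoc, Finset.mul_sum]
    congr 1
    refine Finset.sum_congr rfl fun j _ => ?_
    rw [Finset.mul_sum]
  have h3 : cV X z n g p ((X.T ^ p) x) - z⁻¹ * cV X z n g p x =
      (∑ j ∈ range n, z⁻¹ * (c ((n : ℤ) - (j : ℤ)) - c (-(j : ℤ)))) / (n : ℂ) ^ 2 := by
    rw [h1, h2, ← sub_div, ← Finset.sum_sub_distrib]
    congr 1
    refine Finset.sum_congr rfl fun j _ => ?_
    rw [← Finset.sum_sub_distrib]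
    have h4 := Finset.sum_range_sub (fun i : ℕ => z⁻¹ * c ((i : ℤ) - (j : ℤ))) n
    rw [h4]
    simp only [Nat.cast_zero, zero_sub]
    ring
  rw [h3, norm_div, norm_pow, Complex.norm_natCast, div_le_div_iff₀ (by positivity) hn0]
  have h5 : ‖∑ j ∈ range n, z⁻¹ * (c ((n : ℤ) - (j : ℤ)) - c (-(j : ℤ)))‖ ≤ n * 2 := by
    refine (norm_sum_le _ _).trans ?_
    refine (Finset.sum_le_card_nsmul _ _ 2 ?_).trans (by simp)
    intro j _
    rw [norm_mul, norm_inv, hz, inv_one, one_mul]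
    refine (norm_sub_le _ _).trans ?_
    linarith [hcn ((n : ℤ) - (j : ℤ)), hcn (-(j : ℤ))]
  nlinarith

theorem sf_eq (X : Sys) (P : Finset ℕ) (g : ℕ → X.S → ℂ) (z : ℂ) (n : ℕ) :
    sf n (fun m => Gam X P g m * z ^ m) =
      (1 / (P.card : ℂ)) * ∑ p ∈ P, X.μ.E (fun x => g p x * cV X z n (g p) (p : ℤ) x) := by
  unfold sf Gam
  have h1 : ∀ p ∈ P, X.μ.E (fun x => g p x * cV X z n (g p) (p : ℤ) x) =
      (∑ i ∈ range n, ∑ j ∈ range n, z ^ ((i : ℤ) - (j : ℤ)) *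
        X.μ.E (fun x => g p x * (starRingEnd ℂ) (g p ((X.T ^ (((i : ℤ) - (j : ℤ)) * (p : ℤ))) x))))
        / (n : ℂ) ^ 2 := by
    intro p _
    have h2 : (fun x => g p x * cV X z n (g p) (p : ℤ) x) = fun x =>
        (∑ i ∈ range n, ∑ j ∈ range n, z ^ ((i : ℤ) - (j : ℤ)) *
          (g p x * (starRingEnd ℂ) (g p ((X.T ^ (((i : ℤ) - (j : ℤ)) * (p : ℤ))) x))))
          * (1 / (n : ℂ) ^ 2) := by
      funext x
      unfold cV
      rw [← mul_div_assoc, Finset.mul_sum, mul_one_div]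
      congr 1
      refine Finset.sum_congr rfl fun i _ => ?_
      rw [Finset.mul_sum]
      refine Finset.sum_congr rfl fun j _ => ?_
      ring
    rw [h2, X.μ.E_mul_const, X.μ.E_sum, mul_one_div]
    congr 1
    refine Finset.sum_congr rfl fun i _ => ?_
    rw [X.μ.E_sum]
    refine Finset.sum_congr rfl fun j _ => ?_
    exact X.μ.E_const_mul _ _
  rw [Finset.sum_congr rfl h1, ← Finset.sum_div, ← mul_div_assoc]
  congr 1
  rw [Finset.sum_comm (s := P), Finset.mul_sum]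
  refine Finset.sum_congr rfl fun i _ => ?_
  rw [Finset.sum_comm (s := P), Finset.mul_sum]
  refine Finset.sum_congr rfl fun j _ => ?_
  beta_reduce
  rw [mul_assoc, Finset.sum_mul]
  congr 1
  refine Finset.sum_congr rfl fun p _ => ?_
  ring

theorem two_mul_le (R : ℕ) : 2 * R ≤ 2 ^ (2 ^ R) := by
  have h1 : R + 1 ≤ 2 ^ R := Nat.lt_two_pow_self
  have h2 : 2 ^ (R + 1) ≤ 2 ^ (2 ^ R) := Nat.pow_le_pow_right (by norm_num) h1
  rw [pow_succ] at h2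
  omega

/-- The numerical end of the proof. -/
theorem num_end (R w c : ℕ) (hR : 1 ≤ R) (hw : 1 ≤ w) (hc : 1 ≤ c) (hc2 : c ≤ w + 1) (d : ℝ)
    (h : ((c : ℝ) * d) ^ (2 ^ R) ≤ ((2 * w + 1 : ℕ) : ℝ) ^ (2 ^ R - R - 1) *
      (R * ((2 * w + 1 : ℕ) : ℝ) ^ (R - 1) * c)) :
    d ≤ 6 * ((w : ℝ) / c) * (w : ℝ) ^ (-(1 / 2 ^ R : ℝ)) := by
  have hR2 : R + 1 ≤ 2 ^ R := Nat.lt_two_pow_self
  have hw0 : (0 : ℝ) < w := by exact_mod_cast hw
  have hc0 : (0 : ℝ) < c := by exact_mod_cast hc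
  have hw1 : (1 : ℝ) ≤ w := by exact_mod_cast hw
  have hc3 : (c : ℝ) ≤ 2 * w := by
    have : (c : ℝ) ≤ w + 1 := by exact_mod_cast hc2
    linarith
  have h1 : ((2 * w + 1 : ℕ) : ℝ) ^ (2 ^ R - R - 1) * (R * ((2 * w + 1 : ℕ) : ℝ) ^ (R - 1) * c) =
      R * ((2 * w + 1 : ℕ) : ℝ) ^ (2 ^ R - 2) * c := by
    rw [show 2 ^ R - 2 = (2 ^ R - R - 1) + (R - 1) by omega, pow_add]
    ring
  have h2 : ((2 * w + 1 : ℕ) : ℝ) ^ (2 ^ R - 2) ≤ (3 * (w : ℝ)) ^ (2 ^ R - 2) := by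
    apply pow_le_pow_left₀ (by positivity)
    push_cast
    linarith
  have h3 : ((c : ℝ) * d) ^ (2 ^ R) ≤ (6 : ℝ) ^ (2 ^ R) * (w : ℝ) ^ (2 ^ R - 1) := by
    calc ((c : ℝ) * d) ^ (2 ^ R) ≤ R * ((2 * w + 1 : ℕ) : ℝ) ^ (2 ^ R - 2) * c := by
          rw [← h1]; exact h
      _ ≤ R * (3 * (w : ℝ)) ^ (2 ^ R - 2) * (2 * w) := by gcongr
      _ = (2 * R : ℕ) * (3 : ℝ) ^ (2 ^ R - 2) * (w : ℝ) ^ (2 ^ R - 1) := by
          rw [mul_pow, show 2 ^ R - 1 = (2 ^ R - 2) + 1 by omega, pow_succ]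
          push_cast
          ring
      _ ≤ ((2 ^ (2 ^ R) : ℕ) : ℝ) * (3 : ℝ) ^ (2 ^ R) * (w : ℝ) ^ (2 ^ R - 1) := by
          have h4 : ((2 * R : ℕ) : ℝ) ≤ ((2 ^ (2 ^ R) : ℕ) : ℝ) := by
            exact_mod_cast two_mul_le R
          have h5 : (3 : ℝ) ^ (2 ^ R - 2) ≤ (3 : ℝ) ^ (2 ^ R) :=
            pow_le_pow_right₀ (by norm_num) (by omega)
          gcongr
      _ = (6 : ℝ) ^ (2 ^ R) * (w : ℝ) ^ (2 ^ R - 1) := by
          push_cast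
          rw [← mul_pow]
          norm_num
  have h4 : ((c : ℝ) * (6 * ((w : ℝ) / c) * (w : ℝ) ^ (-(1 / 2 ^ R : ℝ)))) ^ (2 ^ R) =
      (6 : ℝ) ^ (2 ^ R) * (w : ℝ) ^ (2 ^ R - 1) := by
    have h5 : (c : ℝ) * (6 * ((w : ℝ) / c) * (w : ℝ) ^ (-(1 / 2 ^ R : ℝ))) =
        6 * (w : ℝ) * (w : ℝ) ^ (-(1 / 2 ^ R : ℝ)) := by
      field_simp
    rw [h5, mul_pow, mul_pow, mul_assoc]
    congr 1
    rw [← Real.rpow_natCast ((w : ℝ) ^ (-(1 / 2 ^ R : ℝ))), ← Real.rpow_mul hw0.le]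
    have h6 : -(1 / 2 ^ R : ℝ) * ((2 ^ R : ℕ) : ℝ) = -1 := by
      push_cast
      field_simp
    rw [h6, Real.rpow_neg_one]
    have h7 : (w : ℝ) ^ (2 ^ R) = (w : ℝ) ^ (2 ^ R - 1) * w := by
      rw [← pow_succ]
      congr 1
      omega
    rw [h7]
    field_simp
  have h5 : (c : ℝ) * d ≤ (c : ℝ) * (6 * ((w : ℝ) / c) * (w : ℝ) ^ (-(1 / 2 ^ R : ℝ))) := by
    refine le_of_pow_le_pow_left₀ (n := 2 ^ R) (by positivity) (by positivity) ?_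
    rw [h4]
    exact h3
  exact le_of_mul_le_mul_left h5 hc0

end CoreAux

open CoreAux in
theorem core_le (X : Sys) (w : ℕ) (hw : 1 ≤ w) (P : Finset ℕ) (hPn : P.Nonempty)
    (hP : ∀ p ∈ P, w ≤ p ∧ p ≤ 2 * w) (L : List ((X.S → ℂ) × ℤ))
    (hL : ∀ B ∈ L, ∀ x, ‖B.1 x‖ ≤ 1) (hL1 : 1 ≤ L.length) (z : ℂ) (hz : ‖z‖ = 1)
    (hz1 : ∀ N : ℕ, 1 ≤ N → N ≤ 2 ^ L.length * (2 * w) ^ (2 ^ L.length) → z ^ N ≠ 1)
    (δ0 : ℝ) (h : ∀ n : ℕ, 1 ≤ n →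
      δ0 ≤ (sf n (fun m => Gam X P (fun p => gL X L p) m * z ^ m)).re) :
    δ0 ≤ tau L.length w P := by
  classical
  have hcard : 1 ≤ P.card := hPn.card_pos
  have hcard2 : P.card ≤ w + 1 := by
    have h1 : P ⊆ Icc w (2 * w) := fun p hp => by
      rw [mem_Icc]
      exact hP p hp
    refine (card_le_card h1).trans ?_
    rw [Nat.card_Icc]
    omega
  rcases lt_or_ge δ0 0 with hneg | hδ0
  · refine hneg.le.trans ?_
    unfold tau
    positivity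
  have hz0 : z ≠ 0 := by
    rintro rfl
    simp at hz
  have hζ : ‖z⁻¹‖ = 1 := by rw [norm_inv, hz, inv_one]
  set R := L.length with hR
  set Pz : Finset ℤ := P.image (fun q : ℕ => (q : ℤ)) with hPz
  have hPzc : Pz.card = P.card :=
    Finset.card_image_of_injective _ (fun a b hab => by exact_mod_cast hab)
  have hPzw : ∀ p ∈ Pz, (w : ℤ) ≤ p ∧ p ≤ 2 * w := by
    intro p hp
    rw [hPz, mem_image] at hp
    obtain ⟨q, hq, rfl⟩ := hp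
    have := hP q hq
    constructor
    · exact_mod_cast this.1
    · exact_mod_cast this.2
  obtain ⟨δ, hδ, hδN⟩ := exists_delta z⁻¹ (2 ^ R * (2 * w) ^ (2 ^ R)) (fun N h1 h2 h3 => by
    apply hz1 N h1 h2
    rw [inv_pow, inv_eq_one] at h3
    exact h3)
  obtain ⟨K, hK, hSV⟩ := SV_le w hw Pz hPzw R δ hδ
  -- the bound for every `n`
  have key : ∀ n : ℕ, 1 ≤ n → ((P.card : ℝ) * δ0) ^ (2 ^ R) ≤
      ((2 * w + 1 : ℕ) : ℝ) ^ (2 ^ R - R - 1) *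
        (R * ((2 * w + 1 : ℕ) : ℝ) ^ (R - 1) * P.card + K * (2 / n)) := by
    intro n hn
    set V : ℤ → X.S → ℂ := fun p x => if p ∈ Pz then cV X z n (gL X L p) p x else 0 with hV
    have hV1 : ∀ p x, ‖V p x‖ ≤ 1 := by
      intro p x
      simp only [hV]
      split_ifs
      · exact cV_norm X z hz n hn _ (gL_norm X L hL p) p x
      · simp
    have hV0 : ∀ p, p ∉ Pz → ∀ x, V p x = 0 := by
      intro p hp x
      simp only [hV]
      rw [if_neg hp]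
    have hE : Eig X z⁻¹ V (fun p => 1 / (p : ℚ)) (2 * w) (2 / n) := by
      intro p
      by_cases hp : p ∈ Pz
      · right
        have hp' := hp
        rw [hPz, mem_image] at hp'
        obtain ⟨q, hq, rfl⟩ := hp'
        have hq' := hP q hq
        refine ⟨q, by omega, hq'.2, 1, ?_, fun x => ?_⟩
        · have : (q : ℚ) ≠ 0 := by
            have : q ≠ 0 := by omega
            exact_mod_cast this
          push_cast
          field_simp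
        · simp only [hV]
          rw [if_pos hp, if_pos hp, zpow_one]
          exact cV_eig X z hz n hn _ (gL_norm X L hL _) _ x
      · exact Or.inl (hV0 p hp)
    have h1 := elim X Pz w hPzw L hL V hV1 hV0
    have h2 := hSV X z⁻¹ hζ hδN (L.map Prod.snd) (by rw [List.length_map]) V hV1 hV0 (2 / n)
      (by positivity) hE
    rw [hPzc] at h2
    have h3 : (∑ p ∈ Pz, X.μ.E (fun x => gL X L p x * V p x)) =
        ∑ p ∈ P, X.μ.E (fun x => gL X L (p : ℤ) x * cV X z n (gL X L (p : ℤ)) (p : ℤ) x) := by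
      rw [hPz, Finset.sum_image (fun a _ b _ hab => by exact_mod_cast hab)]
      refine Finset.sum_congr rfl fun p hp => ?_
      have hp' : (p : ℤ) ∈ Pz := by
        rw [hPz, mem_image]
        exact ⟨p, hp, rfl⟩
      congr 1
      funext x
      simp only [hV]
      rw [if_pos hp']
    have h4 := h n hn
    rw [sf_eq X P (fun p => gL X L (p : ℤ)) z n, ← h3] at h4
    have hc0 : (0 : ℝ) < P.card := by exact_mod_cast hcard
    have h5 : (P.card : ℝ) * δ0 ≤ ‖∑ p ∈ Pz, X.μ.E (fun x => gL X L p x * V p x)‖ := by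
      have h6 := h4.trans (Complex.re_le_norm _)
      rw [norm_mul, norm_div, norm_one, Complex.norm_natCast] at h6
      rw [one_div, inv_mul_eq_div, le_div_iff₀ hc0] at h6
      linarith
    calc ((P.card : ℝ) * δ0) ^ (2 ^ R) ≤
        ‖∑ p ∈ Pz, X.μ.E (fun x => gL X L p x * V p x)‖ ^ (2 ^ R) :=
          pow_le_pow_left₀ (by positivity) h5 _
      _ ≤ ((2 * w + 1 : ℕ) : ℝ) ^ (2 ^ R - R - 1) * SV X Pz w (L.map Prod.snd) V := h1
      _ ≤ _ := mul_le_mul_of_nonneg_left h2 (by positivity)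
  -- the limit `n → ∞`
  have hlim : Tendsto (fun n : ℕ => ((2 * w + 1 : ℕ) : ℝ) ^ (2 ^ R - R - 1) *
        (R * ((2 * w + 1 : ℕ) : ℝ) ^ (R - 1) * P.card + K * (2 / n))) atTop
      (𝓝 (((2 * w + 1 : ℕ) : ℝ) ^ (2 ^ R - R - 1) *
        (R * ((2 * w + 1 : ℕ) : ℝ) ^ (R - 1) * P.card + K * 0))) := by
    refine Tendsto.const_mul _ (Tendsto.const_add _ (Tendsto.const_mul _ ?_))
    exact tendsto_const_div_atTop_nhds_zero_nat 2
  have h1 : ((P.card : ℝ) * δ0) ^ (2 ^ R) ≤ ((2 * w + 1 : ℕ) : ℝ) ^ (2 ^ R - R - 1) *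
        (R * ((2 * w + 1 : ℕ) : ℝ) ^ (R - 1) * P.card + K * 0) :=
    ge_of_tendsto hlim (eventually_atTop.2 ⟨1, key⟩)
  rw [mul_zero, add_zero] at h1
  exact num_end R w P.card hL1 hw hcard hcard2 δ0 h1

end DG.BLP
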