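import Pool.Agent.Helper6.DG.Defs

/-!
# Project DIAG (MP_e0aac0_nt), part A2: definitions for the proof of `BL k`

`BL k` (Helper6/DG/Defs.lean) is the bilinear core. All modules of part A2 import this file.
-/

set_option autoImplicit false

namespace DG.BLP

open Finset Filter Topology DG

/-- The average of `a (i - j)` over `0 ≤ i, j < n`. -/
noncomputable def sf (n : ℕ) (a : ℤ → ℂ) : ℂ :=
  (∑ i ∈ range n, ∑ j ∈ range n, a ((i : ℤ) - (j : ℤ))) / (n : ℂ) ^ 2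

theorem fej_eq_sf (N : ℕ) (a : ℤ → ℂ) : (fej N).E a = sf (N + 1) a := fej_E N a

/-- Positive definite sequences on `ℤ`. -/
def PD (a : ℤ → ℂ) : Prop := ∀ (s : Finset ℤ) (c : ℤ → ℂ),
  0 ≤ (∑ i ∈ s, ∑ j ∈ s, c i * (starRingEnd ℂ) (c j) * a (i - j)).re ∧
    (∑ i ∈ s, ∑ j ∈ s, c i * (starRingEnd ℂ) (c j) * a (i - j)).im = 0

/-- The list `[k, k - 1, ..., 1]`. -/
def steps : ℕ → List ℤ
  | 0 => []
  | k + 1 => ((k : ℤ) + 1) :: steps k

/-- Invariance in the second variable of a mean on `ι × ℤ`. -/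
def MInv {ι : Type} (M : Mean (ι × ℤ)) : Prop :=
  ∀ f : ι × ℤ → ℂ, Bd f → M.E (fun z => f (z.1, z.2 + 1)) = M.E f

/-- The system with `T` replaced by `T ^ n`. -/
noncomputable def powS (X : Sys) (n : ℕ) : Sys where
  S := X.S
  T := X.T ^ n
  μ := X.μ
  inv := fun f hf => X.inv_pow n f hf

/-- The bijection `((p, p'), (x, y)) ↦ ((p, p'), (T ^ p x, T ^ p' y))`. -/
def pairT (X : Sys) : Equiv.Perm ((ℕ × ℕ) × (X.S × X.S)) where
  toFun z := (z.1, ((X.T ^ z.1.1) z.2.1, (X.T ^ z.1.2) z.2.2))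
  invFun z := (z.1, (((X.T ^ z.1.1)⁻¹) z.2.1, ((X.T ^ z.1.2)⁻¹) z.2.2))
  left_inv := by
    intro z
    simp
  right_inv := by
    intro z
    simp

/-- The mean on pairs: `p, p' ∈ P` uniform, `x, y` independent. -/
noncomputable def pairM (X : Sys) (P : Finset ℕ) (hP : P.Nonempty) :
    Mean ((ℕ × ℕ) × (X.S × X.S)) :=
  (Mean.fin (P ×ˢ P) (fun _ => 1) (fun p => p) (fun _ _ => zero_le_one)
    (by
      rw [Finset.sum_const, nsmul_eq_mul, mul_one, Finset.card_product]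
      have : 0 < P.card := hP.card_pos
      positivity)).prod (X.μ.prod X.μ)

/-- The functional `qbox`: iterated means over `h` of the squared absolute value of the average over
`p ∈ P` of the mean of the iterated differences of `g p` with steps `a h p`. -/
noncomputable def qbox (X : Sys) (P : Finset ℕ) : List ℤ → (ℕ → X.S → ℂ) → ℂ
  | [], g => ((‖(1 / (P.card : ℂ)) * ∑ p ∈ P, X.μ.E (g p)‖ ^ 2 : ℝ) : ℂ)
  | a :: l, g => cz.E (fun h => qbox X P l
      (fun p x => g p x * (starRingEnd ℂ) (g p ((X.T ^ (a * h * (p : ℤ))) x))))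

/-- The product `∏ A (T ^ (p c) x)` over the pairs `(A, c)` of the list. -/
noncomputable def gL (X : Sys) (L : List ((X.S → ℂ) × ℤ)) (p : ℤ) (x : X.S) : ℂ :=
  (L.map (fun A => A.1 ((X.T ^ (p * A.2)) x))).prod

/-- `Γ(j)`: the average over `p ∈ P` of the autocorrelation of `g p` for `T ^ p`. -/
noncomputable def Gam (X : Sys) (P : Finset ℕ) (g : ℕ → X.S → ℂ) (j : ℤ) : ℂ :=
  (1 / (P.card : ℂ)) * ∑ p ∈ P,
    X.μ.E (fun x => g p x * (starRingEnd ℂ) (g p ((X.T ^ (j * (p : ℤ))) x)))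

/-- One difference in `p`. -/
noncomputable def dV (X : Sys) (V : ℤ → X.S → ℂ) (c t : ℤ) : ℤ → X.S → ℂ :=
  fun p x => V p x * (starRingEnd ℂ) (V (p + t) ((X.T ^ (-(t * c))) x))

/-- The sum over all cubes, with the constants `c` of the list. -/
noncomputable def SV (X : Sys) (P : Finset ℤ) (w : ℕ) : List ℤ → (ℤ → X.S → ℂ) → ℝ
  | [], V => ‖∑ p ∈ P, X.μ.E (V p)‖
  | c :: l, V => ∑ t ∈ Icc (-(w : ℤ)) w, SV X P w l (dV X V c t)

/-- Approximate eigenfunctions: `V p` is zero, or `V p (T ^ β x) = z ^ α V p x` up to `κ`, with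
`1 ≤ β ≤ B` and `α / β = r p`. -/
def Eig (X : Sys) (z : ℂ) (V : ℤ → X.S → ℂ) (r : ℤ → ℚ) (B : ℕ) (κ : ℝ) : Prop :=
  ∀ p : ℤ, (∀ x, V p x = 0) ∨ ∃ β : ℕ, 1 ≤ β ∧ β ≤ B ∧ ∃ α : ℤ, (α : ℚ) = r p * β ∧
    ∀ x, ‖V p ((X.T ^ (β : ℤ)) x) - z ^ α * V p x‖ ≤ κ

/-- Iterated differences of `r`. -/
def rr : List ℤ → (ℤ → ℚ) → ℤ → ℚ
  | [], r => r
  | t :: l, r => rr l (fun p => r p - r (p + t))

/-- The condition `Q` holds at all vertices of the cube. -/
def Ver : List ℤ → (ℤ → Prop) → ℤ → Prop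
  | [], Q => Q
  | t :: l, Q => Ver l (fun p => Q p ∧ Q (p + t))

/-- The bound of the core for `R` factors. -/
noncomputable def tau (R w : ℕ) (P : Finset ℕ) : ℝ :=
  6 * ((w : ℝ) / P.card) * (w : ℝ) ^ (-(1 / 2 ^ R : ℝ))

/-- A common multiple of all denominators which occur for `R` factors. -/
def n1 (R w : ℕ) : ℕ := (2 ^ R * (2 * w) ^ (2 ^ R)).factorial

theorem n1_pos (R w : ℕ) : 0 < n1 R w := Nat.factorial_pos _

end DG.BLP
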