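import Pool.Agent.Helper53.DG.Defs

/-!
# DG-A209: elimination of the factors by Cauchy-Schwarz

PROOF of `elim`. Write `S = ∑_{p ∈ P} E[∏_{(A,c) ∈ L} A (T^(p c) x) V_p x]`, `N0 = 2 w + 1`, `d = L.length`.
`elim_one` (one step): for `L = (A, c) :: L'`:
 `‖S‖² ≤ ∑_{t ∈ [-w, w]} ‖S_t‖`, `S_t = ∑_{p ∈ P} E[∏_{(A',c') ∈ L'} A'_t (T^(p c') x) (dV X V c t p) x]`,
 `A'_t y = A' y * conj (A' (T^(t c' - t c) y))`.
 Proof: in the term `p` replace `x` by `T^(-p c) x` (`inv_zpow`): the factor `A` becomes `A x`, so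
 `S = E[A x * ∑_p B_p (T^(-p c) x) V_p (T^(-p c) x)]`, `B_p y = ∏_{L'} A' (T^(p c') y)`. `Mean.cs_one`:
 `‖S‖² ≤ E |∑_p ...|² = ∑_{p, p'} E[B_p(T^(-pc)x) V_p(T^(-pc)x) conj (B_p'(T^(-p'c)x) V_p'(T^(-p'c)x))]`
 (a nonnegative real). For `p' = p + t` (`|t| ≤ w` as `p, p' ∈ [w, 2w]`; for fixed `p` the map `t ↦ p + t` is a
 bijection from the `t ∈ [-w, w]` with `p + t ∈ P` to `P`; for `p + t ∉ P` the term with `V_{p+t} = 0` is zero)
 replace `x` by `T^(p c) x`: `E[B_p(x) conj B_{p+t}(T^(-t c) x) V_p(x) conj V_{p+t}(T^(-t c) x)]`, and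
 `B_p(x) conj B_{p+t}(T^(-tc) x) = ∏_{L'} A'(T^(p c') x) conj A'(T^((p+t) c' - t c) x)`. Exchange the sums over
 `p` and `t` and take absolute values for each `t`.
`elim`: induction on `L` (all `V`, all `L`). `L = []`: equality (`2^0 - 0 - 1 = 0`). Step: `d + 1`:
 `‖S‖^(2^(d+1)) ≤ (∑_t ‖S_t‖)^(2^d) ≤ N0^(2^d - 1) ∑_t ‖S_t‖^(2^d)` (`inner_le_nnorm_mul_nnorm` /
 `inner_mul_le_norm_mul_norm`: use `inner_le` or `Finset.inner_mul_le..`; simplest: `inv_mul..`
 `Real.pow_arith_mean_le_arith_mean_pow` or `inner`; in Mathlib: `inner_le_Lp_mul_Lq`; or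
 `Finset.sum_div_card_le..`: the power mean inequality `(∑_{i∈s} a_i)^n ≤ s.card^(n-1) ∑ a_i^n` is
 `inner`-free as `Finset.pow_sum_le..`/`inv`; name: `inner`; see `Mathlib/Analysis/MeanInequalitiesPow.lean`,
 `inner`, theorem `pow_sum_div_card_le_sum_pow`), then the induction hypothesis for `L'_t` (same second
 components, functions bounded by `1`) and `dV X V c t` (bounded by `1`, zero outside `P`):
 exponent `2^d - 1 + (2^d - d - 1) = 2^(d+1) - (d+1) - 1` (`2^d ≥ d + 1`).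
-/

set_option autoImplicit false

namespace DG.BLP

open Finset Filter Topology DG

theorem dV_norm (X : Sys) (V : ℤ → X.S → ℂ) (hV : ∀ p x, ‖V p x‖ ≤ 1) (c t p : ℤ) (x : X.S) :
    ‖dV X V c t p x‖ ≤ 1 := by
  unfold dV
  rw [norm_mul, RCLike.norm_conj]
  exact mul_le_one₀ (hV _ _) (norm_nonneg _) (hV _ _)

theorem dV_zero (X : Sys) (V : ℤ → X.S → ℂ) (P : Finset ℤ) (hV0 : ∀ p, p ∉ P → ∀ x, V p x = 0)
    (c t p : ℤ) (hp : p ∉ P) (x : X.S) : dV X V c t p x = 0 := by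
  unfold dV
  rw [hV0 p hp x, zero_mul]

theorem gL_cons_eq (X : Sys) (A : (X.S → ℂ) × ℤ) (L : List ((X.S → ℂ) × ℤ)) (p : ℤ) (x : X.S) :
    gL X (A :: L) p x = A.1 ((X.T ^ (p * A.2)) x) * gL X L p x := by
  simp [gL]

theorem gL_le_one (X : Sys) (L : List ((X.S → ℂ) × ℤ)) (hL : ∀ B ∈ L, ∀ x, ‖B.1 x‖ ≤ 1)
    (p : ℤ) (x : X.S) : ‖gL X L p x‖ ≤ 1 := by
  induction L with
  | nil => simp [gL]
  | cons A L ih =>
    rw [gL_cons_eq, norm_mul]
    exact mul_le_one₀ (hL A (by simp) _) (norm_nonneg _)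
      (ih fun B hB => hL B (List.mem_cons_of_mem _ hB))

theorem gL_dif (X : Sys) (L : List ((X.S → ℂ) × ℤ)) (c t p : ℤ) (x : X.S) :
    gL X L p x * (starRingEnd ℂ) (gL X L (p + t) ((X.T ^ (-(t * c))) x)) =
      gL X (L.map (fun B => ((fun y => B.1 y *
          (starRingEnd ℂ) (B.1 ((X.T ^ (t * B.2 - t * c)) y))), B.2))) p x := by
  induction L with
  | nil => simp [gL]
  | cons A L ih =>
    rw [List.map_cons, gL_cons_eq, gL_cons_eq, gL_cons_eq, ← ih, map_mul]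
    have e : (X.T ^ (t * A.2 - t * c)) ((X.T ^ (p * A.2)) x) =
        (X.T ^ ((p + t) * A.2)) ((X.T ^ (-(t * c))) x) := by
      rw [← Equiv.Perm.mul_apply, ← Equiv.Perm.mul_apply, ← zpow_add, ← zpow_add]
      congr 2
      ring
    simp only [e]
    ring

theorem elim_one (X : Sys) (P : Finset ℤ) (w : ℕ) (hP : ∀ p ∈ P, (w : ℤ) ≤ p ∧ p ≤ 2 * w)
    (A : X.S → ℂ) (c : ℤ) (L : List ((X.S → ℂ) × ℤ)) (hA : ∀ x, ‖A x‖ ≤ 1)
    (hL : ∀ B ∈ L, ∀ x, ‖B.1 x‖ ≤ 1) (V : ℤ → X.S → ℂ) (hV : ∀ p x, ‖V p x‖ ≤ 1)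
    (hV0 : ∀ p, p ∉ P → ∀ x, V p x = 0) :
    ‖∑ p ∈ P, X.μ.E (fun x => gL X ((A, c) :: L) p x * V p x)‖ ^ 2 ≤
      ∑ t ∈ Icc (-(w : ℤ)) w, ‖∑ p ∈ P, X.μ.E (fun x =>
        gL X (L.map (fun B => ((fun y => B.1 y *
          (starRingEnd ℂ) (B.1 ((X.T ^ (t * B.2 - t * c)) y))), B.2))) p x * dV X V c t p x)‖ := by
  classical
  set G : ℤ → X.S → ℂ := fun p x => gL X L p ((X.T ^ (-(p * c))) x) * V p ((X.T ^ (-(p * c))) x)
    with hG
  have hG1 : ∀ p x, ‖G p x‖ ≤ 1 := fun p x => by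
    rw [hG]
    simp only [norm_mul]
    exact mul_le_one₀ (gL_le_one X L hL _ _) (norm_nonneg _) (hV _ _)
  have hGb : ∀ p, Bd (G p) := fun p => ⟨1, hG1 p⟩
  have hGS : Bd (fun x => ∑ p ∈ P, G p x) := Bd.sum P G fun p _ => hGb p
  have e1 : ∀ p, X.μ.E (fun x => gL X ((A, c) :: L) p x * V p x) =
      X.μ.E (fun x => A x * G p x) := by
    intro p
    rw [← X.inv_zpow (p * c) (fun x => A x * G p x) (Bd.mul ⟨1, hA⟩ (hGb p))]
    congr 1
    funext x
    have e : (X.T ^ (-(p * c))) ((X.T ^ (p * c)) x) = x := by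
      rw [← Equiv.Perm.mul_apply, ← zpow_add, neg_add_cancel, zpow_zero, Equiv.Perm.one_apply]
    rw [gL_cons_eq]
    simp only [hG, e]
    ring
  have e2 : ∑ p ∈ P, X.μ.E (fun x => gL X ((A, c) :: L) p x * V p x) =
      X.μ.E (fun x => A x * ∑ p ∈ P, G p x) := by
    simp only [Finset.mul_sum]
    rw [X.μ.E_sum P (fun p x => A x * G p x)]
    exact Finset.sum_congr rfl fun p _ => e1 p
  rw [e2]
  refine (X.μ.cs_one _ _ hA hGS).trans ?_
  -- the pair correlations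
  have e3 : ∀ p t : ℤ, X.μ.E (fun x => G p x * (starRingEnd ℂ) (G (p + t) x)) =
      X.μ.E (fun x => gL X (L.map (fun B => ((fun y => B.1 y *
          (starRingEnd ℂ) (B.1 ((X.T ^ (t * B.2 - t * c)) y))), B.2))) p x * dV X V c t p x) := by
    intro p t
    rw [← X.inv_zpow (p * c) (fun x => G p x * (starRingEnd ℂ) (G (p + t) x))
      ((hGb p).mul (hGb _).conj)]
    congr 1
    funext x
    have ea : (X.T ^ (-(p * c))) ((X.T ^ (p * c)) x) = x := by
      rw [← Equiv.Perm.mul_apply, ← zpow_add, neg_add_cancel, zpow_zero, Equiv.Perm.one_apply]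
    have eb : (X.T ^ (-((p + t) * c))) ((X.T ^ (p * c)) x) = (X.T ^ (-(t * c))) x := by
      rw [← Equiv.Perm.mul_apply, ← zpow_add]
      congr 2
      ring
    rw [← gL_dif]
    simp only [hG, ea, eb, dV, map_mul]
    ring
  have e4 : ∀ p ∈ P, ∑ p' ∈ P, X.μ.E (fun x => G p x * (starRingEnd ℂ) (G p' x)) =
      ∑ t ∈ Icc (-(w : ℤ)) w, X.μ.E (fun x => G p x * (starRingEnd ℂ) (G (p + t) x)) := by
    intro p hp
    have h1 : ∑ t ∈ Icc (-(w : ℤ)) w, X.μ.E (fun x => G p x * (starRingEnd ℂ) (G (p + t) x)) =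
        ∑ p' ∈ (Icc (-(w : ℤ)) w).image (fun t => p + t),
          X.μ.E (fun x => G p x * (starRingEnd ℂ) (G p' x)) := by
      rw [Finset.sum_image]
      intro a _ b _ h
      exact add_left_cancel h
    rw [h1]
    refine Finset.sum_subset ?_ ?_
    · intro p' hp'
      rw [Finset.mem_image]
      refine ⟨p' - p, ?_, by ring⟩
      have ha := hP p hp
      have hb := hP p' hp'
      rw [Finset.mem_Icc]
      constructor <;> linarith [ha.1, ha.2, hb.1, hb.2]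
    · intro p' _ hp'
      have : (fun x => G p x * (starRingEnd ℂ) (G p' x)) = fun _ => 0 := by
        funext x
        simp only [hG, hV0 p' hp', mul_zero, map_zero]
      rw [this]
      exact X.μ.E_const 0
  have e5 : (X.μ.N2 (fun x => ∑ p ∈ P, G p x) : ℂ) =
      ∑ t ∈ Icc (-(w : ℤ)) w, ∑ p ∈ P, X.μ.E (fun x =>
        gL X (L.map (fun B => ((fun y => B.1 y *
          (starRingEnd ℂ) (B.1 ((X.T ^ (t * B.2 - t * c)) y))), B.2))) p x * dV X V c t p x) := by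
    rw [← X.μ.N2_eq _ hGS, Finset.sum_comm]
    have h1 : (fun x => (∑ p ∈ P, G p x) * (starRingEnd ℂ) (∑ p ∈ P, G p x)) =
        fun x => ∑ p ∈ P, ∑ p' ∈ P, G p x * (starRingEnd ℂ) (G p' x) := by
      funext x
      rw [map_sum, Finset.sum_mul_sum]
    rw [h1, X.μ.E_sum P (fun p x => ∑ p' ∈ P, G p x * (starRingEnd ℂ) (G p' x))]
    refine Finset.sum_congr rfl fun p hp => ?_
    rw [X.μ.E_sum P (fun p' x => G p x * (starRingEnd ℂ) (G p' x)), e4 p hp]
    exact Finset.sum_congr rfl fun t _ => e3 p t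
  have e6 : X.μ.N2 (fun x => ∑ p ∈ P, G p x) = ‖(X.μ.N2 (fun x => ∑ p ∈ P, G p x) : ℂ)‖ := by
    rw [Complex.norm_real, Real.norm_eq_abs, abs_of_nonneg (X.μ.N2_nonneg _ hGS)]
  rw [e6, e5]
  exact norm_sum_le _ _

theorem pow_sum_le' {ι : Type*} (s : Finset ι) (a : ι → ℝ) (h : ∀ i ∈ s, 0 ≤ a i) (n : ℕ)
    (hn : 1 ≤ n) : (∑ i ∈ s, a i) ^ n ≤ (s.card : ℝ) ^ (n - 1) * ∑ i ∈ s, a i ^ n := by
  obtain ⟨m, rfl⟩ : ∃ m, n = m + 1 := ⟨n - 1, by omega⟩
  rw [Nat.add_sub_cancel]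
  rcases s.eq_empty_or_nonempty with rfl | hs
  · simp
  · have hc : (0 : ℝ) < (s.card : ℝ) ^ m := by
      have : 0 < s.card := hs.card_pos
      positivity
    have h1 := pow_sum_div_card_le_sum_pow (s := s) (f := a) h m
    rw [div_le_iff₀ hc] at h1
    linarith

theorem elim (X : Sys) (P : Finset ℤ) (w : ℕ) (hP : ∀ p ∈ P, (w : ℤ) ≤ p ∧ p ≤ 2 * w)
    (L : List ((X.S → ℂ) × ℤ)) (hL : ∀ B ∈ L, ∀ x, ‖B.1 x‖ ≤ 1) (V : ℤ → X.S → ℂ)
    (hV : ∀ p x, ‖V p x‖ ≤ 1) (hV0 : ∀ p, p ∉ P → ∀ x, V p x = 0) :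
    ‖∑ p ∈ P, X.μ.E (fun x => gL X L p x * V p x)‖ ^ (2 ^ L.length) ≤
      ((2 * w + 1 : ℕ) : ℝ) ^ (2 ^ L.length - L.length - 1) * SV X P w (L.map Prod.snd) V := by
  generalize hd : L.length = d
  induction d generalizing L V with
  | zero =>
    rw [List.length_eq_zero_iff] at hd
    subst hd
    simp [SV, gL]
  | succ d ih =>
    match L, hd with
    | (A, c) :: L, hd =>
      have hd' : L.length = d := by simpa using hd
      have h1 := elim_one X P w hP A c L (hL (A, c) (by simp))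
        (fun B hB => hL B (List.mem_cons_of_mem _ hB)) V hV hV0
      set N0 : ℝ := ((2 * w + 1 : ℕ) : ℝ) with hN0
      have hN1 : (0 : ℝ) ≤ N0 := by positivity
      set S : ℤ → ℂ := fun t => ∑ p ∈ P, X.μ.E (fun x =>
        gL X (L.map (fun B => ((fun y => B.1 y *
          (starRingEnd ℂ) (B.1 ((X.T ^ (t * B.2 - t * c)) y))), B.2))) p x * dV X V c t p x) with hS
      have h2 : ∀ t, ‖S t‖ ^ (2 ^ d) ≤ N0 ^ (2 ^ d - d - 1) *
          SV X P w (L.map Prod.snd) (dV X V c t) := by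
        intro t
        have h3 := ih (L.map (fun B => ((fun y => B.1 y *
          (starRingEnd ℂ) (B.1 ((X.T ^ (t * B.2 - t * c)) y))), B.2))) ?_ (dV X V c t)
          (dV_norm X V hV c t) (fun p hp x => dV_zero X V P hV0 c t p hp x) (by simpa using hd')
        · have h4 : (L.map (fun B => ((fun y => B.1 y *
              (starRingEnd ℂ) (B.1 ((X.T ^ (t * B.2 - t * c)) y))), B.2))).map Prod.snd =
              L.map Prod.snd := by
            rw [List.map_map]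
            rfl
          rw [h4] at h3
          exact h3
        · intro B hB x
          rw [List.mem_map] at hB
          obtain ⟨B', hB', rfl⟩ := hB
          simp only [norm_mul, RCLike.norm_conj]
          exact mul_le_one₀ (hL B' (List.mem_cons_of_mem _ hB') _) (norm_nonneg _)
            (hL B' (List.mem_cons_of_mem _ hB') _)
      have h5 : d + 1 ≤ 2 ^ d := Nat.lt_two_pow_self
      calc ‖∑ p ∈ P, X.μ.E (fun x => gL X ((A, c) :: L) p x * V p x)‖ ^ (2 ^ (d + 1))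
          = (‖∑ p ∈ P, X.μ.E (fun x => gL X ((A, c) :: L) p x * V p x)‖ ^ 2) ^ (2 ^ d) := by
            rw [← pow_mul, pow_succ, mul_comm]
        _ ≤ (∑ t ∈ Icc (-(w : ℤ)) w, ‖S t‖) ^ (2 ^ d) :=
            pow_le_pow_left₀ (by positivity) h1 _
        _ ≤ ((Icc (-(w : ℤ)) w).card : ℝ) ^ (2 ^ d - 1) *
            ∑ t ∈ Icc (-(w : ℤ)) w, ‖S t‖ ^ (2 ^ d) :=
            pow_sum_le' _ _ (fun t _ => norm_nonneg _) _ (by omega)
        _ ≤ N0 ^ (2 ^ d - 1) * ∑ t ∈ Icc (-(w : ℤ)) w, N0 ^ (2 ^ d - d - 1) *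
              SV X P w (L.map Prod.snd) (dV X V c t) := by
            have hc : ((Icc (-(w : ℤ)) w).card : ℝ) = N0 := by
              rw [Int.card_Icc, hN0]
              congr 1
              omega
            rw [hc]
            exact mul_le_mul_of_nonneg_left (Finset.sum_le_sum fun t _ => h2 t) (by positivity)
        _ = N0 ^ (2 ^ (d + 1) - (d + 1) - 1) *
              SV X P w (((A, c) :: L).map Prod.snd) V := by
            rw [← Finset.mul_sum, ← mul_assoc, ← pow_add, List.map_cons]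
            have h6 : 2 ^ d - 1 + (2 ^ d - d - 1) = 2 ^ (d + 1) - (d + 1) - 1 := by
              rw [pow_succ]
              omega
            rw [h6]
            rfl

end DG.BLP
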