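import Pool.Agent.Helper53.DG.Defs

/-!
# DG-A208: the system of pairs

PROOFS.
* `pairT_zpow`: natural powers by induction, negative powers via the inverse (or prove that
  `n ↦ (fun z => ...)` is the zpow by `Int.induction_on`); `(X.T ^ p) ^ n = X.T ^ (n * p)`.
* `pair_inv`: `pairM.E f = (∑_{(p,p') ∈ P × P} E_x E_y f ((p,p'),(x,y))) / ..` (`Mean.prod_E`, `Mean.fin_E`). For
  fixed `p, p'`: `E_x E_y f (.., (T^p x, T^p' y)) = E_x E_y f (.., (T^p x, y))` (`inv_pow` in `y` for every `x`)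
  `= E_x E_y f (.., (x, y))` (`inv_pow` in `x` for the bounded function `x ↦ E_y f(.., (x, y))`).
* `box_pair`: induction on `l`. `[]`: `E_x E_y [g_p x conj g_p' y] = E g_p * conj (E g_p')` (`E_mul_const`,
  `E_const_mul`, `E_conj`), average over `P × P` is `|(1/|P|) ∑ E g_p|²` (`Complex.mul_conj`). `a :: l`: the
  difference of `z ↦ g_p x conj g_p' y` with step `a h` is, by `pairT_zpow`,
  `[g_p x conj g_p(T^(a h p) x)] * conj [g_p' y conj g_p'(T^(a h p') y)]`; induction hypothesis.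
* `cor_pair`: `E_x cor X k G (e p (c + q j)) x`: replace `x` by `T^(-k e p c) x` (`inv_zpow`): the `i`-th factor
  becomes `G i (T^((i-k) e p c + i e p q j) x)`. So the left side is
  `(1/|P|²) ∑_{p,p'} E_x E_y ∏_i G i (T^((i-k)epc + ie p q j) x) conj G i (T^((i-k)ep'c + i e p' q j) y)`, and
  `((powS X (e q)).T)^(i j p) = X.T^(e q i j p)`.
-/

set_option autoImplicit false

namespace DG.BLP

open Finset Filter Topology DG

private theorem pairT_npow (X : Sys) (n : ℕ) (z : (ℕ × ℕ) × (X.S × X.S)) :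
    ((pairT X) ^ n) z = (z.1, ((X.T ^ (n * z.1.1)) z.2.1, (X.T ^ (n * z.1.2)) z.2.2)) := by
  induction n with
  | zero => simp
  | succ n ih =>
    rw [pow_succ', Equiv.Perm.mul_apply, ih]
    change (z.1, ((X.T ^ z.1.1) ((X.T ^ (n * z.1.1)) z.2.1),
      (X.T ^ z.1.2) ((X.T ^ (n * z.1.2)) z.2.2))) = _
    rw [← Equiv.Perm.mul_apply, ← Equiv.Perm.mul_apply, ← pow_add, ← pow_add]
    have h1 : z.1.1 + n * z.1.1 = (n + 1) * z.1.1 := by ring
    have h2 : z.1.2 + n * z.1.2 = (n + 1) * z.1.2 := by ring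
    rw [h1, h2]

theorem pairT_zpow (X : Sys) (n : ℤ) (z : (ℕ × ℕ) × (X.S × X.S)) :
    ((pairT X) ^ n) z = (z.1, ((X.T ^ (n * (z.1.1 : ℤ))) z.2.1, (X.T ^ (n * (z.1.2 : ℤ))) z.2.2)) := by
  rcases Int.eq_nat_or_neg n with ⟨m, rfl | rfl⟩
  · rw [zpow_natCast, pairT_npow]
    have h : ∀ a : ℕ, X.T ^ ((m : ℤ) * (a : ℤ)) = X.T ^ (m * a) := by
      intro a
      rw [← zpow_natCast]
      congr 1
    rw [h, h]
  · rw [zpow_neg, zpow_natCast, Equiv.Perm.inv_eq_iff_eq, pairT_npow]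
    have h : ∀ (a : ℕ) (x : X.S),
        (X.T ^ (m * a)) ((X.T ^ (-(m : ℤ) * (a : ℤ))) x) = x := by
      intro a x
      rw [← zpow_natCast, ← Equiv.Perm.mul_apply, ← zpow_add]
      have h0 : ((m * a : ℕ) : ℤ) + -(m : ℤ) * (a : ℤ) = 0 := by
        push_cast
        ring
      rw [h0, zpow_zero, Equiv.Perm.one_apply]
    simp only [h]

private theorem pairM_E (X : Sys) (P : Finset ℕ) (hP : P.Nonempty)
    (f : (ℕ × ℕ) × (X.S × X.S) → ℂ) :
    (pairM X P hP).E f = (∑ a ∈ P, ∑ b ∈ P,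
      X.μ.E (fun x => X.μ.E (fun y => f ((a, b), (x, y))))) / (P.card : ℂ) ^ 2 := by
  unfold pairM
  rw [Mean.prod_E, Mean.fin_E, Finset.sum_product]
  congr 1
  · refine Finset.sum_congr rfl fun a _ => Finset.sum_congr rfl fun b _ => ?_
    rw [Complex.ofReal_one, one_mul, Mean.prod_E]
  · rw [Finset.sum_const, nsmul_eq_mul, mul_one, Finset.card_product]
    push_cast
    ring

theorem pair_inv (X : Sys) (P : Finset ℕ) (hP : P.Nonempty)
    (f : (ℕ × ℕ) × (X.S × X.S) → ℂ) (hf : Bd f) :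
    (pairM X P hP).E (fun z => f (pairT X z)) = (pairM X P hP).E f := by
  obtain ⟨C, hC⟩ := hf
  rw [pairM_E, pairM_E]
  congr 1
  refine Finset.sum_congr rfl fun a _ => Finset.sum_congr rfl fun b _ => ?_
  have h1 : ∀ x : X.S, X.μ.E (fun y => f (pairT X ((a, b), (x, y)))) =
      X.μ.E (fun y => f ((a, b), ((X.T ^ a) x, y))) := by
    intro x
    exact X.inv_pow b (fun y => f ((a, b), ((X.T ^ a) x, y))) ⟨C, fun y => hC _⟩
  simp only [h1]
  exact X.inv_pow a (fun x => X.μ.E (fun y => f ((a, b), (x, y))))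
    ⟨C, fun x => X.μ.norm_E_le _ fun y => hC _⟩

/-- The system of pairs. -/
noncomputable def pairS (X : Sys) (P : Finset ℕ) (hP : P.Nonempty) : Sys where
  S := (ℕ × ℕ) × (X.S × X.S)
  T := pairT X
  μ := pairM X P hP
  inv := pair_inv X P hP

private theorem pair_nil (X : Sys) (P : Finset ℕ) (hP : P.Nonempty) (g : ℕ → X.S → ℂ)
    (hg : ∀ p, Bd (g p)) :
    (pairM X P hP).E (fun z => g z.1.1 z.2.1 * (starRingEnd ℂ) (g z.1.2 z.2.2)) =
      ((‖(1 / (P.card : ℂ)) * ∑ p ∈ P, X.μ.E (g p)‖ ^ 2 : ℝ) : ℂ) := by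
  rw [pairM_E]
  have h1 : ∀ a b : ℕ, X.μ.E (fun x => X.μ.E (fun y => g a x * (starRingEnd ℂ) (g b y))) =
      X.μ.E (g a) * (starRingEnd ℂ) (X.μ.E (g b)) := by
    intro a b
    have h2 : ∀ x, X.μ.E (fun y => g a x * (starRingEnd ℂ) (g b y)) =
        g a x * (starRingEnd ℂ) (X.μ.E (g b)) := by
      intro x
      rw [X.μ.E_const_mul, X.μ.E_conj _ (hg b)]
    simp only [h2]
    exact X.μ.E_mul_const _ _
  simp only [h1]
  have h3 : ((‖(1 / (P.card : ℂ)) * ∑ p ∈ P, X.μ.E (g p)‖ ^ 2 : ℝ) : ℂ) =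
      ((1 / (P.card : ℂ)) * ∑ p ∈ P, X.μ.E (g p)) *
        (starRingEnd ℂ) ((1 / (P.card : ℂ)) * ∑ p ∈ P, X.μ.E (g p)) := by
    rw [Complex.mul_conj, Complex.normSq_eq_norm_sq]
  rw [h3, map_mul, map_sum, map_div₀, map_one, map_natCast]
  rw [← Finset.sum_mul_sum]
  ring

theorem box_pair (X : Sys) (P : Finset ℕ) (hP : P.Nonempty) (l : List ℤ) (g : ℕ → X.S → ℂ)
    (hg : ∀ p, Bd (g p)) :
    box (pairS X P hP) l (fun z => g z.1.1 z.2.1 * (starRingEnd ℂ) (g z.1.2 z.2.2)) =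
      qbox X P l g := by
  induction l generalizing g with
  | nil => exact pair_nil X P hP g hg
  | cons a l ih =>
    rw [box, qbox]
    congr 1
    funext h
    rw [← ih (fun p x => g p x * (starRingEnd ℂ) (g p ((X.T ^ (a * h * (p : ℤ))) x)))
      (fun p => (hg p).mul ((hg p).comp _).conj)]
    congr 1
    funext z
    have e : ((pairS X P hP).T ^ (a * h)) z =
        (z.1, ((X.T ^ (a * h * (z.1.1 : ℤ))) z.2.1, (X.T ^ (a * h * (z.1.2 : ℤ))) z.2.2)) :=
      pairT_zpow X (a * h) z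
    rw [e]
    simp only [map_mul, Complex.conj_conj]
    ring

/-- The functions of the system of pairs: at `i = k` this is `G k x * conj (G k y)`. -/
noncomputable def FF (X : Sys) (e : ℕ) (c : ℤ) (k : ℕ) (G : ℕ → X.S → ℂ) (i : ℕ)
    (z : (ℕ × ℕ) × (X.S × X.S)) : ℂ :=
  G i ((X.T ^ (((i : ℤ) - k) * (e * z.1.1 * c))) z.2.1) *
    (starRingEnd ℂ) (G i ((X.T ^ (((i : ℤ) - k) * (e * z.1.2 * c))) z.2.2))

theorem cor_pair (X : Sys) (P : Finset ℕ) (hP : P.Nonempty) (e q : ℕ) (c j : ℤ) (k : ℕ)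
    (G : ℕ → X.S → ℂ) (hG : ∀ i x, ‖G i x‖ ≤ 1) :
    ((‖(1 / (P.card : ℂ)) * ∑ p ∈ P, X.μ.E (cor X k G ((e * p : ℤ) * (c + q * j)))‖ ^ 2 : ℝ) : ℂ) =
      (pairS (powS X (e * q)) P hP).μ.E
        (cor (pairS (powS X (e * q)) P hP) k (FF X e c k G) j) := by
  classical
  set g : ℕ → X.S → ℂ := fun p x => ∏ i ∈ range (k + 1),
    G i ((X.T ^ (((i : ℤ) - k) * (e * p * c) + (e * q : ℕ) * ((i : ℤ) * j * p))) x) with hgdef
  have hg1 : ∀ p x, ‖g p x‖ ≤ 1 := fun p x =>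
    prod_norm_le_one _ _ fun i _ => hG _ _
  have hg : ∀ p, Bd (g p) := fun p => ⟨1, hg1 p⟩
  have hcor : ∀ p : ℕ, X.μ.E (cor X k G ((e * p : ℤ) * (c + q * j))) = X.μ.E (g p) := by
    intro p
    have hb : Bd (cor X k G ((e * p : ℤ) * (c + q * j))) :=
      ⟨1, fun x => prod_norm_le_one _ _ fun i _ => hG _ _⟩
    rw [← X.inv_zpow (-((k : ℤ) * (e * p * c))) _ hb]
    congr 1
    funext x
    unfold cor
    rw [hgdef]
    refine Finset.prod_congr rfl fun i _ => ?_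
    rw [← Equiv.Perm.mul_apply, ← zpow_add]
    congr 3
    push_cast
    ring
  simp only [hcor]
  have h1 := pair_nil (powS X (e * q)) P hP g hg
  refine Eq.trans ?_ (h1.symm.trans ?_)
  · rfl
  · change (pairM (powS X (e * q)) P hP).E _ = (pairM (powS X (e * q)) P hP).E _
    congr 1
    funext z
    unfold cor
    rw [hgdef]
    simp only [map_prod]
    rw [← Finset.prod_mul_distrib]
    refine Finset.prod_congr rfl fun i _ => ?_
    have h2 : ((pairS (powS X (e * q)) P hP).T ^ ((i : ℤ) * j)) z =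
        (z.1, (((powS X (e * q)).T ^ ((i : ℤ) * j * (z.1.1 : ℤ))) z.2.1,
          ((powS X (e * q)).T ^ ((i : ℤ) * j * (z.1.2 : ℤ))) z.2.2)) :=
      pairT_zpow (powS X (e * q)) ((i : ℤ) * j) z
    rw [h2]
    unfold FF
    have h3 : ∀ (n : ℤ) (x : X.S), ((powS X (e * q)).T ^ n) x =
        (X.T ^ (((e * q : ℕ) : ℤ) * n)) x := by
      intro n x
      change ((X.T ^ (e * q)) ^ n) x = _
      rw [← zpow_natCast, ← zpow_mul]
    simp only
    have h4 : ∀ (a n : ℤ) (x : X.S), (X.T ^ a) (((powS X (e * q)).T ^ n) x) =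
        (X.T ^ (a + ((e * q : ℕ) : ℤ) * n)) x := by
      intro a n x
      rw [h3, ← Equiv.Perm.mul_apply, ← zpow_add]
    exact congrArg₂ (fun u v : ℂ => u * v) (congrArg (G i) (h4 _ _ _).symm)
      (congrArg (fun w => (starRingEnd ℂ) (G i w)) (h4 _ _ _).symm)

end DG.BLP
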