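import Pool.Agent.Helper53.DG.Step
import Pool.Agent.Helper53.DG.BoxPd

/-!
# DG-A214: the bound for `qbox`

PROOF of `qbox_le`, induction on `l` (for all `L`).
`l = []`: `qbox X P [1] (gL L) = cz.E (h ↦ ‖Γ h‖²)` (`1 * h * p = h * p`), `step`; and
`cz.E (j ↦ Γ (n1 j)) = (1/|P|) ∑_p box X [n1 p] (gL L p)` (`E_const_mul`, `E_sum`; `T^(n1 j p)`, `T^((n1 p) j)`).
`a :: l`: `qbox X P (a :: (l ++ [1])) (gL L) = cz.E (h ↦ qbox X P (l ++ [1]) (p ↦ gL L p * conj (gL L p ∘ T^(a h p))))` and
`gL L p x * conj (gL L p (T^(a h p) x)) = gL L_h p x` with `L_h = L ++ L.map (A, c) ↦ (conj A, c + a h)`: length `2 R`, functions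
bounded by `1`. Induction hypothesis for `L_h` (`2R · 2^|l| = R · 2^(|l|+1)`, same `n1`), for every `h`; take the mean
over `h` (`Mean.R_mono`, `re_E`; everything is bounded): `cz.E (h ↦ (box X (.. ) (gL L_h p)))` is
`box X ((a p) :: ..) (gL L p)` (`T^((a p) h)`).
`qbox_steps`: `steps k = l ++ [1]` with `l = [k, ..., 2]` (`k ≥ 1`), `L = [(g, 0)]` (`gL X [(g,0)] p = g`): so
`(qbox X P (steps k) (fun _ => g)).re ≤ 8 tau (2^(k-1)) w P + 8 (1/|P|) ∑_p (box X ([k p, ..., 2 p] ++ [n1 p]) g).re`, and for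
`r = k! * n1 * p` (`p ≥ 1`) every entry divides `r`: `box_mono` gives `≤ (box X (List.replicate k r) g).re ≤ β`.
-/

set_option autoImplicit false

namespace DG.BLP

open Finset Filter Topology DG

private theorem qb_bd (X : Sys) (P : Finset ℕ) (l : List ℤ) (g : ℕ → X.S → ℂ)
    (hg : ∀ p x, ‖g p x‖ ≤ 1) : ‖qbox X P l g‖ ≤ 1 := by
  induction l generalizing g with
  | nil =>
    rw [qbox, Complex.norm_real, Real.norm_eq_abs, abs_of_nonneg (by positivity)]
    have h1 : ‖(1 / (P.card : ℂ)) * ∑ p ∈ P, X.μ.E (g p)‖ ≤ 1 := by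
      have h2 : ‖∑ p ∈ P, X.μ.E (g p)‖ ≤ P.card := by
        refine (norm_sum_le _ _).trans ?_
        refine (sum_le_sum fun p _ => X.μ.norm_E_le (g p) (hg p)).trans ?_
        simp
      rw [norm_mul, norm_div, norm_one, Complex.norm_natCast, one_div]
      rcases Nat.eq_zero_or_pos P.card with h0 | h0
      · rw [h0]
        simp
      · have h3 : (0 : ℝ) < P.card := by exact_mod_cast h0
        rw [inv_mul_le_iff₀ h3, mul_one]
        exact h2
    exact pow_le_one₀ (norm_nonneg _) h1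
  | cons a l ih =>
    rw [qbox]
    refine cz.norm_E_le _ fun h => ih _ fun p x => ?_
    rw [norm_mul, RCLike.norm_conj]
    exact mul_le_one₀ (hg p x) (norm_nonneg _) (hg p _)

/-- the list after one difference -/
private def lst {X : Sys} (L : List ((X.S → ℂ) × ℤ)) (c : ℤ) : List ((X.S → ℂ) × ℤ) :=
  L ++ L.map (fun A => (fun x => (starRingEnd ℂ) (A.1 x), A.2 + c))

private theorem lst_len {X : Sys} (L : List ((X.S → ℂ) × ℤ)) (c : ℤ) :
    (lst L c).length = L.length + L.length := by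
  unfold lst
  simp

private theorem lst_bd {X : Sys} {L : List ((X.S → ℂ) × ℤ)} (hL : ∀ B ∈ L, ∀ x, ‖B.1 x‖ ≤ 1)
    (c : ℤ) : ∀ B ∈ lst L c, ∀ x, ‖B.1 x‖ ≤ 1 := by
  intro B hB x
  unfold lst at hB
  rcases List.mem_append.1 hB with h | h
  · exact hL B h x
  · obtain ⟨A, hA, rfl⟩ := List.mem_map.1 h
    change ‖(starRingEnd ℂ) (A.1 x)‖ ≤ 1
    rw [RCLike.norm_conj]
    exact hL A hA x

private theorem gL_lst (X : Sys) (L : List ((X.S → ℂ) × ℤ)) (c p : ℤ) (x : X.S) :
    gL X (lst L c) p x = gL X L p x * (starRingEnd ℂ) (gL X L p ((X.T ^ (c * p)) x)) := by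
  unfold gL lst
  rw [List.map_append, List.prod_append, List.map_map]
  congr 1
  induction L with
  | nil => simp
  | cons A L ih =>
    rw [List.map_cons, List.prod_cons, List.map_cons, List.prod_cons, map_mul, ih]
    congr 1
    change (starRingEnd ℂ) (A.1 ((X.T ^ (p * (A.2 + c))) x)) =
      (starRingEnd ℂ) (A.1 ((X.T ^ (p * A.2)) ((X.T ^ (c * p)) x)))
    have e : p * (A.2 + c) = p * A.2 + c * p := by ring
    rw [e, zpow_add, Equiv.Perm.mul_apply]

private theorem re_avg (P : Finset ℕ) (z : ℕ → ℂ) :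
    ((1 / (P.card : ℂ)) * ∑ p ∈ P, z p).re = (1 / (P.card : ℝ)) * ∑ p ∈ P, (z p).re := by
  have h : (1 / (P.card : ℂ)) = ((1 / (P.card : ℝ) : ℝ) : ℂ) := by push_cast; rfl
  rw [h, Complex.re_ofReal_mul, Complex.re_sum]

theorem qbox_le (X : Sys) (w : ℕ) (hw : 1 ≤ w) (P : Finset ℕ) (hPn : P.Nonempty)
    (hP : ∀ p ∈ P, w ≤ p ∧ p ≤ 2 * w) (l : List ℤ) (L : List ((X.S → ℂ) × ℤ))
    (hL : ∀ B ∈ L, ∀ x, ‖B.1 x‖ ≤ 1) (hL1 : 1 ≤ L.length) :
    (qbox X P (l ++ [1]) (fun p => gL X L p)).re ≤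
      8 * tau (L.length * 2 ^ l.length) w P +
        8 * ((1 / (P.card : ℝ)) * ∑ p ∈ P, (box X (l.map (fun a => a * (p : ℤ)) ++
          [(n1 (L.length * 2 ^ l.length) w : ℤ) * (p : ℤ)]) (gL X L p)).re) := by
  induction l generalizing L with
  | nil =>
    have h0 : L.length * 2 ^ ([] : List ℤ).length = L.length := by simp
    rw [h0]
    have h1 := step X w hw P hPn hP L hL hL1
    have h2 : qbox X P ([] ++ [1]) (fun p => gL X L p) =
        cz.E (fun j => ((‖Gam X P (fun p => gL X L p) j‖ ^ 2 : ℝ) : ℂ)) := by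
      rw [List.nil_append, qbox]
      congr 1
      funext h
      rw [qbox]
      unfold Gam
      simp only [one_mul]
    have h3 : (cz.E (fun j => Gam X P (fun p => gL X L p) ((n1 L.length w : ℤ) * j))).re =
        (1 / (P.card : ℝ)) * ∑ p ∈ P, (box X (([] : List ℤ).map (fun a => a * (p : ℤ)) ++
          [(n1 L.length w : ℤ) * (p : ℤ)]) (gL X L p)).re := by
      have h4 : cz.E (fun j => Gam X P (fun p => gL X L p) ((n1 L.length w : ℤ) * j)) =
          (1 / (P.card : ℂ)) * ∑ p ∈ P, box X (([] : List ℤ).map (fun a => a * (p : ℤ)) ++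
            [(n1 L.length w : ℤ) * (p : ℤ)]) (gL X L p) := by
        unfold Gam
        rw [cz.E_const_mul, cz.E_sum]
        congr 1
        refine sum_congr rfl fun p _ => ?_
        rw [List.map_nil, List.nil_append, box]
        congr 1
        funext j
        rw [box, mul_right_comm]
      rw [h4, re_avg]
    rw [h2, ← h3]
    exact h1
  | cons a l ih =>
    have hlen : ∀ c : ℤ, (lst L c).length * 2 ^ l.length =
        L.length * 2 ^ (a :: l).length := by
      intro c
      rw [lst_len, List.length_cons, pow_succ]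
      ring
    set n := L.length * 2 ^ (a :: l).length with hn
    have h1 : ∀ h : ℤ, (qbox X P (l ++ [1]) (fun p => gL X (lst L (a * h)) p)).re ≤
        8 * tau n w P + 8 * ((1 / (P.card : ℝ)) * ∑ p ∈ P, (box X (l.map (fun a => a * (p : ℤ)) ++
          [(n1 n w : ℤ) * (p : ℤ)]) (gL X (lst L (a * h)) p)).re) := by
      intro h
      have h2 := ih (lst L (a * h)) (lst_bd hL _) (by rw [lst_len]; omega)
      rw [hlen (a * h)] at h2
      exact h2
    have hq : qbox X P (a :: l ++ [1]) (fun p => gL X L p) =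
        cz.E (fun h => qbox X P (l ++ [1]) (fun p => gL X (lst L (a * h)) p)) := by
      rw [List.cons_append, qbox]
      congr 1
      funext h
      congr 1
      funext p x
      rw [gL_lst]
    have hb : ∀ p : ℕ, box X ((a :: l).map (fun a => a * (p : ℤ)) ++ [(n1 n w : ℤ) * (p : ℤ)])
        (gL X L p) = cz.E (fun h => box X (l.map (fun a => a * (p : ℤ)) ++
          [(n1 n w : ℤ) * (p : ℤ)]) (gL X (lst L (a * h)) p)) := by
      intro p
      rw [List.map_cons, List.cons_append, box]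
      congr 1
      funext h
      congr 1
      funext x
      rw [gL_lst, mul_right_comm]
    have hbd : ∀ (p : ℕ) (h : ℤ), ‖box X (l.map (fun a => a * (p : ℤ)) ++
        [(n1 n w : ℤ) * (p : ℤ)]) (gL X (lst L (a * h)) p)‖ ≤ 1 :=
      fun p h => box_bd X _ _ (fun x => gL_norm X _ (lst_bd hL _) _ x)
    have hqd : ∀ h : ℤ, ‖qbox X P (l ++ [1]) (fun p => gL X (lst L (a * h)) p)‖ ≤ 1 :=
      fun h => qb_bd X P _ _ (fun p x => gL_norm X _ (lst_bd hL _) _ x)
    have hbr : ∀ p : ℕ, (box X ((a :: l).map (fun a => a * (p : ℤ)) ++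
        [(n1 n w : ℤ) * (p : ℤ)]) (gL X L p)).re = cz.R (fun h => (box X (l.map
          (fun a => a * (p : ℤ)) ++ [(n1 n w : ℤ) * (p : ℤ)]) (gL X (lst L (a * h)) p)).re) := by
      intro p
      rw [hb p, cz.re_E _ ⟨1, hbd p⟩]
    rw [hq, cz.re_E _ ⟨1, hqd⟩]
    simp only [hbr]
    rw [← cz.R_sum, ← cz.R_const_mul, ← cz.R_const_mul, ← cz.R_const (8 * tau n w P), ← cz.R_add]
    have hS : ∀ h : ℤ, |∑ p ∈ P, (box X (l.map (fun a => a * (p : ℤ)) ++
        [(n1 n w : ℤ) * (p : ℤ)]) (gL X (lst L (a * h)) p)).re| ≤ P.card := by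
      intro h
      refine (abs_sum_le_sum_abs _ _).trans ?_
      refine (sum_le_sum fun p _ => (Complex.abs_re_le_norm _).trans (hbd p h)).trans ?_
      simp
    refine cz.R_mono _ _ h1 (C := max 1 (|8 * tau n w P| + 8 * ((1 / (P.card : ℝ)) * P.card)))
      (fun h => ?_) (fun h => ?_)
    · exact ((Complex.abs_re_le_norm _).trans (hqd h)).trans (le_max_left _ _)
    · refine le_trans ?_ (le_max_right _ _)
      refine (abs_add_le _ _).trans (add_le_add le_rfl ?_)
      rw [abs_mul, abs_mul, abs_of_nonneg (by norm_num : (0 : ℝ) ≤ 8),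
        abs_of_nonneg (by positivity : (0 : ℝ) ≤ 1 / (P.card : ℝ))]
      exact mul_le_mul_of_nonneg_left (mul_le_mul_of_nonneg_left (hS h) (by positivity))
        (by norm_num)

private theorem steps_eq (k : ℕ) : steps (k + 1) = (steps k).map (fun a => a + 1) ++ [1] := by
  induction k with
  | zero => simp [steps]
  | succ k ih =>
    have h1 : steps (k + 1 + 1) = (((k + 1 : ℕ) : ℤ) + 1) :: steps (k + 1) := rfl
    have h2 : steps (k + 1) = ((k : ℤ) + 1) :: steps k := rfl
    rw [h1]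
    conv_lhs => rw [ih]
    rw [h2, List.map_cons, List.cons_append]
    push_cast
    rfl

private theorem mem_steps {k : ℕ} {a : ℤ} (h : a ∈ steps k) : ∃ j : ℕ, 1 ≤ j ∧ j ≤ k ∧ a = j := by
  induction k with
  | zero => simp [steps] at h
  | succ k ih =>
    rw [steps, List.mem_cons] at h
    rcases h with h | h
    · exact ⟨k + 1, by omega, le_rfl, by rw [h]; push_cast; ring⟩
    · obtain ⟨j, h1, h2, h3⟩ := ih h
      exact ⟨j, h1, by omega, h3⟩

private theorem steps_len (k : ℕ) : (steps k).length = k := by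
  induction k with
  | zero => rfl
  | succ k ih => rw [steps, List.length_cons, ih]

private theorem forall2_rep {R : ℤ → ℤ → Prop} {r : ℤ} (l : List ℤ) (h : ∀ a ∈ l, R a r) :
    List.Forall₂ R l (List.replicate l.length r) := by
  induction l with
  | nil => exact List.Forall₂.nil
  | cons a l ih =>
    rw [List.length_cons, List.replicate_succ]
    exact List.Forall₂.cons (h a List.mem_cons_self) (ih fun b hb => h b (List.mem_cons_of_mem _ hb))

theorem qbox_steps (X : Sys) (w : ℕ) (hw : 1 ≤ w) (P : Finset ℕ) (hPn : P.Nonempty)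
    (hP : ∀ p ∈ P, w ≤ p ∧ p ≤ 2 * w) (k : ℕ) (hk : 1 ≤ k) (g : X.S → ℂ)
    (hg : ∀ x, ‖g x‖ ≤ 1) (β : ℝ)
    (hβ : ∀ r : ℕ, 0 < r → (box X (List.replicate k (r : ℤ)) g).re ≤ β) :
    (qbox X P (steps k) (fun _ => g)).re ≤ 8 * tau (2 ^ (k - 1)) w P + 8 * β := by
  obtain ⟨k, rfl⟩ : ∃ j, k = j + 1 := ⟨k - 1, by omega⟩
  have hgL : ∀ p : ℤ, gL X [(g, 0)] p = g := by
    intro p
    funext x
    unfold gL
    simp
  have h1 := qbox_le X w hw P hPn hP ((steps k).map (fun a => a + 1)) [(g, 0)]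
    (fun B hB x => by rw [List.mem_singleton] at hB; rw [hB]; exact hg x) (by simp)
  rw [← steps_eq] at h1
  simp only [hgL, List.length_map, steps_len, List.length_cons, List.length_nil, zero_add,
    one_mul] at h1
  rw [Nat.add_sub_cancel]
  refine h1.trans (add_le_add le_rfl (mul_le_mul_of_nonneg_left ?_ (by norm_num)))
  have hc : (0 : ℝ) < P.card := by exact_mod_cast hPn.card_pos
  rw [one_div, inv_mul_le_iff₀ hc]
  have h2 : ∀ p ∈ P, (box X (((steps k).map (fun a => a + 1)).map (fun a => a * (p : ℤ)) ++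
      [(n1 (2 ^ k) w : ℤ) * (p : ℤ)]) g).re ≤ β := by
    intro p hp
    have hp1 : 1 ≤ p := hw.trans (hP p hp).1
    have hn := n1_pos (2 ^ k) w
    have hr : 0 < (k + 1).factorial * n1 (2 ^ k) w * p :=
      Nat.mul_pos (Nat.mul_pos (Nat.factorial_pos _) hn) hp1
    refine le_trans ?_ (hβ _ hr)
    refine box_mono X _ _ ?_ g hg
    have hlen : (((steps k).map (fun a => a + 1)).map (fun a => a * (p : ℤ)) ++
      [(n1 (2 ^ k) w : ℤ) * (p : ℤ)]).length = k + 1 := by
      simp [steps_len]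
    rw [← hlen]
    refine forall2_rep _ fun a ha => ?_
    rw [hlen]
    rcases List.mem_append.1 ha with h | h
    · obtain ⟨b, hb, rfl⟩ := List.mem_map.1 h
      obtain ⟨c, hc, rfl⟩ := List.mem_map.1 hb
      obtain ⟨j, hj1, hj2, rfl⟩ := mem_steps hc
      obtain ⟨d, hd⟩ : (j + 1) ∣ (k + 1).factorial :=
        Nat.dvd_factorial (by omega) (by omega)
      have hd0 : 0 < d := by
        rcases Nat.eq_zero_or_pos d with h0 | h0
        · rw [h0, mul_zero] at hd
          exact absurd hd (Nat.factorial_pos _).ne'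
        · exact h0
      refine ⟨d * n1 (2 ^ k) w, Nat.mul_pos hd0 hn, ?_⟩
      rw [hd]
      push_cast
      ring
    · rw [List.mem_singleton] at h
      refine ⟨(k + 1).factorial, Nat.factorial_pos _, ?_⟩
      rw [h]
      push_cast
      ring
  calc _ ≤ ∑ p ∈ P, β := sum_le_sum h2
    _ = (P.card : ℝ) * β := by rw [sum_const, nsmul_eq_mul]

end DG.BLP
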