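import Pool.Agent.Helper53.DG.VdcK
import Pool.Agent.Helper53.DG.Pair
import Pool.Agent.Helper53.DG.QboxLe

/-!
# DG-A215: `BL k`

PROOF. `C = 48`. Fix the data and suppose the conclusion fails for some `η > 0`: for every `n : ℕ` there are `M_n ≥ n + 1`,
`t_n`, `G_n` (bounded by `1`, `G_n k = g`) with `((1/M_n) ∑_{j<M_n} a_n(j))^(2^k) > C (..) + η`, where
`a_n(j) = ‖(1/|P|) ∑_p E cor X k (G_n) (e p (1 + q (t_n + j)))‖²`. By `cor_pair` with `c = 1 + q t_n`: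
`a_n(j) = E (cor Z k (FF X e c_n k (G_n)) j)`, `Z = pairS (powS X (e q)) P`. Let
`M = ulim (hyperfilter ℕ) (fun n => Mean.fin (range (M_n)) 1 (j ↦ (n, (j : ℤ))))`, a mean on `ℕ × ℤ`; `MInv M`: for `f` bounded by
`C'` the two averages over `j < M_n` differ by `≤ 2 C' / M_n → 0`. `vdcK M Z k (F i n = FF X e c_n k (G_n) i)`: at `i = k` it is
`z ↦ g x * conj (g y)` for all `n` (`((k:ℤ) - k) * _ = 0`, `T^0 = 1`), bounded by `1`. So
`‖M.E (z ↦ E cor ..)‖^(2^k) ≤ (box Z (steps k) (g ⊗ conj g)).re = (qbox (powS X (e q)) P (steps k) (fun _ => g)).re` (`box_pair`)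
`≤ 8 tau (2^(k-1)) w P + 8 β` (`qbox_steps` for the system `powS X (e q)`: by `box_powS` its boxes with steps
`replicate k r` are those of `X` with steps `replicate k (e q r)`, `≤ β`). On the other hand
`M.E (z ↦ E cor ..) = lim (1/M_n) ∑_{j<M_n} a_n(j)` along the hyperfilter (`ulim_tendsto`), so its norm to the power `2^k` is
`≥ C (..) + η`. Contradiction: `8 tau = 48 (w/|P|) w^(-1/2^(2^(k-1)))`, and `β ≥ 0` (`box_nonneg`, `k ≥ 1`) so `8 β ≤ 48 β`.
-/

set_option autoImplicit false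

namespace DG.BLP

open Finset Filter Topology DG

private theorem fin_shift {M n : ℕ} (hM : 0 < M)
    (hs : 0 < ∑ _j ∈ range M, (1 : ℝ)) (f : ℕ × ℤ → ℂ) {B : ℝ} (hB : ∀ z, ‖f z‖ ≤ B) :
    ‖(Mean.fin (range M) (fun _ => 1) (fun j : ℕ => ((n, (j : ℤ)) : ℕ × ℤ))
        (fun _ _ => zero_le_one) hs).E (fun z => f (z.1, z.2 + 1)) -
      (Mean.fin (range M) (fun _ => 1) (fun j : ℕ => ((n, (j : ℤ)) : ℕ × ℤ))
        (fun _ _ => zero_le_one) hs).E f‖ ≤ 2 * B / M := by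
  have hM0 : (0 : ℝ) < M := by exact_mod_cast hM
  rw [Mean.fin_E, Mean.fin_E, ← sub_div, ← Finset.sum_sub_distrib]
  have h1 : ∑ j ∈ range M, (((1 : ℝ) : ℂ) * f (((n, (j : ℤ)) : ℕ × ℤ).1, ((n, (j : ℤ)) : ℕ × ℤ).2 + 1) -
      ((1 : ℝ) : ℂ) * f (n, (j : ℤ))) = f (n, (M : ℤ)) - f (n, 0) := by
    have h2 := Finset.sum_range_sub (fun j : ℕ => f (n, (j : ℤ))) M
    rw [Nat.cast_zero] at h2
    rw [← h2]
    refine Finset.sum_congr rfl fun j _ => ?_
    push_cast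
    ring
  rw [h1, norm_div]
  have h3 : ‖((∑ _j ∈ range M, (1 : ℝ) : ℝ) : ℂ)‖ = M := by
    rw [Complex.norm_real, Finset.sum_const, Finset.card_range, nsmul_eq_mul, mul_one,
      Real.norm_of_nonneg hM0.le]
  rw [h3]
  refine div_le_div_of_nonneg_right ?_ hM0.le
  calc ‖f (n, (M : ℤ)) - f (n, 0)‖ ≤ ‖f (n, (M : ℤ))‖ + ‖f (n, 0)‖ := norm_sub_le _ _
    _ ≤ B + B := add_le_add (hB _) (hB _)
    _ = 2 * B := by ring

theorem bl (k : ℕ) (hk : 1 ≤ k) : BL k := by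
  refine ⟨48, by norm_num, ?_⟩
  intro w P hw hPn hP e q he hq X g hg β hβ η hη
  by_contra hcon
  push Not at hcon
  choose M hM t G hG hGk hlt using fun n : ℕ => hcon (n + 1)
  have hM0 : ∀ n, 0 < M n := fun n => lt_of_lt_of_le (Nat.succ_pos n) (hM n)
  have hs : ∀ n, 0 < ∑ _j ∈ range (M n), (1 : ℝ) := by
    intro n
    have h1 : (0 : ℝ) < M n := by exact_mod_cast hM0 n
    simpa using h1
  set μn : ℕ → Mean (ℕ × ℤ) := fun n => Mean.fin (range (M n)) (fun _ => 1)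
    (fun j : ℕ => ((n, (j : ℤ)) : ℕ × ℤ)) (fun _ _ => zero_le_one) (hs n) with hμn
  set MU : Mean (ℕ × ℤ) := ulim (hyperfilter ℕ) μn with hMU
  have hinv : MInv MU := by
    intro f hf
    have h1 := ulim_tendsto (hyperfilter ℕ) μn (fun z => f (z.1, z.2 + 1))
      (hf.comp (fun z : ℕ × ℤ => (z.1, z.2 + 1)))
    have h2 := ulim_tendsto (hyperfilter ℕ) μn f hf
    obtain ⟨B, hB⟩ := hf
    have hB0 : 0 ≤ B := (norm_nonneg _).trans (hB (0, 0))
    have h3 : Tendsto (fun n => (μn n).E (fun z => f (z.1, z.2 + 1)) - (μn n).E f)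
        (hyperfilter ℕ : Filter ℕ) (𝓝 0) := by
      have h4 : Tendsto (fun n : ℕ => 2 * B / ((n : ℝ) + 1)) atTop (𝓝 0) := by
        have h5 := (tendsto_one_div_add_atTop_nhds_zero_nat (𝕜 := ℝ)).const_mul (2 * B)
        rw [mul_zero] at h5
        refine h5.congr fun n => ?_
        ring
      refine squeeze_zero_norm (fun n => ?_) (h4.mono_left Nat.hyperfilter_le_atTop)
      refine (fin_shift (hM0 n) (hs n) f hB).trans ?_
      have h6 : ((n : ℝ) + 1) ≤ M n := by exact_mod_cast hM n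
      exact div_le_div_of_nonneg_left (by positivity) (by positivity) h6
    have h7 := tendsto_nhds_unique (h1.sub h2) h3
    exact sub_eq_zero.1 h7
  set Z : Sys := pairS (powS X (e * q)) P hPn with hZ
  set F : ℕ → ℕ → Z.S → ℂ := fun i n => FF X e (1 + q * t n) k (G n) i with hF
  have hF1 : ∀ i n x, ‖F i n x‖ ≤ 1 := by
    intro i n x
    simp only [hF]
    unfold FF
    rw [norm_mul, RCLike.norm_conj]
    exact mul_le_one₀ (hG n _ _) (norm_nonneg _) (hG n _ _)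
  have hFk : ∀ n, F k n = fun z : (ℕ × ℕ) × (X.S × X.S) => g z.2.1 * (starRingEnd ℂ) (g z.2.2) := by
    intro n
    funext z
    simp only [hF]
    unfold FF
    rw [sub_self, zero_mul, zero_mul, zpow_zero, hGk n]
    rfl
  have hv := vdcK MU hinv Z k hk F hF1 _ hFk
  have hbox : box Z (steps k) (fun z : (ℕ × ℕ) × (X.S × X.S) => g z.2.1 * (starRingEnd ℂ) (g z.2.2)) =
      qbox (powS X (e * q)) P (steps k) (fun _ => g) :=
    box_pair (powS X (e * q)) P hPn (steps k) (fun _ => g) (fun _ => ⟨1, hg⟩)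
  rw [hbox] at hv
  have hq8 := qbox_steps (powS X (e * q)) w hw P hPn (fun p hp => (hP p hp).2) k hk g hg β (by
    intro r hr
    rw [box_powS]
    have h1 : (List.replicate k (r : ℤ)).map (fun a => ((e * q : ℕ) : ℤ) * a) =
        List.replicate k ((e * q * r : ℕ) : ℤ) := by
      rw [List.map_replicate]
      push_cast
      rfl
    rw [h1]
    exact hβ _ (Nat.mul_pos (Nat.mul_pos he hq) hr))
  have hβ0 : 0 ≤ β := by
    obtain ⟨k', rfl⟩ : ∃ k', k = k' + 1 := ⟨k - 1, by omega⟩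
    have h1 := hβ 1 one_pos
    rw [List.replicate_succ] at h1
    exact (box_nonneg X _ _ g hg).1.trans h1
  -- the limit
  have hbd : Bd (fun z : ℕ × ℤ => Z.μ.E (cor Z k (fun i => F i z.1) z.2)) := by
    refine ⟨1, fun z => Z.μ.norm_E_le _ fun x => ?_⟩
    unfold cor
    exact prod_norm_le_one _ _ fun i _ => hF1 _ _ _
  have hlim := ulim_tendsto (hyperfilter ℕ) μn _ hbd
  have hval : ∀ n, (μn n).E (fun z : ℕ × ℤ => Z.μ.E (cor Z k (fun i => F i z.1) z.2)) =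
      (((1 / (M n : ℝ)) * ∑ j ∈ range (M n), ‖(1 / (P.card : ℂ)) * ∑ p ∈ P,
        X.μ.E (cor X k (G n) ((e * p : ℤ) * (1 + q * (t n + j))))‖ ^ 2 : ℝ) : ℂ) := by
    intro n
    simp only [hμn]
    rw [Mean.fin_E]
    have h1 : ∀ j ∈ range (M n), ((1 : ℝ) : ℂ) * Z.μ.E (cor Z k (fun i => F i ((n, (j : ℤ)) : ℕ × ℤ).1)
        ((n, (j : ℤ)) : ℕ × ℤ).2) = ((‖(1 / (P.card : ℂ)) * ∑ p ∈ P,
        X.μ.E (cor X k (G n) ((e * p : ℤ) * (1 + q * (t n + j))))‖ ^ 2 : ℝ) : ℂ) := by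
      intro j _
      rw [Complex.ofReal_one, one_mul]
      have h2 := cor_pair X P hPn e q (1 + q * t n) j k (G n) (hG n)
      have h3 : ∀ p : ℕ, ((e * p : ℤ) * (1 + q * (t n + j))) =
          ((e * p : ℤ) * ((1 + q * t n) + q * j)) := fun p => by ring
      simp only [h3]
      exact h2.symm
    rw [Finset.sum_congr rfl h1]
    have h4 : (∑ _j ∈ range (M n), (1 : ℝ)) = (M n : ℝ) := by simp
    rw [h4]
    push_cast
    rw [div_eq_mul_inv, mul_comm, one_div, one_div]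
  have hge : 48 * ((w : ℝ) / P.card * (w : ℝ) ^ (-(1 / 2 ^ (2 ^ (k - 1)) : ℝ)) + β) + η ≤
      ‖MU.E (fun z : ℕ × ℤ => Z.μ.E (cor Z k (fun i => F i z.1) z.2))‖ ^ (2 ^ k) := by
    refine ge_of_tendsto (hlim.norm.pow (2 ^ k)) (Eventually.of_forall fun n => ?_)
    rw [hval n, Complex.norm_real, Real.norm_of_nonneg (by positivity)]
    exact (hlt n).le
  have htau : 8 * tau (2 ^ (k - 1)) w P =
      48 * ((w : ℝ) / P.card * (w : ℝ) ^ (-(1 / 2 ^ (2 ^ (k - 1)) : ℝ))) := by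
    unfold tau
    ring
  have hfin := hge.trans (hv.trans hq8)
  rw [htau] at hfin
  linarith

end DG.BLP
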