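import Pool.Agent.Helper53.DG.PdBasic

/-!
# DG-A203: Parseval for a positive definite sequence

PROOF. Put `n = 2 N`, `F(z) = sf n (a z^·) = n⁻² ∑_{|m|<n} (n - |m|) a(m) z^m` (`≥ 0` for `‖z‖ = 1` by
`PD.twist`, `PD.sf_nonneg`). Let `z_t = exp(2πi t / (2n))`, `t < 2n`. Orthogonality:
`∑_t z_t^m = 2n` if `2n ∣ m`, else `0`. Since the `m` with `|m| < n` are distinct mod `2n`:
`(1/(2n)) ∑_t F(z_t) = a(0)/n` and `(1/(2n)) ∑_t |F(z_t)|² = n⁻⁴ ∑_{|m|<n} (n-|m|)² |a(m)|²`.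
(Convenient: `|F(z)|² ` expanded as a fourfold sum, or write `F` as `∑_m c_m z^m` first.)
Restrict to `|m| < N`: `(n - |m|)² ≥ N² = n²/4`, and `1 ≥ 1 - |m|/N`:
`avg |F|² ≥ (1/(4 n²)) ∑_{|m|<N} (1 - |m|/N) |a(m)|² = (N/(4 n²)) sf N |a|²`.
If `M = max_t F(z_t)` (real, `≥ 0`): `avg |F|² ≤ M avg F = M a(0)/n ≤ M / n`. So
`M ≥ (N/(4n)) sf N |a|² = (1/8) sf N |a|²`.
(The reordering `∑_{i,j<N} f(i-j) = ∑_{|m|<N} (N - |m|) f(m)` is needed for `sf`.)
-/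

set_option autoImplicit false

namespace DG.BLP

open Finset Filter Topology DG

private theorem pow_swap (ζ : ℂ) (t : ℕ) (m : ℤ) : (ζ ^ t) ^ m = (ζ ^ m) ^ t := by
  rw [← zpow_natCast ζ t, ← zpow_natCast (ζ ^ m) t, ← zpow_mul, ← zpow_mul, mul_comm]

private theorem orth {n : ℕ} {ζ : ℂ} (hζ : IsPrimitiveRoot ζ n) (m : ℤ)
    (hm : |m| < n) : ∑ t ∈ range n, (ζ ^ t) ^ m = if m = 0 then (n : ℂ) else 0 := by
  simp only [pow_swap]
  by_cases h : m = 0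
  · subst h
    simp
  · rw [if_neg h]
    have h1 : ζ ^ m ≠ 1 := by
      intro h2
      have h3 := (hζ.zpow_eq_one_iff_dvd m).1 h2
      have h4 := Int.le_of_dvd (abs_pos.2 h) ((dvd_abs _ _).2 h3)
      omega
    have h2 : (ζ ^ m) ^ n = 1 := by
      rw [← pow_swap, hζ.pow_eq_one, one_zpow]
    rw [geom_sum_eq h1, h2, sub_self, zero_div]

private theorem card_ge {N : ℕ} (p : ℕ × ℕ) (hp : p ∈ range N ×ˢ range N) :
    (N : ℝ) ≤ ((((range (2 * N)) ×ˢ (range (2 * N))).filter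
      (fun q : ℕ × ℕ => (p.1 : ℤ) - p.2 = (q.1 : ℤ) - q.2)).card : ℝ) := by
  rw [mem_product, mem_range, mem_range] at hp
  have h : (range N).card ≤ (((range (2 * N)) ×ˢ (range (2 * N))).filter
      (fun q : ℕ × ℕ => (p.1 : ℤ) - p.2 = (q.1 : ℤ) - q.2)).card := by
    refine Finset.card_le_card_of_injOn (fun s => (p.1 + s, p.2 + s)) ?_ ?_
    · intro s hs
      have hs' := mem_range.1 (mem_coe.1 hs)
      rw [mem_coe, mem_filter, mem_product, mem_range, mem_range]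
      refine ⟨⟨by simp only; omega, by simp only; omega⟩, ?_⟩
      push_cast
      ring
    · intro s _ s' _ hss
      have := (Prod.ext_iff.1 hss).1
      simp only at this
      omega
  rw [card_range] at h
  exact_mod_cast h

theorem parseval_sf {a : ℤ → ℂ} (ha : PD a) (h1 : (a 0).re ≤ 1) (N : ℕ) (hN : 1 ≤ N) :
    ∃ z : ℂ, ‖z‖ = 1 ∧ (1 / 8) * (sf N (fun m => ((‖a m‖ ^ 2 : ℝ) : ℂ))).re ≤
      (sf (2 * N) (fun m => a m * z ^ m)).re := by
  classical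
  have hn : 0 < 2 * (2 * N) := by omega
  obtain ⟨ζ, hζ⟩ : ∃ ζ : ℂ, IsPrimitiveRoot ζ (2 * (2 * N)) :=
    ⟨_, Complex.isPrimitiveRoot_exp (2 * (2 * N)) hn.ne'⟩
  have hNR : (0 : ℝ) < N := by exact_mod_cast hN
  have hζ1 : ‖ζ‖ = 1 := hζ.norm'_eq_one hn.ne'
  have hz1 : ∀ t : ℕ, ‖ζ ^ t‖ = 1 := fun t => by rw [norm_pow, hζ1, one_pow]
  -- the values
  obtain ⟨f, hf⟩ : ∃ f : ℕ → ℝ, ∀ t, f t = (sf (2 * N) (fun m => a m * (ζ ^ t) ^ m)).re :=
    ⟨_, fun _ => rfl⟩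
  have hf0 : ∀ t, 0 ≤ f t := fun t => by
    rw [hf]
    exact ((ha.twist _ (hz1 t)).sf_nonneg _).1
  have hn2 : ((2 * N : ℕ) : ℂ) ≠ 0 := by
    exact_mod_cast (by omega : 2 * N ≠ 0)
  have hA : ∀ t, ∑ p ∈ range (2 * N) ×ˢ range (2 * N),
      a ((p.1 : ℤ) - p.2) * (ζ ^ t) ^ ((p.1 : ℤ) - p.2) = ((4 * (N : ℝ) ^ 2 * f t : ℝ) : ℂ) := by
    intro t
    have h2 : sf (2 * N) (fun m => a m * (ζ ^ t) ^ m) = ((f t : ℝ) : ℂ) := by
      apply Complex.ext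
      · rw [hf, Complex.ofReal_re]
      · rw [Complex.ofReal_im]
        exact ((ha.twist _ (hz1 t)).sf_nonneg _).2
    unfold sf at h2
    rw [div_eq_iff (pow_ne_zero 2 hn2)] at h2
    rw [Finset.sum_product, h2]
    push_cast
    ring
  have hd : ∀ p ∈ range (2 * N) ×ˢ range (2 * N), |(p.1 : ℤ) - p.2| < (2 * N : ℕ) := by
    intro p hp
    rw [mem_product, mem_range, mem_range] at hp
    rw [abs_lt]
    omega
  -- first moment
  have hS1 : ∑ t ∈ range (2 * (2 * N)), f t = 2 * (a 0).re := by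
    have h3 : ∑ t ∈ range (2 * (2 * N)), ((4 * (N : ℝ) ^ 2 * f t : ℝ) : ℂ) =
        ((2 * (2 * N) : ℕ) : ℂ) * (((2 * N : ℕ) : ℂ) * a 0) := by
      simp only [← hA]
      rw [Finset.sum_comm]
      have h4 : ∀ p ∈ range (2 * N) ×ˢ range (2 * N),
          ∑ t ∈ range (2 * (2 * N)), a ((p.1 : ℤ) - p.2) * (ζ ^ t) ^ ((p.1 : ℤ) - p.2) =
          if p.1 = p.2 then ((2 * (2 * N) : ℕ) : ℂ) * a 0 else 0 := by
        intro p hp
        rw [← Finset.mul_sum, orth hζ _ (by have := hd p hp; omega)]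
        by_cases h5 : p.1 = p.2
        · rw [if_pos h5, if_pos (by rw [h5, sub_self]), h5, sub_self, mul_comm]
        · rw [if_neg h5, if_neg (by omega), mul_zero]
      rw [Finset.sum_congr rfl h4, Finset.sum_product]
      simp only [Finset.sum_ite_eq, mem_range]
      have h6 : ∀ i ∈ range (2 * N), (if i < 2 * N then ((2 * (2 * N) : ℕ) : ℂ) * a 0 else 0) =
          ((2 * (2 * N) : ℕ) : ℂ) * a 0 := fun i hi => if_pos (mem_range.1 hi)
      rw [Finset.sum_congr rfl h6, Finset.sum_const, card_range, nsmul_eq_mul]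
      ring
    have h7 := congrArg Complex.re h3
    rw [← Complex.ofReal_sum, Complex.ofReal_re, ← Finset.mul_sum] at h7
    have h8 : (((2 * (2 * N) : ℕ) : ℂ) * (((2 * N : ℕ) : ℂ) * a 0)).re = 8 * (N : ℝ) ^ 2 * (a 0).re := by
      have : ((2 * (2 * N) : ℕ) : ℂ) * (((2 * N : ℕ) : ℂ) * a 0) = ((8 * (N : ℝ) ^ 2 : ℝ) : ℂ) * a 0 := by
        push_cast
        ring
      rw [this, Complex.re_ofReal_mul]
    rw [h8] at h7
    have h9 : 4 * (N : ℝ) ^ 2 * (∑ t ∈ range (2 * (2 * N)), f t - 2 * (a 0).re) = 0 := by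
      linear_combination h7
    have h10 : (4 * (N : ℝ) ^ 2) ≠ 0 := by positivity
    have h11 := (mul_eq_zero.1 h9).resolve_left h10
    linarith
  -- second moment
  have hS2 : (sf N (fun m => ((‖a m‖ ^ 2 : ℝ) : ℂ))).re / 4 ≤
      ∑ t ∈ range (2 * (2 * N)), f t ^ 2 := by
    have h3 : ∑ t ∈ range (2 * (2 * N)), (((4 * (N : ℝ) ^ 2 * f t) ^ 2 : ℝ) : ℂ) =
        ∑ p ∈ range (2 * N) ×ˢ range (2 * N), ∑ q ∈ range (2 * N) ×ˢ range (2 * N),
          (((if (p.1 : ℤ) - p.2 = (q.1 : ℤ) - q.2 then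
            4 * (N : ℝ) * ‖a ((p.1 : ℤ) - p.2)‖ ^ 2 else 0 : ℝ)) : ℂ) := by
      have h4 : ∀ t, (((4 * (N : ℝ) ^ 2 * f t) ^ 2 : ℝ) : ℂ) =
          ∑ p ∈ range (2 * N) ×ˢ range (2 * N), ∑ q ∈ range (2 * N) ×ˢ range (2 * N),
            a ((p.1 : ℤ) - p.2) * (starRingEnd ℂ) (a ((q.1 : ℤ) - q.2)) *
              (ζ ^ t) ^ (((p.1 : ℤ) - p.2) - ((q.1 : ℤ) - q.2)) := by
        intro t
        have h5 : (((4 * (N : ℝ) ^ 2 * f t) ^ 2 : ℝ) : ℂ) =
            ((4 * (N : ℝ) ^ 2 * f t : ℝ) : ℂ) *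
              (starRingEnd ℂ) ((4 * (N : ℝ) ^ 2 * f t : ℝ) : ℂ) := by
          rw [Complex.conj_ofReal]
          push_cast
          ring
        rw [h5, ← hA t, map_sum, Finset.sum_mul_sum]
        refine Finset.sum_congr rfl fun p _ => Finset.sum_congr rfl fun q _ => ?_
        have hz0 : ζ ^ t ≠ 0 := by
          intro h
          have := hz1 t
          rw [h, norm_zero] at this
          exact zero_ne_one this
        rw [map_mul, map_zpow₀, ← Complex.inv_eq_conj (hz1 t), inv_zpow,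
          zpow_sub₀ hz0 ((p.1 : ℤ) - p.2) ((q.1 : ℤ) - q.2), div_eq_mul_inv]
        generalize (ζ ^ t) ^ ((p.1 : ℤ) - p.2) = u
        generalize ((ζ ^ t) ^ ((q.1 : ℤ) - q.2))⁻¹ = v
        ring
      simp only [h4]
      rw [Finset.sum_comm]
      refine Finset.sum_congr rfl fun p hp => ?_
      rw [Finset.sum_comm]
      refine Finset.sum_congr rfl fun q hq => ?_
      rw [← Finset.mul_sum, orth hζ _ (by
        have h5 := abs_lt.1 (hd p hp)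
        have h6 := abs_lt.1 (hd q hq)
        rw [abs_lt]
        push_cast at h5 h6 ⊢
        constructor <;> linarith)]
      by_cases h7 : (p.1 : ℤ) - p.2 = (q.1 : ℤ) - q.2
      · rw [if_pos h7, if_pos (sub_eq_zero.2 h7), h7, Complex.mul_conj, Complex.normSq_eq_norm_sq]
        push_cast
        ring
      · rw [if_neg h7, if_neg (sub_ne_zero.2 h7), mul_zero, Complex.ofReal_zero]
    have h4 : ∑ t ∈ range (2 * (2 * N)), (4 * (N : ℝ) ^ 2 * f t) ^ 2 =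
        ∑ p ∈ range (2 * N) ×ˢ range (2 * N), ∑ q ∈ range (2 * N) ×ˢ range (2 * N),
          (if (p.1 : ℤ) - p.2 = (q.1 : ℤ) - q.2 then
            4 * (N : ℝ) * ‖a ((p.1 : ℤ) - p.2)‖ ^ 2 else 0 : ℝ) := by
      have := congrArg Complex.re h3
      simpa only [← Complex.ofReal_sum, Complex.ofReal_re] using this
    have h5 : ∑ p ∈ range N ×ˢ range N, 4 * (N : ℝ) ^ 2 * ‖a ((p.1 : ℤ) - p.2)‖ ^ 2 ≤
        ∑ p ∈ range (2 * N) ×ˢ range (2 * N), ∑ q ∈ range (2 * N) ×ˢ range (2 * N),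
          (if (p.1 : ℤ) - p.2 = (q.1 : ℤ) - q.2 then
            4 * (N : ℝ) * ‖a ((p.1 : ℤ) - p.2)‖ ^ 2 else 0 : ℝ) := by
      have hsub : range N ×ˢ range N ⊆ range (2 * N) ×ˢ range (2 * N) :=
        Finset.product_subset_product (range_subset_range.2 (by omega))
          (range_subset_range.2 (by omega))
      refine le_trans ?_ (Finset.sum_le_sum_of_subset_of_nonneg hsub fun p _ _ =>
        Finset.sum_nonneg fun q _ => by split_ifs <;> positivity)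
      refine Finset.sum_le_sum fun p hp => ?_
      rw [← Finset.sum_filter, Finset.sum_const, nsmul_eq_mul]
      have h6 := card_ge p hp
      have h7 : 0 ≤ 4 * (N : ℝ) * ‖a ((p.1 : ℤ) - p.2)‖ ^ 2 := by positivity
      calc 4 * (N : ℝ) ^ 2 * ‖a ((p.1 : ℤ) - p.2)‖ ^ 2
          = N * (4 * (N : ℝ) * ‖a ((p.1 : ℤ) - p.2)‖ ^ 2) := by ring
        _ ≤ _ := mul_le_mul_of_nonneg_right h6 h7
    have h6 : (sf N (fun m => ((‖a m‖ ^ 2 : ℝ) : ℂ))).re =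
        (∑ p ∈ range N ×ˢ range N, ‖a ((p.1 : ℤ) - p.2)‖ ^ 2) / (N : ℝ) ^ 2 := by
      have h7 : sf N (fun m => ((‖a m‖ ^ 2 : ℝ) : ℂ)) =
          (((∑ p ∈ range N ×ˢ range N, ‖a ((p.1 : ℤ) - p.2)‖ ^ 2) / (N : ℝ) ^ 2 : ℝ) : ℂ) := by
        unfold sf
        rw [Finset.sum_product]
        push_cast
        rfl
      rw [h7, Complex.ofReal_re]
    rw [← h4, ← Finset.mul_sum] at h5
    have h7 : ∑ t ∈ range (2 * (2 * N)), (4 * (N : ℝ) ^ 2 * f t) ^ 2 =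
        16 * (N : ℝ) ^ 4 * ∑ t ∈ range (2 * (2 * N)), f t ^ 2 := by
      rw [Finset.mul_sum]
      refine Finset.sum_congr rfl fun t _ => ?_
      ring
    rw [h7] at h5
    rw [h6, div_div, div_le_iff₀ (by positivity)]
    have h8 : 0 < 4 * (N : ℝ) ^ 2 := by positivity
    apply le_of_mul_le_mul_left _ h8
    calc 4 * (N : ℝ) ^ 2 * ∑ p ∈ range N ×ˢ range N, ‖a ((p.1 : ℤ) - p.2)‖ ^ 2 ≤ _ := h5
      _ = _ := by ring
  -- the maximum
  obtain ⟨t₀, -, hmax⟩ := Finset.exists_max_image (range (2 * (2 * N))) f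
    ⟨0, mem_range.2 hn⟩
  refine ⟨ζ ^ t₀, hz1 t₀, ?_⟩
  rw [← hf]
  have h3 : ∑ t ∈ range (2 * (2 * N)), f t ^ 2 ≤ f t₀ * ∑ t ∈ range (2 * (2 * N)), f t := by
    rw [Finset.mul_sum]
    refine Finset.sum_le_sum fun t ht => ?_
    rw [sq]
    exact mul_le_mul_of_nonneg_right (hmax t ht) (hf0 t)
  rw [hS1] at h3
  have h4 : f t₀ * (2 * (a 0).re) ≤ f t₀ * 2 :=
    mul_le_mul_of_nonneg_left (by linarith) (hf0 t₀)
  linarith

end DG.BLP
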