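import Pool.Agent.Helper53.DG.Defs

/-!
# DG-A201: positive definite sequences, basic facts

PROOFS.
* `kernel`: the double sum over `ι` equals the double sum over the finite set `s.image φ` with
  coefficients `c' u = ∑_{i ∈ s, φ i = u} c i` (`Finset.sum_fiberwise_of_maps_to` twice). Apply `PD`.
* `zero`: `s = {0}`, `c = 1`. `conj_eq`, `norm_le`: `s = {0, m}` (`m ≠ 0`), or `kernel` with
  `ι = Bool`/`Fin 2`: for all `u, v : ℂ`: `(|u|² + |v|²) a 0 + u conj v a m + conj u v a (-m)` is real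
  and `≥ 0`. `u = v = 1` and `u = 1, v = I` give `a (-m) = conj (a m)`; then choose `u = 1`,
  `v` of absolute value `1` with `conj v * a m = -|a m|`: `2 a 0 - 2 |a m| ≥ 0`.
* `twist`: replace `c i` by `c i * z ^ i` (`‖z‖ = 1`: `z ^ (i - j) = z ^ i * conj (z ^ j)`).
* `comp_mul`: `kernel` with `φ i = n * i`.
* `sum`: linearity. `mean`: the double sum of the means is the mean of the double sums, which are
  nonnegative reals; use `M.nonneg` on the function `i ↦ (double sum for a i).re` and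
  `M.E_ofReal`-type lemmas (each double sum equals its real part as a complex number).
* `autocorr`: `E[g x conj (g (T^(i-j) x))] = E[g (T^j x) conj (g (T^i x))]` by `inv_zpow j`; the double
  sum is `E[conj u * u] = N2`-type `≥ 0` with `u x = ∑ i, conj (c i) * g (T^i x)`.
-/

set_option autoImplicit false

namespace DG.BLP

open Finset Filter Topology DG

private theorem fib_sum {ι : Type} (s : Finset ι) (φ : ι → ℤ) (c : ι → ℂ) (f : ℤ → ℂ) :
    ∑ i ∈ s, c i * f (φ i) =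
      ∑ u ∈ s.image φ, (∑ i ∈ s.filter (fun i => φ i = u), c i) * f u := by
  rw [← Finset.sum_fiberwise_of_maps_to (g := φ) (t := s.image φ)
    (fun i hi => mem_image_of_mem φ hi)]
  refine Finset.sum_congr rfl fun u _ => ?_
  rw [Finset.sum_mul]
  refine Finset.sum_congr rfl fun i hi => ?_
  rw [(mem_filter.1 hi).2]

theorem PD.kernel {ι : Type} {a : ℤ → ℂ} (ha : PD a) (s : Finset ι) (φ : ι → ℤ) (c : ι → ℂ) :
    0 ≤ (∑ i ∈ s, ∑ j ∈ s, c i * (starRingEnd ℂ) (c j) * a (φ i - φ j)).re ∧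
      (∑ i ∈ s, ∑ j ∈ s, c i * (starRingEnd ℂ) (c j) * a (φ i - φ j)).im = 0 := by
  have h1 : ∑ i ∈ s, ∑ j ∈ s, c i * (starRingEnd ℂ) (c j) * a (φ i - φ j) =
      ∑ u ∈ s.image φ, ∑ v ∈ s.image φ, (∑ i ∈ s.filter (fun i => φ i = u), c i) *
        (starRingEnd ℂ) (∑ i ∈ s.filter (fun i => φ i = v), c i) * a (u - v) := by
    have h2 : ∀ i ∈ s, ∑ j ∈ s, c i * (starRingEnd ℂ) (c j) * a (φ i - φ j) =
        c i * (fun u : ℤ => ∑ j ∈ s, (starRingEnd ℂ) (c j) * a (u - φ j)) (φ i) := by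
      intro i _
      rw [Finset.mul_sum]
      refine Finset.sum_congr rfl fun j _ => ?_
      rw [mul_assoc]
    rw [Finset.sum_congr rfl h2,
      fib_sum s φ c (fun u : ℤ => ∑ j ∈ s, (starRingEnd ℂ) (c j) * a (u - φ j))]
    refine Finset.sum_congr rfl fun u _ => ?_
    have h3 := fib_sum s φ (fun j => (starRingEnd ℂ) (c j)) (fun v => a (u - v))
    rw [h3, Finset.mul_sum]
    refine Finset.sum_congr rfl fun v _ => ?_
    rw [map_sum, mul_assoc]
  rw [h1]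
  exact ha _ _

theorem PD.zero {a : ℤ → ℂ} (ha : PD a) : 0 ≤ (a 0).re ∧ (a 0).im = 0 := by
  have h := ha {0} (fun _ => 1)
  simpa using h

private theorem two_pt {a : ℤ → ℂ} (ha : PD a) (m : ℤ) (u v : ℂ) :
    0 ≤ (u * (starRingEnd ℂ) u * a 0 + u * (starRingEnd ℂ) v * a (-m) +
      (v * (starRingEnd ℂ) u * a m + v * (starRingEnd ℂ) v * a 0)).re ∧
    (u * (starRingEnd ℂ) u * a 0 + u * (starRingEnd ℂ) v * a (-m) +
      (v * (starRingEnd ℂ) u * a m + v * (starRingEnd ℂ) v * a 0)).im = 0 := by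
  have h := ha.kernel (univ : Finset (Fin 2)) (fun i => if i = 0 then 0 else m)
    (fun i => if i = 0 then u else v)
  simp only [Fin.sum_univ_two] at h
  simpa using h

theorem PD.conj_eq {a : ℤ → ℂ} (ha : PD a) (m : ℤ) : a (-m) = (starRingEnd ℂ) (a m) := by
  have h0 := ha.zero
  have h1 := (two_pt ha m 1 1).2
  have h2 := (two_pt ha m 1 Complex.I).2
  simp only [map_one, mul_one, one_mul, Complex.add_im, Complex.mul_im, Complex.mul_re,
    Complex.I_re, Complex.I_im, Complex.conj_re, Complex.conj_im] at h1 h2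
  apply Complex.ext
  · rw [Complex.conj_re]
    linarith [h0.2]
  · rw [Complex.conj_im]
    linarith [h0.2]

theorem PD.norm_le {a : ℤ → ℂ} (ha : PD a) (m : ℤ) : ‖a m‖ ≤ (a 0).re := by
  have h0 := ha.zero
  by_cases h : a m = 0
  · rw [h, norm_zero]
    exact h0.1
  · have hn : 0 < ‖a m‖ := norm_pos_iff.2 h
    have h1 := (two_pt ha m (‖a m‖ : ℂ) (-(starRingEnd ℂ) (a m))).1
    have h2 : ((‖a m‖ : ℂ) * (starRingEnd ℂ) (‖a m‖ : ℂ) * a 0 +
        (‖a m‖ : ℂ) * (starRingEnd ℂ) (-(starRingEnd ℂ) (a m)) * a (-m) +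
      (-(starRingEnd ℂ) (a m) * (starRingEnd ℂ) (‖a m‖ : ℂ) * a m +
        -(starRingEnd ℂ) (a m) * (starRingEnd ℂ) (-(starRingEnd ℂ) (a m)) * a 0)) =
        ((2 * ‖a m‖ ^ 2 : ℝ) : ℂ) * a 0 - ((2 * ‖a m‖ ^ 3 : ℝ) : ℂ) := by
      have e1 : a m * (starRingEnd ℂ) (a m) = ((‖a m‖ ^ 2 : ℝ) : ℂ) := by
        rw [Complex.mul_conj, Complex.normSq_eq_norm_sq]
      rw [ha.conj_eq m]
      simp only [map_neg, Complex.conj_conj, Complex.conj_ofReal]
      push_cast at e1 ⊢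
      linear_combination (a 0 - 2 * (‖a m‖ : ℂ)) * e1
    rw [h2, Complex.sub_re, Complex.re_ofReal_mul, Complex.ofReal_re] at h1
    have h3 : 0 ≤ ‖a m‖ ^ 2 * ((a 0).re - ‖a m‖) := by
      have e : ‖a m‖ ^ 2 * ((a 0).re - ‖a m‖) =
        (2 * ‖a m‖ ^ 2 * (a 0).re - 2 * ‖a m‖ ^ 3) / 2 := by ring
      rw [e]
      linarith
    have h4 := nonneg_of_mul_nonneg_right h3 (by positivity)
    linarith

theorem PD.bd {a : ℤ → ℂ} (ha : PD a) : Bd a := ⟨(a 0).re, ha.norm_le⟩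

theorem PD.sf_nonneg {a : ℤ → ℂ} (ha : PD a) (n : ℕ) : 0 ≤ (sf n a).re ∧ (sf n a).im = 0 := by
  have h := ha.kernel (range n) (fun i => (i : ℤ)) (fun _ => 1)
  simp only [map_one, mul_one, one_mul] at h
  unfold sf
  have e : ((n : ℂ)) ^ 2 = (((n : ℝ) ^ 2 : ℝ) : ℂ) := by push_cast; rfl
  rw [e, Complex.div_ofReal_re, Complex.div_ofReal_im, h.2, zero_div]
  exact ⟨div_nonneg h.1 (by positivity), rfl⟩

theorem PD.twist {a : ℤ → ℂ} (ha : PD a) (z : ℂ) (hz : ‖z‖ = 1) : PD (fun m => a m * z ^ m) := by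
  intro s c
  have hz0 : z ≠ 0 := by
    rintro rfl
    simp at hz
  have h := ha s (fun i => c i * z ^ i)
  have e : ∀ i j : ℤ, c i * (starRingEnd ℂ) (c j) * (a (i - j) * z ^ (i - j)) =
      c i * z ^ i * (starRingEnd ℂ) (c j * z ^ j) * a (i - j) := by
    intro i j
    rw [map_mul, map_zpow₀, ← Complex.inv_eq_conj hz, zpow_sub₀ hz0, inv_zpow]
    ring
  simp only [e]
  exact h

theorem PD.comp_mul {a : ℤ → ℂ} (ha : PD a) (n : ℤ) : PD (fun m => a (n * m)) := by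
  intro s c
  have h := ha.kernel s (fun i => n * i) c
  simp only [← mul_sub] at h
  exact h

theorem PD.sum {ι : Type} (s : Finset ι) (a : ι → ℤ → ℂ) (ha : ∀ i ∈ s, PD (a i)) (c : ℝ)
    (hc : 0 ≤ c) : PD (fun m => (c : ℂ) * ∑ i ∈ s, a i m) := by
  intro t d
  have e : ∑ i ∈ t, ∑ j ∈ t, d i * (starRingEnd ℂ) (d j) * ((c : ℂ) * ∑ l ∈ s, a l (i - j)) =
      (c : ℂ) * ∑ l ∈ s, ∑ i ∈ t, ∑ j ∈ t, d i * (starRingEnd ℂ) (d j) * a l (i - j) := by
    rw [Finset.sum_comm' (t' := t) (s' := fun _ => s) (by intros; tauto), Finset.mul_sum]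
    refine Finset.sum_congr rfl fun i _ => ?_
    rw [Finset.sum_comm' (t' := t) (s' := fun _ => s) (by intros; tauto), Finset.mul_sum]
    refine Finset.sum_congr rfl fun j _ => ?_
    rw [← Finset.mul_sum]
    ring
  rw [e, Complex.re_ofReal_mul, Complex.im_ofReal_mul, Complex.re_sum, Complex.im_sum]
  refine ⟨mul_nonneg hc (Finset.sum_nonneg fun l hl => (ha l hl t d).1), ?_⟩
  rw [Finset.sum_eq_zero fun l hl => (ha l hl t d).2, mul_zero]

theorem PD.mean {ι : Type} (M : Mean ι) (a : ι → ℤ → ℂ) (ha : ∀ i, PD (a i))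
    (hb : ∀ m, Bd (fun i => a i m)) : PD (fun m => M.E (fun i => a i m)) := by
  intro t d
  have e : ∑ i ∈ t, ∑ j ∈ t, d i * (starRingEnd ℂ) (d j) * M.E (fun l => a l (i - j)) =
      M.E (fun l => ∑ i ∈ t, ∑ j ∈ t, d i * (starRingEnd ℂ) (d j) * a l (i - j)) := by
    rw [M.E_sum t (fun i l => ∑ j ∈ t, d i * (starRingEnd ℂ) (d j) * a l (i - j))]
    refine Finset.sum_congr rfl fun i _ => ?_
    rw [M.E_sum t (fun j l => d i * (starRingEnd ℂ) (d j) * a l (i - j))]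
    refine Finset.sum_congr rfl fun j _ => ?_
    rw [M.E_const_mul]
  have hB : Bd (fun l => ∑ i ∈ t, ∑ j ∈ t, d i * (starRingEnd ℂ) (d j) * a l (i - j)) :=
    Bd.sum t _ fun i _ => Bd.sum t _ fun j _ => (hb (i - j)).const_mul _
  obtain ⟨C, hC⟩ := hB
  have e2 : (fun l => ∑ i ∈ t, ∑ j ∈ t, d i * (starRingEnd ℂ) (d j) * a l (i - j)) =
      fun l => (((∑ i ∈ t, ∑ j ∈ t, d i * (starRingEnd ℂ) (d j) * a l (i - j)).re : ℝ) : ℂ) := by
    funext l
    apply Complex.ext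
    · rw [Complex.ofReal_re]
    · rw [Complex.ofReal_im, (ha l t d).2]
  rw [e, e2]
  exact M.nonneg _ (fun l => (ha l t d).1) ⟨C, fun l => (Complex.re_le_norm _).trans (hC l)⟩

theorem PD.autocorr (X : Sys) (g : X.S → ℂ) (hg : Bd g) :
    PD (fun m => X.μ.E (fun x => g x * (starRingEnd ℂ) (g ((X.T ^ m) x)))) := by
  intro t d
  have h1 : ∀ i j : ℤ, X.μ.E (fun x => g x * (starRingEnd ℂ) (g ((X.T ^ (i - j)) x))) =
      X.μ.E (fun x => g ((X.T ^ j) x) * (starRingEnd ℂ) (g ((X.T ^ i) x))) := by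
    intro i j
    rw [← X.inv_zpow j (fun x => g x * (starRingEnd ℂ) (g ((X.T ^ (i - j)) x)))
      (hg.mul (hg.comp _).conj)]
    congr 1
    funext x
    rw [← Equiv.Perm.mul_apply, ← zpow_add, sub_add_cancel]
  have hw : Bd (fun x => ∑ i ∈ t, d i * (starRingEnd ℂ) (g ((X.T ^ i) x))) :=
    Bd.sum t _ fun i _ => (hg.comp _).conj.const_mul _
  have e : ∑ i ∈ t, ∑ j ∈ t, d i * (starRingEnd ℂ) (d j) *
      X.μ.E (fun x => g x * (starRingEnd ℂ) (g ((X.T ^ (i - j)) x))) =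
      ((X.μ.N2 (fun x => ∑ i ∈ t, d i * (starRingEnd ℂ) (g ((X.T ^ i) x))) : ℝ) : ℂ) := by
    rw [← X.μ.N2_eq _ hw]
    have e1 : (fun x => (∑ i ∈ t, d i * (starRingEnd ℂ) (g ((X.T ^ i) x))) *
        (starRingEnd ℂ) (∑ i ∈ t, d i * (starRingEnd ℂ) (g ((X.T ^ i) x)))) =
        fun x => ∑ i ∈ t, ∑ j ∈ t, d i * (starRingEnd ℂ) (d j) *
          (g ((X.T ^ j) x) * (starRingEnd ℂ) (g ((X.T ^ i) x))) := by
      funext x
      rw [map_sum, Finset.sum_mul_sum]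
      refine Finset.sum_congr rfl fun i _ => Finset.sum_congr rfl fun j _ => ?_
      rw [map_mul, Complex.conj_conj]
      ring
    rw [e1, X.μ.E_sum t (fun i x => ∑ j ∈ t, d i * (starRingEnd ℂ) (d j) *
          (g ((X.T ^ j) x) * (starRingEnd ℂ) (g ((X.T ^ i) x))))]
    refine Finset.sum_congr rfl fun i _ => ?_
    rw [X.μ.E_sum t (fun j x => d i * (starRingEnd ℂ) (d j) *
          (g ((X.T ^ j) x) * (starRingEnd ℂ) (g ((X.T ^ i) x))))]
    refine Finset.sum_congr rfl fun j _ => ?_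
    rw [X.μ.E_const_mul, h1]
  rw [e, Complex.ofReal_re, Complex.ofReal_im]
  exact ⟨X.μ.N2_nonneg _ hw, rfl⟩

end DG.BLP
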