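import Pool.Agent.Helper53.DG.PdBasic

/-!
# DG-A202: Fejer averages of positive definite sequences

Write `Q(c) = ∑_{i,j} c i conj (c j) a (i - j) ≥ 0` for finitely supported `c` (use `PD.kernel`).
`sf n a = Q(x_n)`, `x_n = (1/n) ∑_{i<n} δ_i`.

* `sf_mul_le`: `x_{nl} = (1/n) ∑_{b<n} y_b`, `y_b = (1/l) ∑_{i<l} δ_{b + n i}`, `Q(y_b) = sf l (a (n ·))`
  for every `b` (translation), and `Q` is convex:
  `Q((1/n) ∑ y_b) ≤ (1/n) ∑ Q(y_b)` since `n ∑_b Q(y_b) - Q(∑ y_b) = (1/2) ∑_{b,b'} Q(y_b - y_b') ≥ 0`.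
* `sf_le_add`: if `n > H`: `(sf H a).re ≤ (a 0).re` (`|a m| ≤ a 0`) `≤ 4 n / H * a 0`. If `n ≤ H`:
  `x_H = u + v`, `u = (1/n) ∑_{b<n} (x_H shifted by b) = (1/H) ∑_{i<H} (x_n shifted by i)`, so by
  convexity `Q(u) ≤ Q(x_n) = sf n a`; `v` has coefficients with `∑ |v i| ≤ 2 (n-1)/ H`... (for each
  `b`: `x_H - shift_b x_H` has `l¹` norm `≤ 2 b / H`), average over `b < n`: `≤ n / H`; so
  `Q(v) ≤ (n/H)² a 0`. For every `θ > 0`: `Q(u + v) ≤ (1+θ) Q(u) + (1+1/θ) Q(v)`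
  (from `Q(θ u - v) ≥ 0`); `θ = n/H`: `Q(x_H) ≤ Q(u) + (n/H) a 0 + (1 + H/n) (n/H)² a 0 ≤ Q(u) + 4 (n/H) a 0`
  (`Q(u) ≤ a 0`, `n ≤ H`).
* `cz_le_cz_mul`: for fixed `l`, `H → ∞` along the hyperfilter: `sf (H+1) a ≤ sf (n l) a + 4 n l a0/(H+1)
  ≤ sf l (a (n ·)) + ...` so `(cz.E a).re ≤ (sf l (a (n ·))).re` for every `l ≥ 1`; now let `l → ∞`
  (`cz_tendsto`, `fej_eq_sf`).
* `cz_nonneg`, `le_cz_of_forall`, `cz_le_of_forall`: limits of `sf_nonneg` etc. (`cz_tendsto`, `fej_eq_sf`,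
  `Complex.continuous_re`, `ge_of_tendsto`).
-/

set_option autoImplicit false

namespace DG.BLP

open Finset Filter Topology DG

private theorem kR {ι : Type} {a : ℤ → ℂ} (ha : PD a) (s : Finset ι) (φ : ι → ℤ) (c : ι → ℝ) :
    0 ≤ ∑ i ∈ s, ∑ j ∈ s, c i * c j * (a (φ i - φ j)).re := by
  have h := (ha.kernel s φ (fun i => (c i : ℂ))).1
  have e : (∑ i ∈ s, ∑ j ∈ s, (c i : ℂ) * (starRingEnd ℂ) (c j : ℂ) * a (φ i - φ j)).re =
      ∑ i ∈ s, ∑ j ∈ s, c i * c j * (a (φ i - φ j)).re := by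
    rw [Complex.re_sum]
    refine Finset.sum_congr rfl fun i _ => ?_
    rw [Complex.re_sum]
    refine Finset.sum_congr rfl fun j _ => ?_
    rw [Complex.conj_ofReal, ← Complex.ofReal_mul, Complex.re_ofReal_mul]
  rwa [e] at h

private theorem cross {ι : Type} {a : ℤ → ℂ} (ha : PD a) (s : Finset ι) (φ ψ : ι → ℤ) :
    2 * ∑ i ∈ s, ∑ j ∈ s, (a (φ i - ψ j)).re ≤
      ∑ i ∈ s, ∑ j ∈ s, (a (φ i - φ j)).re + ∑ i ∈ s, ∑ j ∈ s, (a (ψ i - ψ j)).re := by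
  have h := kR ha (s.disjSum s) (Sum.elim φ ψ) (Sum.elim (fun _ => 1) (fun _ => -1))
  simp only [Finset.sum_disjSum, Sum.elim_inl, Sum.elim_inr] at h
  have hsw : ∑ i ∈ s, ∑ j ∈ s, (a (ψ i - φ j)).re = ∑ i ∈ s, ∑ j ∈ s, (a (φ i - ψ j)).re := by
    rw [Finset.sum_comm]
    refine Finset.sum_congr rfl fun i _ => Finset.sum_congr rfl fun j _ => ?_
    have h1 := ha.conj_eq (φ i - ψ j)
    rw [neg_sub] at h1
    rw [h1, Complex.conj_re]
  simp only [Finset.sum_add_distrib, one_mul, mul_one, neg_mul, mul_neg, neg_neg,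
    Finset.sum_neg_distrib] at h
  linarith

private theorem sf_re (n : ℕ) (a : ℤ → ℂ) : (sf n a).re =
    (∑ i ∈ range n, ∑ j ∈ range n, (a ((i : ℤ) - (j : ℤ))).re) / (n : ℝ) ^ 2 := by
  unfold sf
  have e : ((n : ℂ)) ^ 2 = (((n : ℝ) ^ 2 : ℝ) : ℂ) := by push_cast; rfl
  rw [e, Complex.div_ofReal_re, Complex.re_sum]
  simp only [Complex.re_sum]

private theorem sum_range_mul' (n l : ℕ) (f : ℕ → ℝ) :
    ∑ i ∈ range (n * l), f i = ∑ b ∈ range n, ∑ i ∈ range l, f (b + n * i) := by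
  induction l with
  | zero => simp
  | succ l ih =>
    rw [Nat.mul_succ, Finset.sum_range_add, ih]
    simp only [Finset.sum_range_succ, Finset.sum_add_distrib]
    congr 1
    refine Finset.sum_congr rfl fun b _ => ?_
    rw [add_comm]

private theorem swap4 (A B C D : Finset ℕ) (F : ℕ → ℕ → ℕ → ℕ → ℝ) :
    ∑ b ∈ A, ∑ b' ∈ B, ∑ i ∈ C, ∑ j ∈ D, F b b' i j =
      ∑ i ∈ C, ∑ j ∈ D, ∑ b ∈ A, ∑ b' ∈ B, F b b' i j := by
  have h1 : ∑ b ∈ A, ∑ b' ∈ B, ∑ i ∈ C, ∑ j ∈ D, F b b' i j =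
      ∑ b ∈ A, ∑ i ∈ C, ∑ j ∈ D, ∑ b' ∈ B, F b b' i j := by
    refine Finset.sum_congr rfl fun b _ => ?_
    rw [Finset.sum_comm]
    exact Finset.sum_congr rfl fun i _ => Finset.sum_comm
  rw [h1, Finset.sum_comm]
  refine Finset.sum_congr rfl fun i _ => ?_
  rw [Finset.sum_comm]

theorem sf_mul_le {a : ℤ → ℂ} (ha : PD a) (n l : ℕ) (hn : 1 ≤ n) (hl : 1 ≤ l) :
    (sf (n * l) a).re ≤ (sf l (fun m => a ((n : ℤ) * m))).re := by
  rw [sf_re, sf_re]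
  have hn0 : (0 : ℝ) < n := by exact_mod_cast hn
  have hl0 : (0 : ℝ) < l := by exact_mod_cast hl
  set B : ℝ := ∑ i ∈ range l, ∑ j ∈ range l, (a ((n : ℤ) * ((i : ℤ) - (j : ℤ)))).re with hB
  have h1 : ∑ i ∈ range (n * l), ∑ j ∈ range (n * l), (a ((i : ℤ) - (j : ℤ))).re =
      ∑ b ∈ range n, ∑ b' ∈ range n, ∑ i ∈ range l, ∑ j ∈ range l,
        (a (((b + n * i : ℕ) : ℤ) - ((b' + n * j : ℕ) : ℤ))).re := by
    rw [sum_range_mul' n l (fun i => ∑ j ∈ range (n * l), (a ((i : ℤ) - (j : ℤ))).re)]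
    refine Finset.sum_congr rfl fun b _ => ?_
    rw [Finset.sum_comm (s := range n) (t := range l)]
    refine Finset.sum_congr rfl fun i _ => ?_
    rw [sum_range_mul' n l (fun j => (a (((b + n * i : ℕ) : ℤ) - (j : ℤ))).re)]
  have h2 : ∀ b b' : ℕ, ∑ i ∈ range l, ∑ j ∈ range l,
      (a (((b + n * i : ℕ) : ℤ) - ((b' + n * j : ℕ) : ℤ))).re ≤ B := by
    intro b b'
    have h3 := cross ha (range l) (fun i => ((b + n * i : ℕ) : ℤ))
      (fun i => ((b' + n * i : ℕ) : ℤ))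
    have h4 : ∀ c : ℕ, ∑ i ∈ range l, ∑ j ∈ range l,
        (a (((c + n * i : ℕ) : ℤ) - ((c + n * j : ℕ) : ℤ))).re = B := by
      intro c
      rw [hB]
      refine Finset.sum_congr rfl fun i _ => Finset.sum_congr rfl fun j _ => ?_
      congr 2
      push_cast
      ring
    have h5 := h4 b
    have h6 := h4 b'
    rw [h5, h6] at h3
    linarith
  rw [h1, div_le_div_iff₀ (by positivity) (by positivity)]
  have h7 : ∑ b ∈ range n, ∑ b' ∈ range n, ∑ i ∈ range l, ∑ j ∈ range l,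
      (a (((b + n * i : ℕ) : ℤ) - ((b' + n * j : ℕ) : ℤ))).re ≤ (n : ℝ) ^ 2 * B := by
    calc _ ≤ ∑ b ∈ range n, ∑ b' ∈ range n, B :=
          Finset.sum_le_sum fun b _ => Finset.sum_le_sum fun b' _ => h2 b b'
      _ = (n : ℝ) ^ 2 * B := by
          simp only [Finset.sum_const, Finset.card_range, nsmul_eq_mul]
          ring
  have h8 : (((n * l : ℕ) : ℝ)) ^ 2 = (n : ℝ) ^ 2 * (l : ℝ) ^ 2 := by
    push_cast
    ring
  rw [h8]
  calc _ ≤ (n : ℝ) ^ 2 * B * (l : ℝ) ^ 2 := mul_le_mul_of_nonneg_right h7 (by positivity)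
    _ = B * ((n : ℝ) ^ 2 * (l : ℝ) ^ 2) := by ring

private theorem win (f : ℤ → ℝ) (M : ℝ) (hf : ∀ m, |f m| ≤ M) (H b : ℕ) :
    |∑ i ∈ range H, f ((i : ℤ) + (b : ℤ)) - ∑ i ∈ range H, f (i : ℤ)| ≤ 2 * b * M := by
  induction b with
  | zero => simp
  | succ b ih =>
    have h1 : ∑ i ∈ range H, f ((i : ℤ) + ((b + 1 : ℕ) : ℤ)) -
        ∑ i ∈ range H, f ((i : ℤ) + (b : ℤ)) = f ((H : ℤ) + (b : ℤ)) - f ((0 : ℕ) + (b : ℤ)) := by
      rw [← Finset.sum_sub_distrib,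
        ← Finset.sum_range_sub (fun i : ℕ => f ((i : ℤ) + (b : ℤ))) H]
      refine Finset.sum_congr rfl fun i _ => ?_
      congr 2
      push_cast
      ring
    have h2 := hf ((H : ℤ) + (b : ℤ))
    have h3 := hf ((0 : ℕ) + (b : ℤ))
    rw [abs_le] at ih h2 h3 ⊢
    push_cast at h1 h3 ⊢
    constructor <;> linarith [h1, ih.1, ih.2, h2.1, h2.2, h3.1, h3.2]

theorem sf_le_add {a : ℤ → ℂ} (ha : PD a) (n H : ℕ) (hn : 1 ≤ n) (hH : 1 ≤ H) :
    (sf H a).re ≤ (sf n a).re + 4 * n / H * (a 0).re := by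
  have hn0 : (0 : ℝ) < n := by exact_mod_cast hn
  have hH0 : (0 : ℝ) < H := by exact_mod_cast hH
  rw [sf_re, sf_re]
  have hA : ∀ m, |(a m).re| ≤ (a 0).re := fun m => (Complex.abs_re_le_norm _).trans (ha.norm_le m)
  have hA0 : 0 ≤ (a 0).re := ha.zero.1
  set M : ℝ := (a 0).re with hM
  set SH : ℝ := ∑ i ∈ range H, ∑ j ∈ range H, (a ((i : ℤ) - (j : ℤ))).re with hSH
  set Sn : ℝ := ∑ i ∈ range n, ∑ j ∈ range n, (a ((i : ℤ) - (j : ℤ))).re with hSn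
  -- shifting
  have h1 : ∀ b ∈ range n, ∀ b' ∈ range n, SH ≤ ∑ i ∈ range H, ∑ j ∈ range H,
      (a (((i : ℤ) + (b : ℤ)) - ((j : ℤ) + (b' : ℤ)))).re + 4 * n * H * M := by
    intro b hb b' hb'
    have hbn : (b : ℝ) ≤ n := by exact_mod_cast (mem_range.1 hb).le
    have hbn' : (b' : ℝ) ≤ n := by exact_mod_cast (mem_range.1 hb').le
    have h2 : ∀ j : ℕ, ∑ i ∈ range H, (a ((i : ℤ) - (j : ℤ))).re ≤
        ∑ i ∈ range H, (a (((i : ℤ) + (b : ℤ)) - (j : ℤ))).re + 2 * b * M := by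
      intro j
      have h3 := (abs_le.1 (win (fun m => (a (m - (j : ℤ))).re) M (fun m => hA _) H b)).1
      linarith
    have h4 : ∀ i : ℕ, ∑ j ∈ range H, (a (((i : ℤ) + (b : ℤ)) - (j : ℤ))).re ≤
        ∑ j ∈ range H, (a (((i : ℤ) + (b : ℤ)) - ((j : ℤ) + (b' : ℤ)))).re + 2 * b' * M := by
      intro i
      have h3 := (abs_le.1 (win (fun m => (a (((i : ℤ) + (b : ℤ)) - m)).re) M
        (fun m => hA _) H b')).1
      linarith
    calc SH = ∑ j ∈ range H, ∑ i ∈ range H, (a ((i : ℤ) - (j : ℤ))).re := by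
          rw [hSH, Finset.sum_comm]
      _ ≤ ∑ j ∈ range H, (∑ i ∈ range H, (a (((i : ℤ) + (b : ℤ)) - (j : ℤ))).re + 2 * b * M) :=
          Finset.sum_le_sum fun j _ => h2 j
      _ = ∑ i ∈ range H, ∑ j ∈ range H, (a (((i : ℤ) + (b : ℤ)) - (j : ℤ))).re +
            H * (2 * b * M) := by
          rw [Finset.sum_add_distrib, Finset.sum_comm, Finset.sum_const, Finset.card_range,
            nsmul_eq_mul]
      _ ≤ ∑ i ∈ range H, (∑ j ∈ range H,
            (a (((i : ℤ) + (b : ℤ)) - ((j : ℤ) + (b' : ℤ)))).re + 2 * b' * M) +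
            H * (2 * b * M) := by
          gcongr with i _
          exact h4 i
      _ = ∑ i ∈ range H, ∑ j ∈ range H,
            (a (((i : ℤ) + (b : ℤ)) - ((j : ℤ) + (b' : ℤ)))).re + H * (2 * b' * M) +
            H * (2 * b * M) := by
          rw [Finset.sum_add_distrib, Finset.sum_const, Finset.card_range, nsmul_eq_mul]
      _ ≤ _ := by
          have h5 : (H : ℝ) * (2 * b' * M) ≤ 2 * n * H * M := by
            have := mul_le_mul_of_nonneg_right hbn' (mul_nonneg hH0.le hA0)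
            nlinarith
          have h6 : (H : ℝ) * (2 * b * M) ≤ 2 * n * H * M := by
            have := mul_le_mul_of_nonneg_right hbn (mul_nonneg hH0.le hA0)
            nlinarith
          linarith
  -- convexity
  have h7 : ∀ i j : ℕ, ∑ b ∈ range n, ∑ b' ∈ range n,
      (a (((i : ℤ) + (b : ℤ)) - ((j : ℤ) + (b' : ℤ)))).re ≤ Sn := by
    intro i j
    have h3 := cross ha (range n) (fun b => (i : ℤ) + (b : ℤ)) (fun b => (j : ℤ) + (b : ℤ))
    have h4 : ∀ c : ℕ, ∑ b ∈ range n, ∑ b' ∈ range n,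
        (a (((c : ℤ) + (b : ℤ)) - ((c : ℤ) + (b' : ℤ)))).re = Sn := by
      intro c
      rw [hSn]
      refine Finset.sum_congr rfl fun i _ => Finset.sum_congr rfl fun j _ => ?_
      congr 2
      ring
    have h5 := h4 i
    have h6 := h4 j
    rw [h5, h6] at h3
    linarith
  have h8 : (n : ℝ) ^ 2 * SH ≤ (H : ℝ) ^ 2 * Sn + (n : ℝ) ^ 2 * (4 * n * H * M) := by
    calc (n : ℝ) ^ 2 * SH = ∑ b ∈ range n, ∑ b' ∈ range n, SH := by
          simp only [Finset.sum_const, Finset.card_range, nsmul_eq_mul]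
          ring
      _ ≤ ∑ b ∈ range n, ∑ b' ∈ range n, (∑ i ∈ range H, ∑ j ∈ range H,
            (a (((i : ℤ) + (b : ℤ)) - ((j : ℤ) + (b' : ℤ)))).re + 4 * n * H * M) :=
          Finset.sum_le_sum fun b hb => Finset.sum_le_sum fun b' hb' => h1 b hb b' hb'
      _ = ∑ b ∈ range n, ∑ b' ∈ range n, (∑ i ∈ range H, ∑ j ∈ range H,
            (a (((i : ℤ) + (b : ℤ)) - ((j : ℤ) + (b' : ℤ)))).re) +
            (n : ℝ) ^ 2 * (4 * n * H * M) := by
          simp only [Finset.sum_add_distrib, Finset.sum_const, Finset.card_range, nsmul_eq_mul]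
          ring
      _ = ∑ i ∈ range H, ∑ j ∈ range H, (∑ b ∈ range n, ∑ b' ∈ range n,
            (a (((i : ℤ) + (b : ℤ)) - ((j : ℤ) + (b' : ℤ)))).re) +
            (n : ℝ) ^ 2 * (4 * n * H * M) := by
          rw [swap4]
      _ ≤ ∑ i ∈ range H, ∑ j ∈ range H, Sn + (n : ℝ) ^ 2 * (4 * n * H * M) := by
          gcongr with i _ j _
          exact h7 i j
      _ = (H : ℝ) ^ 2 * Sn + (n : ℝ) ^ 2 * (4 * n * H * M) := by
          simp only [Finset.sum_const, Finset.card_range, nsmul_eq_mul]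
          ring
  rw [div_le_iff₀ (by positivity)]
  have h9 : (Sn / (n : ℝ) ^ 2 + 4 * n / H * M) * (H : ℝ) ^ 2 =
      ((H : ℝ) ^ 2 * Sn + (n : ℝ) ^ 2 * (4 * n * H * M)) / (n : ℝ) ^ 2 := by
    field_simp
  rw [h9, le_div_iff₀ (by positivity)]
  linarith

theorem cz_nonneg {a : ℤ → ℂ} (ha : PD a) : 0 ≤ (cz.E a).re ∧ (cz.E a).im = 0 := by
  have h1 := cz_tendsto a ha.bd
  constructor
  · have h2 := (Complex.continuous_re.tendsto _).comp h1
    refine ge_of_tendsto h2 (Eventually.of_forall fun N => ?_)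
    rw [Function.comp_apply, fej_eq_sf]
    exact (ha.sf_nonneg _).1
  · have h2 := (Complex.continuous_im.tendsto _).comp h1
    refine tendsto_nhds_unique h2 ?_
    refine (tendsto_const_nhds (x := (0 : ℝ))).congr fun N => ?_
    rw [Function.comp_apply, fej_eq_sf]
    exact (ha.sf_nonneg _).2.symm

theorem le_cz_of_forall {a : ℤ → ℂ} (ha : Bd a) (δ : ℝ)
    (h : ∀ n : ℕ, 1 ≤ n → δ ≤ (sf n a).re) : δ ≤ (cz.E a).re := by
  have h1 := cz_tendsto a ha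
  have h2 := (Complex.continuous_re.tendsto _).comp h1
  refine ge_of_tendsto h2 (Eventually.of_forall fun N => ?_)
  rw [Function.comp_apply, fej_eq_sf]
  exact h _ (Nat.le_add_left 1 N)

theorem cz_le_of_forall {a : ℤ → ℂ} (ha : Bd a) (δ : ℝ)
    (h : ∀ n : ℕ, 1 ≤ n → (sf n a).re ≤ δ) : (cz.E a).re ≤ δ := by
  have h1 := cz_tendsto a ha
  have h2 := (Complex.continuous_re.tendsto _).comp h1
  refine le_of_tendsto h2 (Eventually.of_forall fun N => ?_)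
  rw [Function.comp_apply, fej_eq_sf]
  exact h _ (Nat.le_add_left 1 N)

theorem cz_le_cz_mul {a : ℤ → ℂ} (ha : PD a) (n : ℕ) (hn : 1 ≤ n) :
    (cz.E a).re ≤ (cz.E (fun m => a ((n : ℤ) * m))).re := by
  refine le_cz_of_forall (ha.comp_mul n).bd _ fun l hl => ?_
  refine le_trans ?_ (sf_mul_le ha n l hn hl)
  have h1 := (Complex.continuous_re.tendsto _).comp (cz_tendsto a ha.bd)
  have h3 : Tendsto (fun N : ℕ => (sf (n * l) a).re + 4 * ((n * l : ℕ) : ℝ) / ((N + 1 : ℕ) : ℝ) *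
      (a 0).re) atTop (𝓝 ((sf (n * l) a).re + 0 * (a 0).re)) := by
    refine Tendsto.const_add _ (Tendsto.mul_const _ ?_)
    have h4 := (tendsto_const_div_atTop_nhds_zero_nat (4 * ((n * l : ℕ) : ℝ)))
    exact h4.comp (tendsto_add_atTop_nat 1)
  rw [zero_mul, add_zero] at h3
  have h5 : Tendsto (fun N : ℕ => (sf (n * l) a).re + 4 * ((n * l : ℕ) : ℝ) / ((N + 1 : ℕ) : ℝ) *
      (a 0).re) (hyperfilter ℕ : Filter ℕ) (𝓝 ((sf (n * l) a).re)) :=
    h3.mono_left Nat.hyperfilter_le_atTop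
  refine le_of_tendsto_of_tendsto' h1 h5 fun N => ?_
  rw [Function.comp_apply, fej_eq_sf]
  exact sf_le_add ha (n * l) (N + 1) (Nat.mul_pos hn hl) (Nat.le_add_left 1 N)

end DG.BLP
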