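import Pool.Agent.Helper53.DG.PdSf
import Pool.Agent.Helper53.DG.Pars

/-!
# DG-A204: a fixed phase

PROOF. For each `j : ℕ` let `z_j` be given by `parseval_sf` for `N = j + 1`. The `z_j` have norm `1`, so
(`DG.exists_lim (hyperfilter ℕ)`) they converge to some `z` along the hyperfilter, `‖z‖ = 1`. Fix `n ≥ 1`.
`(1/8) ((fej j).E |a|²).re = (1/8) (sf (j+1) |a|²).re ≤ (sf (2(j+1)) (a z_j^·)).re
  ≤ (sf n (a z_j^·)).re + 4 n / (2 (j+1)) * (a 0).re` (`sf_le_add` for `PD.twist`; at `m = 0` the twisted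
sequence is `a 0`). Let `j → ∞` along the hyperfilter: the left side tends to `(1/8) (cz.E |a|²).re`
(`cz_tendsto`, `|a|²` is bounded), `sf n (a z_j^·) → sf n (a z^·)` (a finite sum of continuous functions of
`z` at `z ≠ 0`: `continuousAt_zpow₀`), and `4 n / (2(j+1)) → 0` (hyperfilter ≤ cofinite = atTop).
-/

set_option autoImplicit false

namespace DG.BLP

open Finset Filter Topology DG

theorem exists_phase {a : ℤ → ℂ} (ha : PD a) (h1 : (a 0).re ≤ 1) :
    ∃ z : ℂ, ‖z‖ = 1 ∧ ∀ n : ℕ, 1 ≤ n →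
      (1 / 8) * (cz.E (fun m => ((‖a m‖ ^ 2 : ℝ) : ℂ))).re ≤ (sf n (fun m => a m * z ^ m)).re := by
  have hex : ∀ j : ℕ, ∃ z : ℂ, ‖z‖ = 1 ∧
      (1 / 8) * (sf (j + 1) (fun m => ((‖a m‖ ^ 2 : ℝ) : ℂ))).re ≤
        (sf (2 * (j + 1)) (fun m => a m * z ^ m)).re := fun j =>
    parseval_sf ha h1 (j + 1) (by omega)
  choose z hz hle using hex
  obtain ⟨w, hw⟩ := exists_lim (hyperfilter ℕ) z (C := 1) (fun i => (hz i).le)
  have hw1 : ‖w‖ = 1 := by
    have h2 : Tendsto (fun j => ‖z j‖) (hyperfilter ℕ : Filter ℕ) (𝓝 ‖w‖) := hw.norm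
    simp only [hz] at h2
    exact (tendsto_nhds_unique h2 tendsto_const_nhds)
  have hw0 : w ≠ 0 := by
    intro h0
    rw [h0, norm_zero] at hw1
    exact zero_ne_one hw1
  refine ⟨w, hw1, fun n hn => ?_⟩
  -- the left side
  have hbd : Bd (fun m => ((‖a m‖ ^ 2 : ℝ) : ℂ)) := by
    obtain ⟨C, hC⟩ := ha.bd
    exact Bd.ofReal_of_bdd (fun m => Mean.sq_bdd hC m)
  have hL : Tendsto (fun j : ℕ => (1 / 8 : ℝ) * (sf (j + 1) (fun m => ((‖a m‖ ^ 2 : ℝ) : ℂ))).re)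
      (hyperfilter ℕ : Filter ℕ) (𝓝 ((1 / 8) * (cz.E (fun m => ((‖a m‖ ^ 2 : ℝ) : ℂ))).re)) := by
    have h2 := (Complex.continuous_re.tendsto _).comp (cz_tendsto _ hbd)
    have h3 : (Complex.re ∘ fun N => (fej N).E (fun m => ((‖a m‖ ^ 2 : ℝ) : ℂ))) =
        fun j : ℕ => (sf (j + 1) (fun m => ((‖a m‖ ^ 2 : ℝ) : ℂ))).re := by
      funext j
      simp only [Function.comp_apply, fej_eq_sf]
    rw [h3] at h2
    exact h2.const_mul _
  -- the right side
  have hR1 : Tendsto (fun j : ℕ => (sf n (fun m => a m * z j ^ m)).re)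
      (hyperfilter ℕ : Filter ℕ) (𝓝 (sf n (fun m => a m * w ^ m)).re) := by
    refine (Complex.continuous_re.tendsto _).comp ?_
    unfold sf
    refine Tendsto.div_const ?_ _
    refine tendsto_finsetSum _ fun i _ => tendsto_finsetSum _ fun l _ => ?_
    refine Tendsto.const_mul _ ?_
    exact ((continuousAt_zpow₀ w _ (Or.inl hw0)).tendsto).comp hw
  have hR2 : Tendsto (fun j : ℕ => 4 * (n : ℝ) / ((2 * (j + 1) : ℕ) : ℝ))
      (hyperfilter ℕ : Filter ℕ) (𝓝 0) := by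
    have h2 : Tendsto (fun j : ℕ => 4 * (n : ℝ) / ((2 * (j + 1) : ℕ) : ℝ)) atTop (𝓝 0) := by
      refine Tendsto.div_atTop tendsto_const_nhds ?_
      refine tendsto_natCast_atTop_atTop.comp ?_
      refine tendsto_atTop_mono (fun j => ?_) tendsto_id
      change j ≤ 2 * (j + 1)
      omega
    refine h2.mono_left ?_
    rw [← Nat.cofinite_eq_atTop]
    exact hyperfilter_le_cofinite
  have hR := hR1.add hR2
  rw [add_zero] at hR
  refine le_of_tendsto_of_tendsto' hL hR fun j => ?_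
  refine (hle j).trans ?_
  have h4 := sf_le_add (ha.twist (z j) (hz j)) n (2 * (j + 1)) hn (by omega)
  simp only [zpow_zero, mul_one] at h4
  refine h4.trans (add_le_add le_rfl ?_)
  have h5 : (0 : ℝ) ≤ 4 * n / ((2 * (j + 1) : ℕ) : ℝ) := by positivity
  calc 4 * (n : ℝ) / ((2 * (j + 1) : ℕ) : ℝ) * (a 0).re ≤
      4 * (n : ℝ) / ((2 * (j + 1) : ℕ) : ℝ) * 1 := mul_le_mul_of_nonneg_left h1 h5
    _ = _ := mul_one _

end DG.BLP
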