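import Pool.Agent.Helper53.DG.Defs

/-!
# DG-A210: alternating sums of reciprocals over cubes do not vanish

PROOF of `rr_ne_zero`. Only `l` matters.
* translation: `rr l (fun p => r (p + s)) p = rr l r (p + s)`; linearity: `rr l (fun p => -r p) p = -rr l r p`.
* reduction to positive entries: for `t < 0`: `r p - r (p + t) = -(r (p + t) - r (p + t + (-t)))`, so
  `rr (t :: l) r p = - rr ((-t) :: l) r (p + t)`; the smallest vertex of the cube is the base point of the cube
  with all entries positive; it is `≥ 1` because it is a vertex.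
* positive entries, `p ≥ 1`: `rr l (1/·) p > 0`. One way: for `k, p`: put
  `D_k(p) = k! / (p (p+1) ... (p+k)) > 0`; `D_k(p) - D_k(p + 1) = D_{k+1}(p)`, so
  `D_k(p) - D_k(p + t) = ∑_{s<t} D_{k+1}(p + s)`; hence by induction on `l`: for every `k` and every finite sum
  `f(p) = ∑_i D_k(p + s_i)` with a nonempty list of `s_i ≥ 0`, `rr l f p` is such a sum with `k + l.length`
  in place of `k`, so it is `> 0` for `p ≥ 1`. (`1/p = D_0(p)`.) Another way: `1/p = ∫_0^1 u^(p-1) du`.
* `Ver`: `Ver l Q p` says `Q` at all vertices `p + (sum of a sublist of l)`; in particular at `p` and at the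
  smallest vertex.
PROOF of `rr_abs_le`: induction on `l`, with a general bound `ρ`.
-/

set_option autoImplicit false

namespace DG.BLP

/-- one difference -/
private def EE (f : ℤ → ℚ) : ℤ → ℚ := fun p => f p - f (p + 1)

/-- completely monotone on the positive integers -/
private def CM (f : ℤ → ℚ) : Prop := ∀ (m : ℕ) (p : ℤ), 1 ≤ p → 0 < (EE^[m]) f p

private theorem EE_iter (f : ℤ → ℚ) (t : ℤ) (m : ℕ) (p : ℤ) :
    (EE^[m]) (fun p => f p - f (p + t)) p = (EE^[m]) f p - (EE^[m]) f (p + t) := by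
  induction m generalizing p with
  | zero => rfl
  | succ m ih =>
    rw [Function.iterate_succ_apply', Function.iterate_succ_apply']
    simp only [EE]
    rw [ih, ih, add_right_comm p 1 t]
    ring

private theorem dec_lt (g : ℤ → ℚ) (hg : ∀ p : ℤ, 1 ≤ p → 0 < g p - g (p + 1)) (n : ℕ) (p : ℤ)
    (hp : 1 ≤ p) : g (p + ((n : ℤ) + 1)) < g p := by
  induction n with
  | zero =>
    have := hg p hp
    simp only [Nat.cast_zero, zero_add]
    linarith
  | succ n ih =>
    have h1 := hg (p + ((n : ℤ) + 1)) (by omega)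
    have e1 : p + (((n + 1 : ℕ) : ℤ) + 1) = p + ((n : ℤ) + 1) + 1 := by push_cast; ring
    rw [e1]
    linarith

private theorem CM.step {f : ℤ → ℚ} (hf : CM f) {t : ℤ} (ht : 0 < t) :
    CM (fun p => f p - f (p + t)) := by
  intro m p hp
  rw [EE_iter]
  have h1 : ∀ q : ℤ, 1 ≤ q → 0 < (EE^[m]) f q - (EE^[m]) f (q + 1) := by
    intro q hq
    have := hf (m + 1) q hq
    rw [Function.iterate_succ_apply'] at this
    exact this
  obtain ⟨n, hn⟩ : ∃ n : ℕ, t = (n : ℤ) + 1 := ⟨(t - 1).toNat, by omega⟩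
  have := dec_lt ((EE^[m]) f) h1 n p hp
  rw [← hn] at this
  linarith

private theorem rr_pos (l : List ℤ) (hl : ∀ t ∈ l, 0 < t) (f : ℤ → ℚ) (hf : CM f) (p : ℤ)
    (hp : 1 ≤ p) : 0 < rr l f p := by
  induction l generalizing f with
  | nil => exact hf 0 p hp
  | cons t l ih =>
    rw [rr]
    exact ih (fun u hu => hl u (List.mem_cons_of_mem _ hu)) _ (hf.step (hl t List.mem_cons_self))

private theorem rec_iter (m : ℕ) (p : ℤ) (hp : 1 ≤ p) :
    (EE^[m]) (fun p => 1 / (p : ℚ)) p =
      (m.factorial : ℚ) / ∏ i ∈ Finset.range (m + 1), ((p : ℚ) + i) := by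
  induction m generalizing p with
  | zero => simp
  | succ m ih =>
    rw [Function.iterate_succ_apply']
    simp only [EE]
    rw [ih p hp, ih (p + 1) (by omega)]
    have hp' : (0 : ℚ) < p := by exact_mod_cast hp
    have e1 : ∏ i ∈ Finset.range (m + 1), (((p + 1 : ℤ) : ℚ) + i) =
        ∏ i ∈ Finset.range (m + 1), ((p : ℚ) + ((i + 1 : ℕ) : ℚ)) := by
      refine Finset.prod_congr rfl (fun i _ => ?_)
      push_cast
      ring
    rw [e1]
    have e2 : ∏ i ∈ Finset.range (m + 1 + 1), ((p : ℚ) + i) =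
        (∏ i ∈ Finset.range (m + 1), ((p : ℚ) + ((i + 1 : ℕ) : ℚ))) * ((p : ℚ) + ((0 : ℕ) : ℚ)) :=
      Finset.prod_range_succ' _ _
    have e3 : ∏ i ∈ Finset.range (m + 1 + 1), ((p : ℚ) + i) =
        (∏ i ∈ Finset.range (m + 1), ((p : ℚ) + i)) * ((p : ℚ) + ((m + 1 : ℕ) : ℚ)) :=
      Finset.prod_range_succ _ _
    have hA : 0 < ∏ i ∈ Finset.range (m + 1), ((p : ℚ) + i) :=
      Finset.prod_pos (fun i _ => by positivity)
    have hB : 0 < ∏ i ∈ Finset.range (m + 1), ((p : ℚ) + ((i + 1 : ℕ) : ℚ)) :=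
      Finset.prod_pos (fun i _ => by positivity)
    have hC : 0 < ∏ i ∈ Finset.range (m + 1 + 1), ((p : ℚ) + i) :=
      Finset.prod_pos (fun i _ => by positivity)
    rw [div_sub_div _ _ (ne_of_gt hA) (ne_of_gt hB), div_eq_div_iff
      (ne_of_gt (mul_pos hA hB)) (ne_of_gt hC), Nat.factorial_succ]
    rw [Nat.cast_zero, add_zero] at e2
    have e4 : (∏ i ∈ Finset.range (m + 1), ((p : ℚ) + ((i + 1 : ℕ) : ℚ))) * (p : ℚ) =
        (∏ i ∈ Finset.range (m + 1), ((p : ℚ) + i)) * ((p : ℚ) + ((m + 1 : ℕ) : ℚ)) := by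
      rw [← e2, e3]
    rw [e3]
    generalize (∏ i ∈ Finset.range (m + 1), ((p : ℚ) + i)) = A at e4 hA
    generalize (∏ i ∈ Finset.range (m + 1), ((p : ℚ) + ((i + 1 : ℕ) : ℚ))) = B at e4 hB
    push_cast at e4 ⊢
    linear_combination (m.factorial : ℚ) * A * e4

private theorem cm_recip : CM (fun p => 1 / (p : ℚ)) := by
  intro m p hp
  rw [rec_iter m p hp]
  have hp' : (0 : ℚ) < p := by exact_mod_cast hp
  refine div_pos (by exact_mod_cast Nat.factorial_pos m) (Finset.prod_pos (fun i _ => by positivity))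

private theorem rr_shift (l : List ℤ) (s : ℤ) (r : ℤ → ℚ) (p : ℤ) :
    rr l (fun p => r (p + s)) p = rr l r (p + s) := by
  induction l generalizing r with
  | nil => rfl
  | cons t l ih =>
    rw [rr, rr, ← ih (fun p => r p - r (p + t))]
    have : (fun p => r (p + s) - r (p + t + s)) = (fun p => r (p + s) - r (p + s + t)) := by
      funext q
      rw [add_right_comm q t s]
    rw [this]

private theorem rr_neg (l : List ℤ) (r : ℤ → ℚ) (p : ℤ) :
    rr l (fun p => - r p) p = - rr l r p := by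
  induction l generalizing r with
  | nil => rfl
  | cons t l ih =>
    rw [rr, rr, ← ih]
    have : (fun p => - r p - - r (p + t)) = (fun p => -(r p - r (p + t))) := by
      funext q
      ring
    rw [this]

private theorem rr_norm (l : List ℤ) : ∃ (ε : ℚ) (s : ℤ), ε ≠ 0 ∧
    (∀ (r : ℤ → ℚ) (p : ℤ), rr l r p = ε * rr (l.map abs) r (p + s)) ∧
    ∀ (Q : ℤ → Prop) (p : ℤ), Ver l Q p → Q (p + s) := by
  induction l with
  | nil => exact ⟨1, 0, one_ne_zero, fun r p => by simp [rr], fun Q p h => by simpa [Ver] using h⟩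
  | cons t l ih =>
    obtain ⟨ε, s, h1, h2, h3⟩ := ih
    rcases le_or_gt 0 t with ht | ht
    · refine ⟨ε, s, h1, ?_, ?_⟩
      · intro r p
        rw [rr, h2, List.map_cons, rr, abs_of_nonneg ht]
      · intro Q p h
        exact (h3 _ p h).1
    · refine ⟨-ε, t + s, neg_ne_zero.2 h1, ?_, ?_⟩
      · intro r p
        rw [rr, h2, List.map_cons, rr, abs_of_neg ht]
        have e1 : (fun p => r p - r (p + t)) =
            (fun p => -((fun q => r q - r (q + -t)) (p + t))) := by
          funext q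
          simp only [add_neg_cancel_right]
          ring
        rw [e1, rr_neg, rr_shift (l.map abs) t (fun q => r q - r (q + -t)), add_right_comm p s t,
          add_assoc p t s]
        ring
      · intro Q p h
        have := (h3 _ p h).2
        rw [add_assoc, add_comm s t] at this
        exact this

theorem rr_ne_zero (l : List ℤ) (hl : ∀ t ∈ l, t ≠ 0) (p : ℤ)
    (h : Ver l (fun p => 0 < p) p) : rr l (fun p => 1 / (p : ℚ)) p ≠ 0 := by
  obtain ⟨ε, s, h1, h2, h3⟩ := rr_norm l
  have hq : 0 < p + s := h3 _ _ h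
  rw [h2]
  refine mul_ne_zero h1 (ne_of_gt ?_)
  apply rr_pos (l.map abs)
  · intro t ht
    obtain ⟨u, hu, rfl⟩ := List.mem_map.1 ht
    exact abs_pos.2 (hl u hu)
  · exact cm_recip
  · omega

theorem rr_abs_le (l : List ℤ) (r : ℤ → ℚ) (ρ : ℚ) (hr : ∀ p, |r p| ≤ ρ) (p : ℤ) :
    |rr l r p| ≤ ρ * 2 ^ l.length := by
  induction l generalizing r ρ with
  | nil => simpa [rr] using hr p
  | cons t l ih =>
    have h := ih (fun p => r p - r (p + t)) (2 * ρ) (fun q => by
      have h1 := hr q
      have h2 := hr (q + t)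
      have h3 := abs_sub (r q) (r (q + t))
      linarith)
    rw [rr, List.length_cons, pow_succ]
    linarith

end DG.BLP
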