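import Pool.Agent.Helper53.DG.Elim
import Pool.Agent.Helper53.DG.Recip

/-!
# DG-A211: approximate eigenfunctions, the sum over cubes

PROOFS.
* `Eig.iter`: if `‖V (T^β x) - z^α V x‖ ≤ κ` for all `x` and `‖z‖ = 1`, then
  `‖V (T^(n β) x) - z^(n α) V x‖ ≤ n κ` (`n : ℕ`, induction).
* `Eig.dV`: if `V p = 0` or `V (p + t) = 0` then `dV .. p = 0`. Otherwise with `(β, α)` for `p` and
  `(β', α')` for `p + t` take `β β'` and `α β' - α' β`: `V p (T^(ββ')x) = z^(αβ') V p x + O(β' κ)`,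
  `V (p+t) (T^(-tc) T^(ββ') x) = z^(α'β) V (p+t) (T^(-tc) x) + O(β κ)` and `z^(αβ') conj (z^(α'β)) = z^(αβ'-α'β)`;
  the error of the product is `≤ β' κ + β κ ≤ 2 B κ` (all functions and powers of `z` bounded by `1`).
  `(αβ' - α'β : ℚ) = (r p - r (p+t)) ββ'`.
* `SV_le`. General statement by induction on `cs` (length `d`) for arbitrary `Q : ℤ → Prop` with
  `(∃ x, V p x ≠ 0) → Q p`, `r` with `|r p| ≤ ρ` (`ρ : ℕ`), `B ≥ 1`, under
  `(hQ)`: for every list `l` of nonzero integers with `l.length = d` and every `p`: `Ver l Q p → rr l r p ≠ 0`,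
  and `δ ≤ ‖1 - z^N‖` for `1 ≤ N ≤ ρ 2^d B^(2^d)`:
   `SV X P w cs V ≤ d (2w+1)^(d-1) |P| + (2w+1)^d |P| (2^d B^(2^d)) κ / δ`  (any constant is fine).
  `d = 0`: for `p` with `V p ≠ 0`: `z^α ≠ 1`-part: `(1 - z^α) E V_p = E[V_p (T^β ·)] - z^α E V_p` has norm `≤ κ`
  (`inv_zpow`), `α ≠ 0` (as `rr [] r p = r p ≠ 0`), `|α| ≤ ρ B`, `‖1 - z^α‖ = ‖1 - z^|α|‖ ≥ δ`; so
  `‖E V_p‖ ≤ κ / δ`. Step: the term `t = 0` is `≤ (2w+1)^(d-1) |P|` (trivial bound `SV X P w cs' V' ≤ (2w+1)^|cs'| |P|`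
  for `V'` bounded by `1`); for `t ≠ 0` use `Eig.dV`, `Q' p = (Q p ∧ Q (p + t))`, `r' p = r p - r (p+t)`,
  `Ver l Q' = Ver (t :: l) Q`, `rr l r' = rr (t :: l) r`, `ρ' = 2ρ`, `B' = B²`, `κ' = 2 B κ`.
  Start: `Q p = (p ∈ P)`, `r p = 1/p`, `ρ = 1`, `B = 2 w`; `(hQ)` is `rr_ne_zero` (`Ver` is monotone in `Q`, `P ⊂ [w, 2w]`,
  `w ≥ 1`).
-/

set_option autoImplicit false

namespace DG.BLP

open Finset Filter Topology DG

private theorem sv_zpow_apply (X : Sys) (m n : ℤ) (x : X.S) :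
    (X.T ^ (m + n)) x = (X.T ^ m) ((X.T ^ n) x) := by
  rw [zpow_add]
  rfl

private theorem sv_norm_zpow {z : ℂ} (hz : ‖z‖ = 1) (n : ℤ) : ‖z ^ n‖ = 1 := by
  rw [norm_zpow, hz, one_zpow]

private theorem Eig.iter {X : Sys} {z : ℂ} (hz : ‖z‖ = 1) {v : X.S → ℂ} {β α : ℤ} {κ : ℝ}
    (h : ∀ x, ‖v ((X.T ^ β) x) - z ^ α * v x‖ ≤ κ) (n : ℕ) :
    ∀ x, ‖v ((X.T ^ ((n : ℤ) * β)) x) - z ^ ((n : ℤ) * α) * v x‖ ≤ n * κ := by
  have hz0 : z ≠ 0 := by
    rintro rfl
    simp at hz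
  induction n with
  | zero =>
    intro x
    simp
  | succ n ih =>
    intro x
    have h1 : ((n + 1 : ℕ) : ℤ) * β = (n : ℤ) * β + β := by
      push_cast
      ring
    have h2 : ((n + 1 : ℕ) : ℤ) * α = (n : ℤ) * α + α := by
      push_cast
      ring
    rw [h1, h2, sv_zpow_apply, zpow_add₀ hz0]
    have h3 : v ((X.T ^ ((n : ℤ) * β)) ((X.T ^ β) x)) - z ^ ((n : ℤ) * α) * z ^ α * v x =
        (v ((X.T ^ ((n : ℤ) * β)) ((X.T ^ β) x)) - z ^ ((n : ℤ) * α) * v ((X.T ^ β) x)) +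
          z ^ ((n : ℤ) * α) * (v ((X.T ^ β) x) - z ^ α * v x) := by ring
    rw [h3]
    refine (norm_add_le _ _).trans ?_
    rw [norm_mul, sv_norm_zpow hz, one_mul]
    have h4 := ih ((X.T ^ β) x)
    have h5 := h x
    push_cast
    linarith

theorem Eig.dV {X : Sys} {z : ℂ} (hz : ‖z‖ = 1) {V : ℤ → X.S → ℂ} (hV : ∀ p x, ‖V p x‖ ≤ 1)
    {r : ℤ → ℚ} {B : ℕ} {κ : ℝ} (hκ : 0 ≤ κ) (h : Eig X z V r B κ) (c t : ℤ) :
    Eig X z (dV X V c t) (fun p => r p - r (p + t)) (B ^ 2) (2 * B * κ) := by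
  have hz0 : z ≠ 0 := by
    rintro rfl
    simp at hz
  intro p
  rcases h p with h0 | ⟨β, hβ1, hβB, α, hα, hx⟩
  · left
    intro x
    unfold BLP.dV
    rw [h0 x, zero_mul]
  · rcases h (p + t) with h0 | ⟨β', hβ1', hβB', α', hα', hx'⟩
    · left
      intro x
      unfold BLP.dV
      rw [h0, map_zero, mul_zero]
    · right
      refine ⟨β * β', Nat.mul_pos hβ1 hβ1', ?_, α * β' - α' * β, ?_, ?_⟩
      · rw [sq]
        exact Nat.mul_le_mul hβB hβB'
      · push_cast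
        rw [hα, hα']
        ring
      · intro x
        have h1 := Eig.iter hz hx β' x
        have h2 := Eig.iter hz hx' β ((X.T ^ (-(t * c))) x)
        have e1 : ((β * β' : ℕ) : ℤ) = (β' : ℤ) * (β : ℤ) := by
          push_cast
          ring
        have e2 : (X.T ^ (-(t * c))) ((X.T ^ ((β * β' : ℕ) : ℤ)) x) =
            (X.T ^ ((β : ℤ) * (β' : ℤ))) ((X.T ^ (-(t * c))) x) := by
          rw [← sv_zpow_apply, ← sv_zpow_apply]
          congr 2
          push_cast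
          ring
        unfold BLP.dV
        rw [e2, e1]
        set a := V p ((X.T ^ ((β' : ℤ) * (β : ℤ))) x) with ha
        set a0 := V p x with ha0
        set b := V (p + t) ((X.T ^ ((β : ℤ) * (β' : ℤ))) ((X.T ^ (-(t * c))) x)) with hb
        set b0 := V (p + t) ((X.T ^ (-(t * c))) x) with hb0
        have hw : (starRingEnd ℂ) (z ^ ((β : ℤ) * α')) = z ^ (-((β : ℤ) * α')) := by
          rw [zpow_neg]
          apply eq_inv_of_mul_eq_one_right
          rw [Complex.mul_conj, Complex.normSq_eq_norm_sq, sv_norm_zpow hz]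
          norm_num
        have e3 : z ^ (α * (β' : ℤ) - α' * (β : ℤ)) =
            z ^ ((β' : ℤ) * α) * (starRingEnd ℂ) (z ^ ((β : ℤ) * α')) := by
          rw [hw, ← zpow_add₀ hz0]
          congr 1
          ring
        rw [e3]
        have e4 : a * (starRingEnd ℂ) b - z ^ ((β' : ℤ) * α) *
            (starRingEnd ℂ) (z ^ ((β : ℤ) * α')) * (a0 * (starRingEnd ℂ) b0) =
            (a - z ^ ((β' : ℤ) * α) * a0) * (starRingEnd ℂ) b +
              z ^ ((β' : ℤ) * α) * a0 * (starRingEnd ℂ) (b - z ^ ((β : ℤ) * α') * b0) := by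
          rw [map_sub, map_mul]
          ring
        rw [e4]
        refine (norm_add_le _ _).trans ?_
        rw [norm_mul, norm_mul, norm_mul, RCLike.norm_conj, RCLike.norm_conj, sv_norm_zpow hz,
          one_mul]
        have hb1 : ‖b‖ ≤ 1 := hV _ _
        have ha1 : ‖a0‖ ≤ 1 := hV _ _
        have k1 : ‖a - z ^ ((β' : ℤ) * α) * a0‖ * ‖b‖ ≤ (B : ℝ) * κ * 1 := by
          apply mul_le_mul _ hb1 (norm_nonneg _) (by positivity)
          refine h1.trans ?_
          exact mul_le_mul_of_nonneg_right (by exact_mod_cast hβB') hκ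
        have k2 : ‖a0‖ * ‖b - z ^ ((β : ℤ) * α') * b0‖ ≤ 1 * ((B : ℝ) * κ) := by
          apply mul_le_mul ha1 _ (norm_nonneg _) zero_le_one
          refine h2.trans ?_
          exact mul_le_mul_of_nonneg_right (by exact_mod_cast hβB) hκ
        linarith

private theorem sv_card (w : ℕ) : (Icc (-(w : ℤ)) (w : ℤ)).card = 2 * w + 1 := by
  rw [Int.card_Icc]
  omega

private theorem sv_trivial (X : Sys) (P : Finset ℤ) (w : ℕ) (cs : List ℤ) :
    ∀ V : ℤ → X.S → ℂ, (∀ p x, ‖V p x‖ ≤ 1) →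
      SV X P w cs V ≤ ((2 * w + 1 : ℕ) : ℝ) ^ cs.length * P.card := by
  induction cs with
  | nil =>
    intro V hV
    show ‖∑ p ∈ P, X.μ.E (V p)‖ ≤ _
    refine (norm_sum_le _ _).trans ?_
    refine (Finset.sum_le_sum fun p _ => X.μ.norm_E_le (V p) (hV p)).trans ?_
    simp
  | cons c cs ih =>
    intro V hV
    show ∑ t ∈ Icc (-(w : ℤ)) w, SV X P w cs (dV X V c t) ≤ _
    refine (Finset.sum_le_sum fun t _ => ih (dV X V c t) (dV_norm X V hV c t)).trans ?_
    rw [Finset.sum_const, sv_card, nsmul_eq_mul, List.length_cons, pow_succ]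
    apply le_of_eq
    ring

/-- the constant of the induction -/
private noncomputable def sv_K (w : ℕ) : ℕ → ℝ → ℝ
  | 0, _ => 1
  | d + 1, B => ((2 * w + 1 : ℕ) : ℝ) * (sv_K w d (B ^ 2) * (2 * B))

private theorem sv_K_nonneg (w : ℕ) (d : ℕ) : ∀ B : ℝ, 0 ≤ B → 0 ≤ sv_K w d B := by
  induction d with
  | zero =>
    intro B _
    exact zero_le_one
  | succ d ih =>
    intro B hB
    show 0 ≤ ((2 * w + 1 : ℕ) : ℝ) * (sv_K w d (B ^ 2) * (2 * B))
    have := ih (B ^ 2) (by positivity)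
    positivity

private theorem sv_one_sub {z : ℂ} (hz : ‖z‖ = 1) (α : ℤ) :
    ‖1 - z ^ α‖ = ‖1 - z ^ α.natAbs‖ := by
  have hz0 : z ≠ 0 := by
    rintro rfl
    simp at hz
  rcases Int.natAbs_eq α with h | h
  · conv_lhs => rw [h]
    rw [zpow_natCast]
  · conv_lhs => rw [h]
    rw [zpow_neg, zpow_natCast]
    have h1 : 1 - (z ^ α.natAbs)⁻¹ = -((z ^ α.natAbs)⁻¹ * (1 - z ^ α.natAbs)) := by
      have : z ^ α.natAbs ≠ 0 := pow_ne_zero _ hz0
      field_simp
      ring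
    rw [h1, norm_neg, norm_mul, norm_inv, norm_pow, hz, one_pow, inv_one, one_mul]

private theorem sv_gen (w : ℕ) (P : Finset ℤ) {X : Sys} {z : ℂ} (hz : ‖z‖ = 1) {δ : ℝ}
    (hδ : 0 < δ) (cs : List ℤ) : ∀ (d : ℕ), cs.length = d → ∀ (B ρ : ℕ), 1 ≤ B →
    (∀ N : ℕ, 1 ≤ N → N ≤ ρ * 2 ^ d * B ^ (2 ^ d) → δ ≤ ‖1 - z ^ N‖) →
    ∀ (Q : ℤ → Prop) (r : ℤ → ℚ), (∀ p, |r p| ≤ ρ) → ∀ V : ℤ → X.S → ℂ,
    (∀ p x, ‖V p x‖ ≤ 1) → (∀ p x, V p x ≠ 0 → Q p) →
    (∀ l : List ℤ, l.length = d → (∀ t ∈ l, t ≠ 0) → ∀ p, Ver l Q p → rr l r p ≠ 0) →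
    ∀ κ : ℝ, 0 ≤ κ → Eig X z V r B κ →
    SV X P w cs V ≤ d * ((2 * w + 1 : ℕ) : ℝ) ^ (d - 1) * P.card +
      P.card * sv_K w d B * κ / δ := by
  induction cs with
  | nil =>
    intro d hd B ρ hB hN Q r hr V hV hVQ hQ κ hκ hE
    rw [List.length_nil] at hd
    subst hd
    have key : ∀ p, ‖X.μ.E (V p)‖ ≤ κ / δ := by
      intro p
      rcases hE p with h0 | ⟨β, hβ1, hβB, α, hα, hx⟩
      · have : V p = fun _ => 0 := funext h0
        rw [this, X.μ.E_const, norm_zero]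
        positivity
      · by_cases hne : ∃ x, V p x ≠ 0
        · obtain ⟨x, hxx⟩ := hne
          have hrp : r p ≠ 0 := hQ [] rfl (by simp) p (hVQ p x hxx)
          have hα0 : α ≠ 0 := by
            rintro rfl
            rw [Int.cast_zero] at hα
            have : (β : ℚ) ≠ 0 := by
              have : 0 < β := hβ1
              positivity
            rcases mul_eq_zero.1 hα.symm with h1 | h1
            · exact hrp h1
            · exact this h1
          have hαle : α.natAbs ≤ ρ * B := by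
            have h1 : ((α.natAbs : ℕ) : ℚ) = |r p| * β := by
              rw [Nat.cast_natAbs, Int.cast_abs, hα, abs_mul, Nat.abs_cast]
            have h2 : ((α.natAbs : ℕ) : ℚ) ≤ ρ * B := by
              rw [h1]
              exact mul_le_mul (hr p) (by exact_mod_cast hβB) (by positivity) (by positivity)
            exact_mod_cast h2
          have h1 := hN α.natAbs (Int.natAbs_pos.2 hα0) (by simpa using hαle)
          rw [← sv_one_sub hz] at h1
          have h2 : X.μ.E (fun x => V p ((X.T ^ (β : ℤ)) x) - z ^ α * V p x) =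
              (1 - z ^ α) * X.μ.E (V p) := by
            rw [X.μ.E_sub, X.μ.E_const_mul, X.inv_zpow _ _ ⟨1, hV p⟩]
            ring
          have h3 : ‖(1 - z ^ α) * X.μ.E (V p)‖ ≤ κ := by
            rw [← h2]
            exact X.μ.norm_E_le _ hx
          rw [norm_mul] at h3
          rw [le_div_iff₀ hδ]
          calc ‖X.μ.E (V p)‖ * δ ≤ ‖X.μ.E (V p)‖ * ‖1 - z ^ α‖ :=
                mul_le_mul_of_nonneg_left h1 (norm_nonneg _)
            _ ≤ κ := by rw [mul_comm]; exact h3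
        · push Not at hne
          have : V p = fun _ => 0 := funext hne
          rw [this, X.μ.E_const, norm_zero]
          positivity
    show ‖∑ p ∈ P, X.μ.E (V p)‖ ≤ _
    refine (norm_sum_le _ _).trans ?_
    refine (Finset.sum_le_sum fun p _ => key p).trans ?_
    rw [Finset.sum_const, nsmul_eq_mul]
    simp only [CharP.cast_eq_zero, zero_mul, zero_add, sv_K, mul_one]
    apply le_of_eq
    ring
  | cons c cs ih =>
    intro d hd B ρ hB hN Q r hr V hV hVQ hQ κ hκ hE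
    obtain ⟨d, rfl⟩ : ∃ e, d = e + 1 := ⟨cs.length, by rw [← hd, List.length_cons]⟩
    have hlen : cs.length = d := by
      rw [List.length_cons] at hd
      omega
    have hB0 : (0 : ℝ) ≤ B := Nat.cast_nonneg B
    have hterm : ∀ t : ℤ, t ≠ 0 → SV X P w cs (dV X V c t) ≤
        d * ((2 * w + 1 : ℕ) : ℝ) ^ (d - 1) * P.card +
          P.card * (sv_K w d ((B : ℝ) ^ 2) * (2 * B)) * κ / δ := by
      intro t ht
      have h1 := ih d hlen (B ^ 2) (2 * ρ) (Nat.one_le_pow _ _ hB) (by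
        intro N hN1 hN2
        apply hN N hN1
        refine hN2.trans (le_of_eq ?_)
        rw [← pow_mul, pow_succ 2 d]
        ring) (fun p => Q p ∧ Q (p + t)) (fun p => r p - r (p + t)) (by
        intro p
        push_cast
        have := abs_sub (r p) (r (p + t))
        have h3 := hr p
        have h4 := hr (p + t)
        linarith) (dV X V c t) (dV_norm X V hV c t) (by
        intro p x hx
        unfold dV at hx
        refine ⟨hVQ p x (left_ne_zero_of_mul hx), ?_⟩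
        apply hVQ (p + t) ((X.T ^ (-(t * c))) x)
        intro h0
        apply hx
        rw [h0, map_zero, mul_zero]) (by
        intro l hl hl0 p hver
        exact hQ (t :: l) (by rw [List.length_cons, hl]) (by
          intro s hs
          rcases List.mem_cons.1 hs with rfl | hs
          · exact ht
          · exact hl0 s hs) p hver) (2 * B * κ) (by positivity)
        (by
          have := Eig.dV hz hV hκ hE c t
          exact this)
      refine h1.trans (le_of_eq ?_)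
      push_cast
      ring
    have h0mem : (0 : ℤ) ∈ Icc (-(w : ℤ)) (w : ℤ) := by
      rw [Finset.mem_Icc]
      omega
    show ∑ t ∈ Icc (-(w : ℤ)) w, SV X P w cs (dV X V c t) ≤ _
    rw [← Finset.add_sum_erase _ _ h0mem]
    have ht0 := sv_trivial X P w cs (dV X V c 0) (dV_norm X V hV c 0)
    rw [hlen] at ht0
    have ht1 : ∑ t ∈ (Icc (-(w : ℤ)) (w : ℤ)).erase 0, SV X P w cs (dV X V c t) ≤
        (2 * w : ℝ) * (d * ((2 * w + 1 : ℕ) : ℝ) ^ (d - 1) * P.card +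
          P.card * (sv_K w d ((B : ℝ) ^ 2) * (2 * B)) * κ / δ) := by
      refine (Finset.sum_le_sum fun t ht => hterm t (Finset.ne_of_mem_erase ht)).trans ?_
      rw [Finset.sum_const, Finset.card_erase_of_mem h0mem, sv_card, nsmul_eq_mul]
      apply le_of_eq
      simp
    have hKn : 0 ≤ sv_K w d ((B : ℝ) ^ 2) := sv_K_nonneg w d _ (by positivity)
    have hP0 : (0 : ℝ) ≤ P.card := Nat.cast_nonneg _
    have hw0 : (0 : ℝ) ≤ w := Nat.cast_nonneg _
    have hd0 : (0 : ℝ) ≤ d := Nat.cast_nonneg _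
    have hA : (2 * w : ℝ) * (d * ((2 * w + 1 : ℕ) : ℝ) ^ (d - 1) * P.card) ≤
        d * ((2 * w + 1 : ℕ) : ℝ) ^ d * P.card := by
      rcases Nat.eq_zero_or_pos d with h | h
      · subst h
        simp
      · obtain ⟨e, rfl⟩ : ∃ e, d = e + 1 := ⟨d - 1, by omega⟩
        rw [Nat.add_sub_cancel, pow_succ]
        have h5 : (0 : ℝ) ≤ ((e + 1 : ℕ) : ℝ) * ((2 * w + 1 : ℕ) : ℝ) ^ e * P.card := by positivity
        have h6 : ((2 * w + 1 : ℕ) : ℝ) = 2 * w + 1 := by push_cast; ring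
        calc (2 * w : ℝ) * (((e + 1 : ℕ) : ℝ) * ((2 * w + 1 : ℕ) : ℝ) ^ e * P.card)
            ≤ (2 * w + 1) * (((e + 1 : ℕ) : ℝ) * ((2 * w + 1 : ℕ) : ℝ) ^ e * P.card) := by
              nlinarith
          _ = ((e + 1 : ℕ) : ℝ) * (((2 * w + 1 : ℕ) : ℝ) ^ e * ((2 * w + 1 : ℕ) : ℝ)) * P.card := by
              rw [h6]
              ring
    have hBd : (2 * w : ℝ) * (P.card * (sv_K w d ((B : ℝ) ^ 2) * (2 * B)) * κ / δ) ≤
        P.card * sv_K w (d + 1) B * κ / δ := by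
      have h5 : (0 : ℝ) ≤ P.card * (sv_K w d ((B : ℝ) ^ 2) * (2 * B)) * κ / δ := by positivity
      have h6 : P.card * sv_K w (d + 1) B * κ / δ =
          (2 * w + 1) * (P.card * (sv_K w d ((B : ℝ) ^ 2) * (2 * B)) * κ / δ) := by
        show P.card * (((2 * w + 1 : ℕ) : ℝ) * (sv_K w d ((B : ℝ) ^ 2) * (2 * B))) * κ / δ = _
        push_cast
        ring
      rw [h6]
      nlinarith
    rw [mul_add] at ht1
    have hC : (((d + 1 : ℕ) : ℝ)) * ((2 * w + 1 : ℕ) : ℝ) ^ (d + 1 - 1) * P.card =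
        ((2 * w + 1 : ℕ) : ℝ) ^ d * P.card + d * ((2 * w + 1 : ℕ) : ℝ) ^ d * P.card := by
      rw [Nat.add_sub_cancel]
      push_cast
      ring
    rw [hC]
    linarith

private theorem sv_ver_mono (l : List ℤ) : ∀ (Q Q' : ℤ → Prop), (∀ p, Q p → Q' p) →
    ∀ p, Ver l Q p → Ver l Q' p := by
  induction l with
  | nil =>
    intro Q Q' h p hp
    exact h p hp
  | cons t l ih =>
    intro Q Q' h p hp
    exact ih _ _ (fun q hq => ⟨h q hq.1, h _ hq.2⟩) p hp

theorem SV_le (w : ℕ) (hw : 1 ≤ w) (P : Finset ℤ) (hP : ∀ p ∈ P, (w : ℤ) ≤ p ∧ p ≤ 2 * w)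
    (d : ℕ) (δ : ℝ) (hδ : 0 < δ) :
    ∃ K : ℝ, 0 ≤ K ∧ ∀ (X : Sys) (z : ℂ), ‖z‖ = 1 →
      (∀ N : ℕ, 1 ≤ N → N ≤ 2 ^ d * (2 * w) ^ (2 ^ d) → δ ≤ ‖1 - z ^ N‖) →
      ∀ cs : List ℤ, cs.length = d → ∀ V : ℤ → X.S → ℂ, (∀ p x, ‖V p x‖ ≤ 1) →
      (∀ p, p ∉ P → ∀ x, V p x = 0) → ∀ κ : ℝ, 0 ≤ κ →
      Eig X z V (fun p => 1 / (p : ℚ)) (2 * w) κ →
      SV X P w cs V ≤ d * ((2 * w + 1 : ℕ) : ℝ) ^ (d - 1) * P.card + K * κ := by
  refine ⟨P.card * sv_K w d ((2 * w : ℕ) : ℝ) / δ, ?_, ?_⟩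
  · have := sv_K_nonneg w d ((2 * w : ℕ) : ℝ) (Nat.cast_nonneg _)
    positivity
  · intro X z hz hN cs hcs V hV hV0 κ hκ hE
    have h1 := sv_gen w P hz hδ cs d hcs (2 * w) 1 (by omega) (by
      intro N hN1 hN2
      apply hN N hN1
      rwa [one_mul] at hN2) (fun p => p ∈ P) (fun p => 1 / (p : ℚ)) (by
      intro p
      rw [Nat.cast_one, abs_div, abs_one]
      rcases eq_or_ne p 0 with h | h
      · subst h
        simp
      · have h2 : (1 : ℚ) ≤ |(p : ℚ)| := by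
          rw [← Int.cast_abs]
          exact_mod_cast Int.one_le_abs h
        rw [div_le_one (by linarith)]
        exact h2) V hV (by
      intro p x hx
      by_contra hp
      exact hx (hV0 p hp x)) (by
      intro l _ hl0 p hver
      apply rr_ne_zero l hl0 p
      refine sv_ver_mono l _ _ ?_ p hver
      intro q hq
      have := (hP q hq).1
      omega) κ hκ hE
    refine h1.trans (le_of_eq ?_)
    ring

end DG.BLP
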