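import Pool.Agent.Helper53.DG.Core
import Pool.Agent.Helper53.DG.Phase

/-!
# DG-A213: the mean square of `Γ`

PROOF. `Gam_pd`: `Gam X P g` is positive definite: `PD.sum` of `PD.autocorr` for the systems `powS X p`
(`(powS X p).T ^ m = X.T ^ (p m)`), and `(Gam .. 0).re ≤ 1` for functions bounded by `1`.
`step`: `a = Gam X P (gL X L)`, `κ = (cz.E |a|²).re / 8`; `exists_phase`: `z` with `κ ≤ (sf n (a z^·)).re` for all
`n ≥ 1`. Case 1: `z^N ≠ 1` for all `1 ≤ N ≤ 2^R (2w)^(2^R)`: `core_le` with `δ0 = κ`: `κ ≤ tau`. Case 2: `z^N = 1` for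
some such `N`; `N ∣ n1 R w`, `n1 = N N'`. For `l ≥ 1`: `κ ≤ (sf (N (N' l)) (a z^·)).re ≤ (sf (N' l) (m ↦ a (N m) z^(N m))).re`
(`sf_mul_le`, `PD.twist`) `= (sf (N' l) (a (N ·))).re ≤ (sf l (a (N (N' ·)))).re` (`sf_mul_le`, `PD.comp_mul`)
`= (sf l (a (n1 ·))).re`; `le_cz_of_forall`: `κ ≤ (cz.E (a (n1 ·))).re`. In both cases
`8 κ ≤ 8 tau + 8 (cz.E (a (n1 ·))).re` since both terms are `≥ 0` (`cz_nonneg`, `PD.comp_mul`).
-/

set_option autoImplicit false

namespace DG.BLP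

open Finset Filter Topology DG

theorem gL_norm (X : Sys) (L : List ((X.S → ℂ) × ℤ)) (hL : ∀ B ∈ L, ∀ x, ‖B.1 x‖ ≤ 1) (p : ℤ)
    (x : X.S) : ‖gL X L p x‖ ≤ 1 := by
  induction L with
  | nil => simp [gL]
  | cons A L ih =>
    have h1 : gL X (A :: L) p x = A.1 ((X.T ^ (p * A.2)) x) * gL X L p x := by
      simp [gL]
    rw [h1, norm_mul]
    exact mul_le_one₀ (hL A List.mem_cons_self _) (norm_nonneg _)
      (ih fun B hB => hL B (List.mem_cons_of_mem _ hB))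

theorem Gam_pd (X : Sys) (P : Finset ℕ) (g : ℕ → X.S → ℂ) (hg : ∀ p x, ‖g p x‖ ≤ 1) :
    PD (Gam X P g) := by
  have h : ∀ p ∈ P, PD (fun m => X.μ.E (fun x => g p x *
      (starRingEnd ℂ) (g p ((X.T ^ (m * (p : ℤ))) x)))) := by
    intro p _
    have h1 : PD (fun m => X.μ.E (fun x => g p x *
        (starRingEnd ℂ) (g p (((X.T ^ p) ^ m) x)))) :=
      PD.autocorr (powS X p) (g p) ⟨1, hg p⟩
    have h2 : ∀ m : ℤ, (X.T ^ p) ^ m = X.T ^ (m * (p : ℤ)) := by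
      intro m
      rw [← zpow_natCast, ← zpow_mul, mul_comm]
    simp only [h2] at h1
    exact h1
  have h3 := PD.sum P (fun p m => X.μ.E (fun x => g p x *
      (starRingEnd ℂ) (g p ((X.T ^ (m * (p : ℤ))) x)))) h (1 / (P.card : ℝ)) (by positivity)
  have h4 : Gam X P g = fun m => (((1 / (P.card : ℝ) : ℝ)) : ℂ) * ∑ p ∈ P,
      X.μ.E (fun x => g p x * (starRingEnd ℂ) (g p ((X.T ^ (m * (p : ℤ))) x))) := by
    funext m
    rw [Gam]
    push_cast
    rfl
  rw [h4]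
  exact h3

private theorem Gam_zero (X : Sys) (P : Finset ℕ) (hPn : P.Nonempty) (g : ℕ → X.S → ℂ)
    (hg : ∀ p x, ‖g p x‖ ≤ 1) : (Gam X P g 0).re ≤ 1 := by
  refine (Complex.re_le_norm _).trans ?_
  have hc : (0 : ℝ) < P.card := by exact_mod_cast hPn.card_pos
  rw [Gam, norm_mul]
  have h1 : ‖∑ p ∈ P, X.μ.E (fun x => g p x *
      (starRingEnd ℂ) (g p ((X.T ^ (0 * (p : ℤ))) x)))‖ ≤ P.card := by
    refine (norm_sum_le _ _).trans ?_
    calc _ ≤ ∑ _p ∈ P, (1 : ℝ) := by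
          refine sum_le_sum fun p _ => X.μ.norm_E_le _ fun x => ?_
          rw [norm_mul, RCLike.norm_conj]
          exact mul_le_one₀ (hg _ _) (norm_nonneg _) (hg _ _)
      _ = P.card := by simp
  have h2 : ‖(1 / (P.card : ℂ))‖ = 1 / (P.card : ℝ) := by
    rw [norm_div, norm_one, Complex.norm_natCast]
  rw [h2, one_div, inv_mul_le_iff₀ hc, mul_one]
  exact h1

private theorem tau_nonneg (R w : ℕ) (P : Finset ℕ) : 0 ≤ tau R w P := by
  unfold tau
  positivity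

theorem step (X : Sys) (w : ℕ) (hw : 1 ≤ w) (P : Finset ℕ) (hPn : P.Nonempty)
    (hP : ∀ p ∈ P, w ≤ p ∧ p ≤ 2 * w) (L : List ((X.S → ℂ) × ℤ))
    (hL : ∀ B ∈ L, ∀ x, ‖B.1 x‖ ≤ 1) (hL1 : 1 ≤ L.length) :
    (cz.E (fun j => ((‖Gam X P (fun p => gL X L p) j‖ ^ 2 : ℝ) : ℂ))).re ≤
      8 * tau L.length w P +
        8 * (cz.E (fun j => Gam X P (fun p => gL X L p) ((n1 L.length w : ℤ) * j))).re := by
  have hg : ∀ (p : ℕ) x, ‖gL X L (p : ℤ) x‖ ≤ 1 := fun p x => gL_norm X L hL p x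
  have ha := Gam_pd X P (fun p => gL X L p) hg
  have ha1 := Gam_zero X P hPn (fun p => gL X L p) hg
  obtain ⟨z, hz, hsf⟩ := exists_phase ha ha1
  have ht := tau_nonneg L.length w P
  have hc := (cz_nonneg (ha.comp_mul (n1 L.length w : ℤ))).1
  by_cases hN : ∀ N : ℕ, 1 ≤ N → N ≤ 2 ^ L.length * (2 * w) ^ (2 ^ L.length) → z ^ N ≠ 1
  · have h1 := core_le X w hw P hPn hP L hL hL1 z hz hN _ hsf
    linarith
  · push Not at hN
    obtain ⟨N, hN1, hN2, hzN⟩ := hN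
    have hdvd : N ∣ n1 L.length w := Nat.dvd_factorial hN1 hN2
    obtain ⟨N', hN'⟩ := hdvd
    have hN'1 : 1 ≤ N' := by
      rcases Nat.eq_zero_or_pos N' with h0 | h0
      · exfalso
        have := n1_pos L.length w
        rw [hN', h0, mul_zero] at this
        exact lt_irrefl _ this
      · exact h0
    have key : (1 / 8) * (cz.E (fun j => ((‖Gam X P (fun p => gL X L p) j‖ ^ 2 : ℝ) : ℂ))).re ≤
        (cz.E (fun j => Gam X P (fun p => gL X L p) ((n1 L.length w : ℤ) * j))).re := by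
      refine le_cz_of_forall (ha.comp_mul (n1 L.length w : ℤ)).bd _ fun l hl => ?_
      have hl' : 1 ≤ N' * l := Nat.mul_pos hN'1 hl
      have e1 := hsf (N * (N' * l)) (Nat.mul_pos hN1 hl')
      have e2 := sf_mul_le (ha.twist z hz) N (N' * l) hN1 hl'
      have e3 : (fun m : ℤ => Gam X P (fun p => gL X L p) ((N : ℤ) * m) * z ^ ((N : ℤ) * m)) =
          fun m : ℤ => Gam X P (fun p => gL X L p) ((N : ℤ) * m) := by
        funext m
        rw [zpow_mul, zpow_natCast, hzN, one_zpow, mul_one]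
      rw [e3] at e2
      have e4 := sf_mul_le (ha.comp_mul (N : ℤ)) N' l hN'1 hl
      have e5 : (fun m : ℤ => Gam X P (fun p => gL X L p) ((N : ℤ) * ((N' : ℤ) * m))) =
          fun m : ℤ => Gam X P (fun p => gL X L p) ((n1 L.length w : ℤ) * m) := by
        funext m
        rw [hN']
        push_cast
        rw [mul_assoc]
      rw [e5] at e4
      exact e1.trans (e2.trans e4)
    linarith

end DG.BLP
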