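import Pool.Agent.Helper53.DG.Defs

/-!
# DG-A205: one van der Corput step

PROOF. Write `u i m x = F i z.1 ...`. For `z = (a, m)` put
`U(a,m,x) = ∏_{1 ≤ i ≤ k+1} F i a (T^(i m) x)` (the factors `i ≥ 1` of `cor X (k+1)`), so
`cor X (k+1) (F · a) m x = F 0 a x * U(a,m,x)` (`T^0 = 1`, `prod_range_succ'`). All functions are bounded by `1`.
Fix `n ≥ 1`.
1. By `hM` (iterated): `M.E (z ↦ E[F 0 a * U(a,m,·)]) = M.E (z ↦ E[F 0 a * (1/n) ∑_{s<n} U(a,m+s,·)])`.
2. `‖M.E φ‖² ≤ M.R |φ|²` (`Mean.sq_norm_E_le`), `|E[F 0 a * G]|² ≤ E |G|²` (`Mean.cs_one`): so the square of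
   the left side is `≤ M.E (z ↦ E |(1/n) ∑_s U(a,m+s,·)|²)
   = n⁻² ∑_{s,s'<n} M.E (z ↦ E[U(a,m+s,·) conj U(a,m+s',·)])` (a real number).
3. By `hM` again (translate `m` by `-s`, i.e. replace `m + s` by `m`) the `(s,s')` term is
   `M.E (z ↦ E[U(a,m,·) conj U(a,m+(s'-s),·)]) = γ(s'-s)`, and, applying `inv_zpow (-m)` inside `E`:
   `E[U(a,m,x) conj U(a,m+h,x)] = E ∏_{i ≤ k} F (i+1) a (T^(i m) x) conj F (i+1) a (T^(i m + (i+1) h) x)`,
   which is `E (cor X k (F'_h · a) m)` with `F'_h i x = F (i+1) a x * conj (F (i+1) a (T^((i+1) h) x))`.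
4. So `‖...‖² ≤ n⁻² ∑_{s,s'<n} (γ(s'-s)).re = (sf n γ).re` (swap `s, s'`) `= ((fej (n-1)).E γ).re` for all
   `n ≥ 1`; take the limit along the hyperfilter (`cz_tendsto`, `γ` is bounded by `1`).
(All functions of `z`, `x` are bounded by `1`: `prod_norm_le_one`, `Mean.norm_E_le`.)
-/

set_option autoImplicit false

namespace DG.BLP

open Finset Filter Topology DG

private theorem k_shift_nat {ι : Type} {M : Mean (ι × ℤ)} (hM : MInv M) (n : ℕ) (f : ι × ℤ → ℂ)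
    (hf : Bd f) : M.E (fun z => f (z.1, z.2 + (n : ℤ))) = M.E f := by
  induction n with
  | zero => simp
  | succ n ih =>
    rw [← ih, ← hM (fun z => f (z.1, z.2 + (n : ℤ))) (hf.comp _)]
    congr 1
    funext z
    congr 2
    push_cast
    ring

private theorem k_shift {ι : Type} {M : Mean (ι × ℤ)} (hM : MInv M) (n : ℤ) (f : ι × ℤ → ℂ)
    (hf : Bd f) : M.E (fun z => f (z.1, z.2 + n)) = M.E f := by
  rcases Int.eq_nat_or_neg n with ⟨m, rfl | rfl⟩
  · exact k_shift_nat hM m f hf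
  · have h := k_shift_nat hM m (fun z => f (z.1, z.2 + -(m : ℤ))) (hf.comp _)
    rw [← h]
    congr 1
    funext z
    congr 2
    ring

theorem vdc1 {ι : Type} (M : Mean (ι × ℤ)) (hM : MInv M) (X : Sys) (k : ℕ)
    (F : ℕ → ι → X.S → ℂ) (hF : ∀ i a x, ‖F i a x‖ ≤ 1) :
    ‖M.E (fun z => X.μ.E (cor X (k + 1) (fun i => F i z.1) z.2))‖ ^ 2 ≤
      (cz.E (fun h => M.E (fun z => X.μ.E (cor X k
        (fun i x => F (i + 1) z.1 x *
          (starRingEnd ℂ) (F (i + 1) z.1 ((X.T ^ (((i : ℤ) + 1) * h)) x))) z.2)))).re := by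
  classical
  -- the product of the last factors
  set U : ι → ℤ → X.S → ℂ := fun a m x =>
    ∏ i ∈ range (k + 1), F (i + 1) a ((X.T ^ (((i : ℤ) + 1) * m)) x) with hU
  have hUb : ∀ a m x, ‖U a m x‖ ≤ 1 := fun a m x =>
    prod_norm_le_one _ _ fun i _ => hF _ _ _
  have hcor : ∀ (a : ι) (m : ℤ) (x : X.S),
      cor X (k + 1) (fun i => F i a) m x = F 0 a x * U a m x := by
    intro a m x
    unfold cor
    rw [Finset.prod_range_succ', mul_comm]
    have h0 : F 0 a ((X.T ^ (((0 : ℕ) : ℤ) * m)) x) = F 0 a x := by simp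
    exact congrArg₂ (· * ·) h0 rfl
  set L : ℂ := M.E (fun z => X.μ.E (cor X (k + 1) (fun i => F i z.1) z.2)) with hL
  have hLeq : L = M.E (fun z => X.μ.E (fun x => F 0 z.1 x * U z.1 z.2 x)) := by
    rw [hL]
    congr 1
    funext z
    congr 1
    funext x
    exact hcor z.1 z.2 x
  have hEb : ∀ (f : X.S → ℂ), (∀ x, ‖f x‖ ≤ 1) → ‖X.μ.E f‖ ≤ 1 := fun f hf => X.μ.norm_E_le f hf
  have hmul1 : ∀ (f g : X.S → ℂ), (∀ x, ‖f x‖ ≤ 1) → (∀ x, ‖g x‖ ≤ 1) →
      ∀ x, ‖f x * g x‖ ≤ 1 := by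
    intro f g hf hg x
    rw [norm_mul]
    exact mul_le_one₀ (hf x) (norm_nonneg _) (hg x)
  have hshiftL : ∀ s : ℕ, M.E (fun z => X.μ.E (fun x => F 0 z.1 x * U z.1 (z.2 + (s : ℤ)) x)) =
      L := by
    intro s
    rw [hLeq]
    exact k_shift hM (s : ℤ) (fun z => X.μ.E (fun x => F 0 z.1 x * U z.1 z.2 x))
      ⟨1, fun z => hEb _ (hmul1 _ _ (hF 0 z.1) (hUb z.1 z.2))⟩
  -- `γ`
  set γ : ℤ → ℂ := fun h => M.E (fun z => X.μ.E (cor X k
        (fun i x => F (i + 1) z.1 x *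
          (starRingEnd ℂ) (F (i + 1) z.1 ((X.T ^ (((i : ℤ) + 1) * h)) x))) z.2)) with hγ
  have hγb : Bd γ := by
    refine ⟨1, fun h => M.norm_E_le _ fun z => hEb _ fun x => ?_⟩
    refine prod_norm_le_one _ _ fun i _ => ?_
    rw [norm_mul, RCLike.norm_conj]
    exact mul_le_one₀ (hF _ _ _) (norm_nonneg _) (hF _ _ _)
  have hUU : ∀ (a : ι) (m h : ℤ), X.μ.E (fun x => U a m x * (starRingEnd ℂ) (U a (m + h) x)) =
      X.μ.E (cor X k (fun i x => F (i + 1) a x *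
          (starRingEnd ℂ) (F (i + 1) a ((X.T ^ (((i : ℤ) + 1) * h)) x))) m) := by
    intro a m h
    have hb : Bd (fun x => U a m x * (starRingEnd ℂ) (U a (m + h) x)) := by
      refine ⟨1, hmul1 _ _ (hUb a m) fun x => ?_⟩
      rw [RCLike.norm_conj]
      exact hUb _ _ _
    rw [← X.inv_zpow (-m) _ hb]
    congr 1
    funext x
    unfold cor
    simp only [hU]
    rw [map_prod, ← Finset.prod_mul_distrib]
    refine Finset.prod_congr rfl fun i _ => ?_
    have h1 : (X.T ^ (((i : ℤ) + 1) * m)) ((X.T ^ (-m)) x) = (X.T ^ ((i : ℤ) * m)) x := by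
      rw [← Equiv.Perm.mul_apply, ← zpow_add]
      congr 2
      ring
    have h2 : (X.T ^ (((i : ℤ) + 1) * (m + h))) ((X.T ^ (-m)) x) =
        (X.T ^ (((i : ℤ) + 1) * h)) ((X.T ^ ((i : ℤ) * m)) x) := by
      rw [← Equiv.Perm.mul_apply, ← Equiv.Perm.mul_apply, ← zpow_add, ← zpow_add]
      congr 2
      ring
    rw [h1, h2]
  have hγeq : ∀ s s' : ℕ, M.E (fun z => X.μ.E (fun x => U z.1 (z.2 + (s : ℤ)) x *
      (starRingEnd ℂ) (U z.1 (z.2 + (s' : ℤ)) x))) = γ ((s' : ℤ) - (s : ℤ)) := by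
    intro s s'
    have h1 := k_shift hM (s : ℤ) (fun z => X.μ.E (fun x => U z.1 z.2 x *
      (starRingEnd ℂ) (U z.1 (z.2 + ((s' : ℤ) - (s : ℤ))) x)))
      ⟨1, fun z => hEb _ (hmul1 _ _ (hUb z.1 z.2) fun x => by
        rw [RCLike.norm_conj]; exact hUb _ _ _)⟩
    have h2 : M.E (fun z => X.μ.E (fun x => U z.1 z.2 x *
      (starRingEnd ℂ) (U z.1 (z.2 + ((s' : ℤ) - (s : ℤ))) x))) = γ ((s' : ℤ) - (s : ℤ)) := by
      simp only [hγ]
      congr 1
      funext z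
      exact hUU z.1 z.2 _
    have h3 : ∀ m : ℤ, m + (s : ℤ) + ((s' : ℤ) - (s : ℤ)) = m + (s' : ℤ) := fun m => by ring
    simp only [h3] at h1
    rw [← h2]
    exact h1
  -- the main estimate
  have hmain : ∀ n : ℕ, 1 ≤ n → ‖L‖ ^ 2 ≤ (sf n γ).re := by
    intro n hn
    have hn0 : (n : ℂ) ≠ 0 := by exact_mod_cast (by omega : n ≠ 0)
    set G : ι × ℤ → X.S → ℂ := fun z x =>
      (1 / (n : ℂ)) * ∑ s ∈ range n, U z.1 (z.2 + (s : ℤ)) x with hG
    have hGb : ∀ z x, ‖G z x‖ ≤ 1 := by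
      intro z x
      simp only [hG]
      rw [norm_mul, norm_div, norm_one, Complex.norm_natCast]
      have h1 : ‖∑ s ∈ range n, U z.1 (z.2 + (s : ℤ)) x‖ ≤ n := by
        refine (norm_sum_le _ _).trans ?_
        calc ∑ s ∈ range n, ‖U z.1 (z.2 + (s : ℤ)) x‖ ≤ ∑ _s ∈ range n, (1 : ℝ) :=
              Finset.sum_le_sum fun s _ => hUb _ _ _
          _ = n := by simp
      have hn1 : (0 : ℝ) < n := by exact_mod_cast (by omega : 0 < n)
      rw [one_div, inv_mul_le_iff₀ hn1, mul_one]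
      exact h1
    have hL2 : L = M.E (fun z => X.μ.E (fun x => F 0 z.1 x * G z x)) := by
      have h1 : (fun z : ι × ℤ => X.μ.E (fun x => F 0 z.1 x * G z x)) = fun z =>
          (1 / (n : ℂ)) * ∑ s ∈ range n,
            X.μ.E (fun x => F 0 z.1 x * U z.1 (z.2 + (s : ℤ)) x) := by
        funext z
        rw [← X.μ.E_sum, ← X.μ.E_const_mul]
        congr 1
        funext x
        simp only [hG]
        rw [Finset.mul_sum, Finset.mul_sum, Finset.mul_sum]
        refine Finset.sum_congr rfl fun s _ => ?_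
        ring
      rw [h1, M.E_const_mul, M.E_sum, Finset.sum_congr rfl fun s _ => hshiftL s,
        Finset.sum_const, Finset.card_range, nsmul_eq_mul, ← mul_assoc, one_div,
        inv_mul_cancel₀ hn0, one_mul]
    have hb1 : ∀ z : ι × ℤ, ‖X.μ.E (fun x => F 0 z.1 x * G z x)‖ ≤ 1 := fun z =>
      hEb _ (hmul1 _ _ (hF 0 z.1) (hGb z))
    have h2 : ‖L‖ ^ 2 ≤ M.R (fun z => X.μ.N2 (G z)) := by
      rw [hL2]
      refine (M.sq_norm_E_le _ ⟨1, hb1⟩).trans ?_
      unfold Mean.N2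
      refine M.R_mono _ _ (fun z => ?_) (C := 1) (fun z => ?_) (fun z => ?_)
      · exact X.μ.cs_one _ _ (hF 0 z.1) ⟨1, hGb z⟩
      · rw [abs_of_nonneg (by positivity)]
        exact pow_le_one₀ (norm_nonneg _) (hb1 z)
      · change |X.μ.N2 (G z)| ≤ 1
        rw [abs_of_nonneg (X.μ.N2_nonneg _ ⟨1, hGb z⟩)]
        have h3 := X.μ.N2_le _ (hGb z)
        rwa [one_pow] at h3
    have h3 : ((M.R (fun z => X.μ.N2 (G z)) : ℝ) : ℂ) = sf n γ := by
      rw [← M.E_ofReal (fun z => X.μ.N2 (G z)) (C := 1) (fun z => by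
        rw [abs_of_nonneg (X.μ.N2_nonneg _ ⟨1, hGb z⟩)]
        have h3 := X.μ.N2_le _ (hGb z)
        rwa [one_pow] at h3)]
      have h4 : (fun z : ι × ℤ => ((X.μ.N2 (G z) : ℝ) : ℂ)) = fun z =>
          (1 / (n : ℂ) ^ 2) * ∑ s' ∈ range n, ∑ s ∈ range n,
            X.μ.E (fun x => U z.1 (z.2 + (s : ℤ)) x *
              (starRingEnd ℂ) (U z.1 (z.2 + (s' : ℤ)) x)) := by
        funext z
        rw [← X.μ.N2_eq _ ⟨1, hGb z⟩]
        have h5 : ∀ s' : ℕ, ∑ s ∈ range n, X.μ.E (fun x => U z.1 (z.2 + (s : ℤ)) x *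
              (starRingEnd ℂ) (U z.1 (z.2 + (s' : ℤ)) x)) =
            X.μ.E (fun x => ∑ s ∈ range n, U z.1 (z.2 + (s : ℤ)) x *
              (starRingEnd ℂ) (U z.1 (z.2 + (s' : ℤ)) x)) := fun s' =>
          (X.μ.E_sum _ _).symm
        simp only [h5]
        rw [← X.μ.E_sum, ← X.μ.E_const_mul]
        congr 1
        funext x
        simp only [hG]
        rw [map_mul, map_sum, Finset.sum_comm, ← Finset.sum_mul_sum]
        have h6 : (starRingEnd ℂ) (1 / (n : ℂ)) = 1 / (n : ℂ) := by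
          rw [map_div₀, map_one, Complex.conj_natCast]
        rw [h6]
        field_simp
      rw [h4, M.E_const_mul, M.E_sum]
      have h7 : ∀ s' : ℕ, M.E (fun z => ∑ s ∈ range n,
            X.μ.E (fun x => U z.1 (z.2 + (s : ℤ)) x *
              (starRingEnd ℂ) (U z.1 (z.2 + (s' : ℤ)) x))) =
          ∑ s ∈ range n, γ ((s' : ℤ) - (s : ℤ)) := by
        intro s'
        rw [M.E_sum]
        exact Finset.sum_congr rfl fun s _ => hγeq s s'
      rw [Finset.sum_congr rfl fun s' _ => h7 s']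
      unfold sf
      rw [one_div, inv_mul_eq_div]
    have h8 := congrArg Complex.re h3
    rw [Complex.ofReal_re] at h8
    rw [← h8]
    exact h2
  -- the limit
  have hlim := (Complex.continuous_re.tendsto _).comp (cz_tendsto γ hγb)
  refine ge_of_tendsto hlim (Eventually.of_forall fun N => ?_)
  rw [Function.comp_apply, fej_eq_sf]
  exact hmain (N + 1) (by omega)

end DG.BLP
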