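import Pool.Agent.Helper53.DG.Vdc1
import Pool.Agent.Helper53.DG.BoxPd

/-!
# DG-A207: `k` van der Corput steps

PROOF. `pow_mean`: for `0 ≤ u ≤ 1`: `(μ.R u)^(2^n) ≤ μ.R (u^(2^n))`: induction on `n`, step
`(μ.R v)² ≤ μ.R (v²)` for `0 ≤ v ≤ 1` (`Mean.sq_norm_E_le` for `f = (v : ℂ)`, or `0 ≤ μ.R ((v - μ.R v)²)`).
`vdcK`: induction on `k ≥ 1`. `k = 1`: `vdc1` with `k = 0`: the inner function is
`cor X 0 .. = g x * conj (g (T^(1*h) x))` (`T^0 = 1`), so the right side is `(cz.E (h ↦ M.E (const))).re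
= (box X [1] g).re` (`Mean.E_const`; `steps 1 = [0 + 1]`).
`k → k + 1` (`k ≥ 1`): `vdc1`: `‖D‖² ≤ (cz.E (h ↦ D_h)).re`, `D_h = M.E (z ↦ E (cor X k (F'_h · z.1) z.2))`, `F'_h`
bounded by `1`, with last function `F'_h k a = g x * conj (g (T^((k+1) h) x))` for all `a`. So
`‖D‖^(2^(k+1)) ≤ ((cz.E D_·).re)^(2^k) ≤ (cz.R ‖D_·‖)^(2^k) ≤ cz.R (‖D_·‖^(2^k))` (`pow_mean`)
`≤ cz.R (h ↦ (box X (steps k) (g conj g∘T^((k+1)h))).re)` (induction hypothesis for every `h`)
`= (box X (steps (k+1)) g).re` (`Mean.re_E`; `steps (k+1) = ((k:ℤ)+1) :: steps k`). Note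
`0 ≤ (cz.E D_·).re` because it is `≥ ‖D‖²`.
-/

set_option autoImplicit false

namespace DG.BLP

open Finset Filter Topology DG

/-- the square of the mean is at most the mean of the square -/
private theorem sq_mean {S : Type} (μ : Mean S) (v : S → ℝ) (h0 : ∀ x, 0 ≤ v x)
    (h1 : ∀ x, v x ≤ 1) : (μ.R v) ^ 2 ≤ μ.R (fun x => v x ^ 2) := by
  have hab : ∀ x, |v x| ≤ 1 := fun x => by rw [abs_of_nonneg (h0 x)]; exact h1 x
  have h := μ.sq_norm_E_le (fun x => (v x : ℂ)) (Bd.ofReal_of_bdd hab)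
  have h2 : μ.N2 (fun x => (v x : ℂ)) = μ.R (fun x => v x ^ 2) := by
    unfold Mean.N2
    congr 1
    funext x
    rw [Complex.norm_real, Real.norm_eq_abs, sq_abs]
  rw [h2] at h
  refine le_trans ?_ h
  refine pow_le_pow_left₀ (μ.R_nonneg v h0 h1) ?_ 2
  exact Complex.re_le_norm _

theorem pow_mean {S : Type} (μ : Mean S) (u : S → ℝ) (h0 : ∀ x, 0 ≤ u x) (h1 : ∀ x, u x ≤ 1)
    (n : ℕ) : (μ.R u) ^ (2 ^ n) ≤ μ.R (fun x => u x ^ (2 ^ n)) := by
  induction n with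
  | zero => simp
  | succ n ih =>
    have e : (μ.R u) ^ (2 ^ (n + 1)) = ((μ.R u) ^ (2 ^ n)) ^ 2 := by
      rw [← pow_mul, pow_succ]
    have e2 : (fun x => u x ^ (2 ^ (n + 1))) = fun x => (u x ^ (2 ^ n)) ^ 2 := by
      funext x
      rw [← pow_mul, pow_succ]
    rw [e, e2]
    refine le_trans (pow_le_pow_left₀ (pow_nonneg (μ.R_nonneg u h0 h1) _) ih 2) ?_
    exact sq_mean μ _ (fun x => pow_nonneg (h0 x) _) (fun x => pow_le_one₀ (h0 x) (h1 x))

theorem vdcK {ι : Type} (M : Mean (ι × ℤ)) (hM : MInv M) (X : Sys) (k : ℕ) (hk : 1 ≤ k)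
    (F : ℕ → ι → X.S → ℂ) (hF : ∀ i a x, ‖F i a x‖ ≤ 1) (g : X.S → ℂ) (hg : ∀ a, F k a = g) :
    ‖M.E (fun z => X.μ.E (cor X k (fun i => F i z.1) z.2))‖ ^ (2 ^ k) ≤
      (box X (steps k) g).re := by
  induction k, hk using Nat.le_induction generalizing F g with
  | base =>
    have h := vdc1 M hM X 0 F hF
    refine (le_of_eq ?_).trans (h.trans (le_of_eq ?_))
    · rw [pow_one]
    · have e : (fun h : ℤ => M.E (fun z => X.μ.E (cor X 0
        (fun i x => F (i + 1) z.1 x *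
          (starRingEnd ℂ) (F (i + 1) z.1 ((X.T ^ (((i : ℤ) + 1) * h)) x))) z.2))) =
          fun h : ℤ => X.μ.E (fun x => g x *
            (starRingEnd ℂ) (g ((X.T ^ ((((0 : ℕ) : ℤ) + 1) * h)) x))) := by
        funext h
        have e1 : (fun z : ι × ℤ => X.μ.E (cor X 0
            (fun i x => F (i + 1) z.1 x *
              (starRingEnd ℂ) (F (i + 1) z.1 ((X.T ^ (((i : ℤ) + 1) * h)) x))) z.2)) =
            fun _ => X.μ.E (fun x => g x *
              (starRingEnd ℂ) (g ((X.T ^ ((((0 : ℕ) : ℤ) + 1) * h)) x))) := by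
          funext z
          congr 1
          funext x
          have e0 : F (0 + 1) z.1 = g := hg z.1
          unfold cor
          rw [zero_add, Finset.prod_range_one]
          simp only [e0]
          simp
        rw [e1, M.E_const]
      rw [e]
      rfl
  | succ k hk ih =>
    have hne : Nonempty ι := by
      by_contra hno
      rw [not_nonempty_iff] at hno
      have h1 := M.one
      have h2 : (fun _ : ι × ℤ => (1 : ℂ)) = 0 := by
        funext z
        exact (hno.false z.1).elim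
      rw [h2, map_zero] at h1
      exact zero_ne_one h1
    obtain ⟨a0⟩ := hne
    have hgb : ∀ x, ‖g x‖ ≤ 1 := fun x => by
      rw [← hg a0]
      exact hF (k + 1) a0 x
    have hmul : ∀ a b : ℂ, ‖a‖ ≤ 1 → ‖b‖ ≤ 1 → ‖a * (starRingEnd ℂ) b‖ ≤ 1 := fun a b ha hb => by
      rw [norm_mul, RCLike.norm_conj]
      exact mul_le_one₀ ha (norm_nonneg _) hb
    set F' : ℤ → ℕ → ι → X.S → ℂ := fun h i a x => F (i + 1) a x *
      (starRingEnd ℂ) (F (i + 1) a ((X.T ^ (((i : ℤ) + 1) * h)) x)) with hF'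
    set D : ℤ → ℂ := fun h => M.E (fun z => X.μ.E (cor X k (fun i => F' h i z.1) z.2)) with hD
    have hF'b : ∀ h i a x, ‖F' h i a x‖ ≤ 1 := fun h i a x => hmul _ _ (hF _ _ _) (hF _ _ _)
    have hDb : ∀ h, ‖D h‖ ≤ 1 := fun h => by
      refine M.norm_E_le _ fun z => ?_
      refine X.μ.norm_E_le _ fun x => ?_
      exact prod_norm_le_one _ _ fun i _ => hF'b _ _ _ _
    have h1 : ‖M.E (fun z => X.μ.E (cor X (k + 1) (fun i => F i z.1) z.2))‖ ^ 2 ≤
        cz.R (fun h => ‖D h‖) := by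
      refine (vdc1 M hM X k F hF).trans ?_
      refine (Complex.re_le_norm _).trans ?_
      exact cz.norm_E_le_R_norm D ⟨1, hDb⟩
    have h2 := pow_mean cz (fun h => ‖D h‖) (fun h => norm_nonneg _) hDb k
    set gh : ℤ → X.S → ℂ := fun h x => g x *
      (starRingEnd ℂ) (g ((X.T ^ (((k : ℤ) + 1) * h)) x)) with hgh
    have hghb : ∀ h x, ‖gh h x‖ ≤ 1 := fun h x => hmul _ _ (hgb _) (hgb _)
    have h3 : ∀ h, ‖D h‖ ^ (2 ^ k) ≤ (box X (steps k) (gh h)).re := fun h => by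
      refine ih (F' h) (hF'b h) (gh h) fun a => ?_
      funext x
      simp only [hF', hgh]
      rw [hg a]
    have hbb : ∀ h, ‖box X (steps k) (gh h)‖ ≤ 1 := fun h => box_bd X _ _ (hghb h)
    have h4 : cz.R (fun h => ‖D h‖ ^ (2 ^ k)) ≤
        cz.R (fun h => (box X (steps k) (gh h)).re) := by
      refine cz.R_mono _ _ h3 (C := 1) (fun h => ?_) (fun h => ?_)
      · rw [abs_of_nonneg (pow_nonneg (norm_nonneg _) _)]
        exact pow_le_one₀ (norm_nonneg _) (hDb h)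
      · exact (Complex.abs_re_le_norm _).trans (hbb h)
    have h5 : cz.R (fun h => (box X (steps k) (gh h)).re) = (box X (steps (k + 1)) g).re := by
      rw [← cz.re_E _ ⟨1, hbb⟩]
      rfl
    have e : ‖M.E (fun z => X.μ.E (cor X (k + 1) (fun i => F i z.1) z.2))‖ ^ (2 ^ (k + 1)) =
        (‖M.E (fun z => X.μ.E (cor X (k + 1) (fun i => F i z.1) z.2))‖ ^ 2) ^ (2 ^ k) := by
      rw [← pow_mul, ← pow_succ']
    rw [e, ← h5]
    refine le_trans ?_ (h2.trans h4)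
    exact pow_le_pow_left₀ (sq_nonneg _) h1 _

end DG.BLP
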